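import Pool.Agent.Lib.MP_305fdd_al.CC.Defs

/-!
# MP_305fdd_al: the free product of two finite cyclic groups
-/

set_option autoImplicit false

namespace Pool.Agent.CC

open Pool.Agent.Lib.MP_305fdd_al Pool.Agent.MP_305fdd_al

/-- homomorphisms from a finite cyclic group -/
theorem exists_zmod_hom {G : Type} [Group G] (n : ℕ) (g : G) (hg : g ^ n = 1) :
    ∃ f : Multiplicative (ZMod n) →* G, f (Multiplicative.ofAdd 1) = g := by
  let φ : ℤ →+ Additive G := zmultiplesHom (Additive G) (Additive.ofMul g)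
  have hφ : φ n = 0 := by
    show (n : ℤ) • Additive.ofMul g = 0
    rw [natCast_zsmul, ← ofMul_pow, hg]
    rfl
  let ψ : ZMod n →+ Additive G := ZMod.lift n ⟨φ, hφ⟩
  refine ⟨AddMonoidHom.toMultiplicativeLeft ψ, ?_⟩
  show (ψ 1).toMul = g
  have h1 : ψ ((1 : ℤ) : ZMod n) = φ 1 := ZMod.lift_coe n ⟨φ, hφ⟩ 1
  rw [Int.cast_one] at h1
  rw [h1]
  show ((1 : ℤ) • Additive.ofMul g).toMul = g
  rw [one_zsmul]
  rfl

theorem zmod_closure (n : ℕ) :
    Subgroup.closure ({Multiplicative.ofAdd (1 : ZMod n)} : Set (Multiplicative (ZMod n))) = ⊤ := by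
  rw [eq_top_iff]
  intro u _
  rw [Subgroup.mem_closure_singleton]
  obtain ⟨k, hk⟩ := ZMod.intCast_surjective (u.toAdd)
  refine ⟨k, ?_⟩
  rw [← ofAdd_zsmul, zsmul_one, hk]
  rfl

theorem isCaCb_coprod (a b : ℕ) : IsCaCb a b
    (Monoid.Coprod (Multiplicative (ZMod a)) (Multiplicative (ZMod b)))
    (Monoid.Coprod.inl (Multiplicative.ofAdd 1)) (Monoid.Coprod.inr (Multiplicative.ofAdd 1)) where
  pa := by
    rw [← map_pow, ← ofAdd_nsmul, nsmul_one, ZMod.natCast_self, ofAdd_zero, map_one]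
  pb := by
    rw [← map_pow, ← ofAdd_nsmul, nsmul_one, ZMod.natCast_self, ofAdd_zero, map_one]
  gen := by
    rw [eq_top_iff, ← Monoid.Coprod.range_inl_sup_range_inr, sup_le_iff]
    constructor
    · rw [MonoidHom.range_eq_map, ← zmod_closure a, MonoidHom.map_closure, Set.image_singleton]
      exact Subgroup.closure_mono (by simp)
    · rw [MonoidHom.range_eq_map, ← zmod_closure b, MonoidHom.map_closure, Set.image_singleton]
      exact Subgroup.closure_mono (by simp)
  lift := by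
    intro G _ g h hg hh
    obtain ⟨f, hf⟩ := exists_zmod_hom a g hg
    obtain ⟨f', hf'⟩ := exists_zmod_hom b h hh
    refine ⟨Monoid.Coprod.lift f f', ?_, ?_⟩
    · rw [Monoid.Coprod.lift_apply_inl, hf]
    · rw [Monoid.Coprod.lift_apply_inr, hf']

/-- being a free product of cyclic groups is invariant under isomorphisms -/
theorem IsCaCb.of_equiv {a b : ℕ} {Γ Γ' : Type} [Group Γ] [Group Γ'] {x y : Γ}
    (h : IsCaCb a b Γ x y) (e : Γ ≃* Γ') : IsCaCb a b Γ' (e x) (e y) where
  pa := by rw [← map_pow, h.pa, map_one]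
  pb := by rw [← map_pow, h.pb, map_one]
  gen := by
    have h1 := congrArg (Subgroup.map e.toMonoidHom) h.gen
    rw [MonoidHom.map_closure, Set.image_pair] at h1
    rw [← MonoidHom.range_eq_map, MonoidHom.range_eq_top.2 e.surjective] at h1
    exact h1
  lift := by
    intro G _ g k hg hk
    obtain ⟨f, h1, h2⟩ := h.lift G g k hg hk
    refine ⟨f.comp e.symm.toMonoidHom, ?_, ?_⟩
    · show f (e.symm (e x)) = g
      rw [MulEquiv.symm_apply_apply, h1]
    · show f (e.symm (e y)) = k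
      rw [MulEquiv.symm_apply_apply, h2]

end Pool.Agent.CC
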