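import Pool.Agent.Lib.MP_305fdd_al.CC.Defs

/-!
# MP_305fdd_al: pseudo-characters of cyclic groups (Fourier idempotents)
-/

set_option autoImplicit false
set_option linter.unusedSectionVars false

namespace Pool.Agent.CC

/-- the Fourier coefficients: `nk T x μ k = (1/a) ∑_i μ^(-ki) T(x^i)` -/
noncomputable def nk {F : Type} [Field F] {G : Type} [Group G] {R : Type} [CommRing R]
    [Algebra F R] (a : ℕ) (μ : Fˣ) (T : G → R) (x : G) (k : ℕ) : R :=
  algebraMap F R ((a : F)⁻¹) *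
    ∑ i ∈ Finset.range a, algebraMap F R (((μ ^ (k * i))⁻¹ : Fˣ) : F) * T (x ^ i)

/-- shift of a sum over a period -/
private theorem sum_shift_nat {R : Type} [AddCommGroup R] (a : ℕ) (g : ℤ → R)
    (hg : ∀ z, g (z + a) = g z) (c : ℤ) (n : ℕ) :
    ∑ i ∈ Finset.range a, g (i + (c + n)) = ∑ i ∈ Finset.range a, g (i + c) := by
  induction n with
  | zero => simp
  | succ n ih =>
    have h1 : ∑ i ∈ Finset.range (a + 1), g ((i : ℤ) + (c + n)) =
        ∑ i ∈ Finset.range a, g ((i : ℤ) + (c + n)) + g ((a : ℤ) + (c + n)) :=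
      Finset.sum_range_succ (fun i : ℕ => g ((i : ℤ) + (c + n))) a
    have h2 : ∑ i ∈ Finset.range (a + 1), g ((i : ℤ) + (c + n)) =
        ∑ i ∈ Finset.range a, g (((i + 1 : ℕ) : ℤ) + (c + n)) + g (((0 : ℕ) : ℤ) + (c + n)) :=
      Finset.sum_range_succ' (fun i : ℕ => g ((i : ℤ) + (c + n))) a
    have h3 : g ((a : ℤ) + (c + n)) = g (((0 : ℕ) : ℤ) + (c + n)) := by
      rw [add_comm (a : ℤ), hg]
      congr 1
      simp
    have h4 : ∑ i ∈ Finset.range a, g (((i + 1 : ℕ) : ℤ) + (c + n)) =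
        ∑ i ∈ Finset.range a, g ((i : ℤ) + (c + ((n + 1 : ℕ) : ℤ))) := by
      refine Finset.sum_congr rfl fun i _ => ?_
      congr 1
      push_cast
      ring
    rw [← h4, ← ih]
    have h5 := h1.symm.trans h2
    rw [h3] at h5
    exact (add_right_cancel h5).symm

private theorem sum_shift {R : Type} [AddCommGroup R] (a : ℕ) (g : ℤ → R)
    (hg : ∀ z, g (z + a) = g z) (c : ℤ) :
    ∑ i ∈ Finset.range a, g (i + c) = ∑ i ∈ Finset.range a, g i := by
  obtain ⟨n, rfl | rfl⟩ := c.eq_nat_or_neg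
  · have := sum_shift_nat a g hg 0 n
    simpa using this
  · have := sum_shift_nat a g hg (-n) n
    simpa using this.symm

/-- orthogonality of the characters of a cyclic group -/
private theorem orth {F : Type} [Field F] {a : ℕ} {μ : Fˣ} (hμ : orderOf μ = a) (m : ℤ) :
    ∑ j ∈ Finset.range a, ((μ ^ (m * (j : ℤ)) : Fˣ) : F) =
      if (a : ℤ) ∣ m then (a : F) else 0 := by
  have h1 : ∀ j : ℕ, ((μ ^ (m * (j : ℤ)) : Fˣ) : F) = (((μ ^ m : Fˣ) : F)) ^ j := by
    intro j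
    rw [zpow_mul, zpow_natCast, Units.val_pow_eq_pow_val]
  simp_rw [h1]
  have h2 : (((μ ^ m : Fˣ) : F)) ^ a = 1 := by
    rw [← h1, mul_comm, zpow_mul, ← hμ, zpow_natCast, pow_orderOf_eq_one, one_zpow, Units.val_one]
  split_ifs with h
  · have h3 : μ ^ m = 1 := by
      rw [← orderOf_dvd_iff_zpow_eq_one, hμ]
      exact h
    simp [h3]
  · have h3 : ((μ ^ m : Fˣ) : F) - 1 ≠ 0 := by
      intro h4
      apply h
      rw [← hμ, orderOf_dvd_iff_zpow_eq_one]
      ext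
      rw [Units.val_one]
      exact sub_eq_zero.mp h4
    have h4 := geom_sum_mul (((μ ^ m : Fˣ) : F)) a
    rw [h2, sub_self] at h4
    rcases mul_eq_zero.mp h4 with h5 | h5
    · exact h5
    · exact absurd h5 h3

section Q3

variable {F : Type} [Field F] {G : Type} [Group G] {δ : G →* Fˣ} {R : Type} [CommRing R]
  [Algebra F R] {T : G → R} (hT : PChar δ T) {a : ℕ} (ha : (a : F) ≠ 0) {μ : Fˣ}
  (hμ : orderOf μ = a) {x : G} (hx : x ^ a = 1) (hδ : δ x = μ)

private theorem nk_eq (k : ℕ) : nk a μ T x k = algebraMap F R ((a : F)⁻¹) *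
    ∑ i ∈ Finset.range a, algebraMap F R (((μ ^ (-(k : ℤ) * (i : ℤ))) : Fˣ) : F) *
      T (x ^ (i : ℤ)) := by
  rw [nk]
  congr 1
  refine Finset.sum_congr rfl fun i _ => ?_
  rw [zpow_natCast]
  congr 3
  rw [neg_mul, zpow_neg, ← Nat.cast_mul, zpow_natCast]

include hT ha hμ hx hδ

theorem nk_periodic (k l : ℕ) (hkl : k ≡ l [MOD a]) : nk a μ T x k = nk a μ T x l := by
  rw [nk_eq, nk_eq]
  congr 1
  refine Finset.sum_congr rfl fun i _ => ?_
  have h1 : μ ^ (-(k : ℤ)) = μ ^ (-(l : ℤ)) := by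
    rw [Nat.modEq_iff_dvd] at hkl
    rw [← hμ, orderOf_dvd_iff_zpow_eq_one, zpow_sub] at hkl
    rw [zpow_neg, zpow_neg, inv_inj]
    exact (mul_inv_eq_one.mp hkl).symm
  rw [zpow_mul, zpow_mul, h1]

/-- the sum over a shifted period -/
private theorem key (k : ℕ) (j : ℤ) :
    ∑ i ∈ Finset.range a, algebraMap F R (((μ ^ (-(k : ℤ) * (i : ℤ))) : Fˣ) : F) *
      T (x ^ ((i : ℤ) + j)) = algebraMap F R (((μ ^ ((k : ℤ) * j)) : Fˣ) : F) *
    ∑ i ∈ Finset.range a, algebraMap F R (((μ ^ (-(k : ℤ) * (i : ℤ))) : Fˣ) : F) *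
      T (x ^ (i : ℤ)) := by
  have h1 := sum_shift a (fun z : ℤ => algebraMap F R (((μ ^ (-(k : ℤ) * z)) : Fˣ) : F) *
      T (x ^ z)) (by
        intro z
        have h2 : x ^ (z + (a : ℤ)) = x ^ z := by
          rw [zpow_add, zpow_natCast, hx, mul_one]
        have h3 : μ ^ (-(k : ℤ) * (z + (a : ℤ))) = μ ^ (-(k : ℤ) * z) := by
          have h4 : μ ^ (a : ℤ) = 1 := by rw [zpow_natCast, ← hμ]; exact pow_orderOf_eq_one _
          rw [mul_add, zpow_add, mul_comm (-(k : ℤ)) (a : ℤ), zpow_mul μ (a : ℤ), h4, one_zpow, mul_one]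
        simp only [h2, h3]) j
  rw [← h1, Finset.mul_sum]
  refine Finset.sum_congr rfl fun i _ => ?_
  rw [← mul_assoc, ← map_mul, ← Units.val_mul, ← zpow_add]
  congr 5
  ring

/-- `n_k n_l = [k = l] n_k + [k + l = 1] n_k` -/
theorem nk_mul (k l : ℕ) : nk a μ T x k * nk a μ T x l =
    (if k ≡ l [MOD a] then nk a μ T x k else 0) +
      (if k + l ≡ 1 [MOD a] then nk a μ T x k else 0) := by
  have hδz : ∀ j : ℤ, δ (x ^ j) = μ ^ j := by intro j; rw [map_zpow, hδ]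
  have h1 : ∀ j : ℕ, (∑ i ∈ Finset.range a,
      algebraMap F R (((μ ^ (-(k : ℤ) * (i : ℤ))) : Fˣ) : F) * T (x ^ (i : ℤ))) *
      (algebraMap F R (((μ ^ (-(l : ℤ) * (j : ℤ))) : Fˣ) : F) * T (x ^ (j : ℤ))) =
      algebraMap F R ((((μ ^ (((k : ℤ) - l) * (j : ℤ))) : Fˣ) : F) +
        (((μ ^ ((1 - ((k : ℤ) + l)) * (j : ℤ))) : Fˣ) : F)) *
      ∑ i ∈ Finset.range a, algebraMap F R (((μ ^ (-(k : ℤ) * (i : ℤ))) : Fˣ) : F) *
        T (x ^ (i : ℤ)) := by
    intro j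
    have h2 : ∀ i : ℕ, T (x ^ (i : ℤ)) * T (x ^ (j : ℤ)) = T (x ^ ((i : ℤ) + (j : ℤ))) +
        algebraMap F R ((μ ^ (j : ℤ) : Fˣ) : F) * T (x ^ ((i : ℤ) + (-(j : ℤ)))) := by
      intro i
      rw [← hT.rel, hδz, zpow_add, zpow_add, zpow_neg]
    have h3 := key hT ha hμ hx hδ k (j : ℤ)
    have h4 := key hT ha hμ hx hδ k (-(j : ℤ))
    calc (∑ i ∈ Finset.range a,
      algebraMap F R (((μ ^ (-(k : ℤ) * (i : ℤ))) : Fˣ) : F) * T (x ^ (i : ℤ))) *
      (algebraMap F R (((μ ^ (-(l : ℤ) * (j : ℤ))) : Fˣ) : F) * T (x ^ (j : ℤ))) =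
        algebraMap F R (((μ ^ (-(l : ℤ) * (j : ℤ))) : Fˣ) : F) *
        ((∑ i ∈ Finset.range a, algebraMap F R (((μ ^ (-(k : ℤ) * (i : ℤ))) : Fˣ) : F) *
          T (x ^ ((i : ℤ) + (j : ℤ)))) + algebraMap F R ((μ ^ (j : ℤ) : Fˣ) : F) *
          ∑ i ∈ Finset.range a, algebraMap F R (((μ ^ (-(k : ℤ) * (i : ℤ))) : Fˣ) : F) *
          T (x ^ ((i : ℤ) + (-(j : ℤ))))) := by
          rw [Finset.sum_mul, Finset.mul_sum, ← Finset.sum_add_distrib, Finset.mul_sum]
          refine Finset.sum_congr rfl fun i _ => ?_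
          calc algebraMap F R (((μ ^ (-(k : ℤ) * (i : ℤ))) : Fˣ) : F) * T (x ^ (i : ℤ)) *
              (algebraMap F R (((μ ^ (-(l : ℤ) * (j : ℤ))) : Fˣ) : F) * T (x ^ (j : ℤ))) =
              algebraMap F R (((μ ^ (-(k : ℤ) * (i : ℤ))) : Fˣ) : F) *
              algebraMap F R (((μ ^ (-(l : ℤ) * (j : ℤ))) : Fˣ) : F) *
              (T (x ^ (i : ℤ)) * T (x ^ (j : ℤ))) := by ring
            _ = _ := by rw [h2]; ring
      _ = _ := by
        rw [h3, h4]
        have h5 : ((μ ^ (((k : ℤ) - l) * (j : ℤ)) : Fˣ) : F) =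
            ((μ ^ (-(l : ℤ) * (j : ℤ)) : Fˣ) : F) * ((μ ^ ((k : ℤ) * (j : ℤ)) : Fˣ) : F) := by
          rw [← Units.val_mul, ← zpow_add]
          congr 2
          ring
        have h6 : ((μ ^ ((1 - ((k : ℤ) + l)) * (j : ℤ)) : Fˣ) : F) =
            ((μ ^ (-(l : ℤ) * (j : ℤ)) : Fˣ) : F) * ((μ ^ (j : ℤ) : Fˣ) : F) *
              ((μ ^ ((k : ℤ) * (-(j : ℤ))) : Fˣ) : F) := by
          rw [← Units.val_mul, ← zpow_add, ← Units.val_mul, ← zpow_add]
          congr 2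
          ring
        rw [h5, h6, map_add, map_mul, map_mul, map_mul]
        ring
  have h7 : ((a : F)⁻¹) * (a : F) = 1 := inv_mul_cancel₀ ha
  have h8 : nk a μ T x k * nk a μ T x l = algebraMap F R ((a : F)⁻¹ *
      (∑ j ∈ Finset.range a, ((((μ ^ (((k : ℤ) - l) * (j : ℤ))) : Fˣ) : F) +
        (((μ ^ ((1 - ((k : ℤ) + l)) * (j : ℤ))) : Fˣ) : F)))) * nk a μ T x k := by
    rw [nk_eq (T := T) (x := x) (μ := μ) k, nk_eq (T := T) (x := x) (μ := μ) l]
    set S := ∑ i ∈ Finset.range a, algebraMap F R (((μ ^ (-(k : ℤ) * (i : ℤ))) : Fˣ) : F) *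
        T (x ^ (i : ℤ)) with hS
    calc algebraMap F R (a : F)⁻¹ * S * (algebraMap F R (a : F)⁻¹ * ∑ i ∈ Finset.range a,
          algebraMap F R (((μ ^ (-(l : ℤ) * (i : ℤ))) : Fˣ) : F) * T (x ^ (i : ℤ))) =
          algebraMap F R (a : F)⁻¹ * algebraMap F R (a : F)⁻¹ *
          (∑ j ∈ Finset.range a, S * (algebraMap F R (((μ ^ (-(l : ℤ) * (j : ℤ))) : Fˣ) : F) *
            T (x ^ (j : ℤ)))) := by
            rw [← Finset.mul_sum]; ring
      _ = algebraMap F R (a : F)⁻¹ * algebraMap F R (a : F)⁻¹ *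
          (∑ j ∈ Finset.range a, algebraMap F R ((((μ ^ (((k : ℤ) - l) * (j : ℤ))) : Fˣ) : F) +
        (((μ ^ ((1 - ((k : ℤ) + l)) * (j : ℤ))) : Fˣ) : F)) * S) := by
            rw [Finset.sum_congr rfl fun j _ => h1 j]
      _ = _ := by
            rw [← Finset.sum_mul, ← map_sum, map_mul]
            ring
  rw [h8, Finset.sum_add_distrib, orth hμ, orth hμ]
  have h9 : (k ≡ l [MOD a]) ↔ (a : ℤ) ∣ (k : ℤ) - l := by
    rw [Nat.modEq_iff_dvd, ← dvd_neg, neg_sub]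
  have h10 : (k + l ≡ 1 [MOD a]) ↔ (a : ℤ) ∣ 1 - ((k : ℤ) + l) := by
    rw [Nat.modEq_iff_dvd]
    push_cast
    rfl
  simp only [h9, h10]
  split_ifs with c1 c2 c2
  · rw [mul_add, h7, map_add, map_one]; ring
  · rw [add_zero, h7, map_one]; ring
  · rw [zero_add, h7, map_one]; ring
  · simp

theorem nk_fourier (i : ℕ) : T (x ^ i) =
    ∑ k ∈ Finset.range a, algebraMap F R ((μ ^ (k * i) : Fˣ) : F) * nk a μ T x k := by
  have h7 : ((a : F)⁻¹) * (a : F) = 1 := inv_mul_cancel₀ ha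
  have ha0 : 0 < a := Nat.pos_of_ne_zero (by rintro rfl; simp at ha)
  have h1 : ∑ k ∈ Finset.range a, algebraMap F R ((μ ^ (k * i) : Fˣ) : F) * nk a μ T x k =
      algebraMap F R (a : F)⁻¹ * ∑ j ∈ Finset.range a, algebraMap F R
        (∑ k ∈ Finset.range a, ((μ ^ (((i : ℤ) - j) * (k : ℤ)) : Fˣ) : F)) * T (x ^ (j : ℤ)) := by
    simp_rw [map_sum, Finset.sum_mul]
    rw [Finset.sum_comm, Finset.mul_sum]
    refine Finset.sum_congr rfl fun k _ => ?_
    rw [nk_eq, mul_left_comm, Finset.mul_sum]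
    congr 1
    refine Finset.sum_congr rfl fun j _ => ?_
    rw [← mul_assoc, ← map_mul, ← Units.val_mul, ← zpow_natCast, ← zpow_add]
    congr 4
    push_cast
    ring
  rw [h1]
  simp_rw [orth hμ]
  have h2 : ∀ j ∈ Finset.range a, j ≠ i % a →
      algebraMap F R (if (a : ℤ) ∣ (i : ℤ) - j then (a : F) else 0) * T (x ^ (j : ℤ)) = 0 := by
    intro j hj hne
    rw [if_neg, map_zero, zero_mul]
    intro hd
    apply hne
    have h3 : j ≡ i [MOD a] := by rw [Nat.modEq_iff_dvd]; exact hd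
    have h4 : j % a = i % a := h3
    rw [← h4, Nat.mod_eq_of_lt (Finset.mem_range.mp hj)]
  rw [Finset.sum_eq_single (i % a) h2 (fun h => absurd (Finset.mem_range.mpr (Nat.mod_lt _ ha0)) h)]
  have h3 : (a : ℤ) ∣ (i : ℤ) - ((i % a : ℕ) : ℤ) := by
    rw [← Nat.modEq_iff_dvd]
    exact Nat.mod_modEq i a
  rw [if_pos h3, ← mul_assoc, ← map_mul, h7, map_one, one_mul, zpow_natCast]
  congr 1
  conv_lhs => rw [← Nat.mod_add_div i a, pow_add, pow_mul, hx, one_pow, mul_one]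

theorem nk_sum : ∑ k ∈ Finset.range a, nk a μ T x k = 2 := by
  have h1 := nk_fourier hT ha hμ hx hδ 0
  simp only [mul_zero, pow_zero, Units.val_one, map_one, one_mul] at h1
  rw [← h1, hT.one]

/-- if `T(x) = 2α`, `α^2 = μ`, then `T(xg) = α T(g)` -/
theorem scalar (α : Fˣ) (hα : α ^ 2 = μ) (hα' : α ^ a = 1)
    (hTx : T x = algebraMap F R (2 * (α : F))) (g : G) :
    T (x * g) = algebraMap F R (α : F) * T g := by
  have hsq : ∀ k : G, T (x * (x * k)) =
      algebraMap F R (2 * (α : F)) * T (x * k) - algebraMap F R ((α : F) ^ 2) * T k := by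
    intro k
    have h1 := hT.rel (x * k) x
    rw [hδ, ← hα, Units.val_pow_eq_pow_val, hTx] at h1
    have h2 : T (x * k * x⁻¹) = T k := by
      rw [hT.comm, inv_mul_cancel_left]
    have h3 : T (x * k * x) = T (x * (x * k)) := hT.comm _ _
    rw [h2, h3] at h1
    rw [eq_sub_iff_add_eq, h1]
    ring
  set A : R := algebraMap F R (α : F) with hA
  have hsq' : ∀ k : G, T (x * (x * k)) = 2 * A * T (x * k) - A ^ 2 * T k := by
    intro k
    rw [hsq, map_mul, map_pow, map_ofNat]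
  have hk : ∀ k : ℕ, A * T (x ^ k * g) + k * A ^ (k + 1) * T g =
      A ^ k * (k * T (x * g) + A * T g) ∧
      A * T (x ^ (k + 1) * g) + (k + 1) * A ^ (k + 2) * T g =
      A ^ (k + 1) * ((k + 1) * T (x * g) + A * T g) := by
    intro k
    induction k with
    | zero => exact ⟨by simp, by simp; ring⟩
    | succ k ih =>
      obtain ⟨h1, h2⟩ := ih
      refine ⟨by push_cast; exact h2, ?_⟩
      have h3 : T (x ^ (k + 1 + 1) * g) = 2 * A * T (x ^ (k + 1) * g) - A ^ 2 * T (x ^ k * g) := by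
        have := hsq' (x ^ k * g)
        rw [pow_succ' x (k + 1), pow_succ' x k, mul_assoc, mul_assoc]
        exact this
      rw [h3]
      push_cast
      linear_combination 2 * A * h2 - A ^ 2 * h1
  have h4 := (hk a).1
  have hAa : A ^ a = 1 := by
    rw [hA, ← map_pow, ← Units.val_pow_eq_pow_val, hα', Units.val_one, map_one]
  rw [hx, one_mul, pow_succ, hAa, one_mul] at h4
  have h5 : (a : R) * (T (x * g) - A * T g) = 0 := by linear_combination -h4
  have h6 : algebraMap F R ((a : F)⁻¹) * (a : R) = 1 := by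
    rw [← map_natCast (algebraMap F R), ← map_mul, inv_mul_cancel₀ ha, map_one]
  have h7 : T (x * g) - A * T g = 0 := by
    calc T (x * g) - A * T g = (algebraMap F R ((a : F)⁻¹) * (a : R)) * (T (x * g) - A * T g) := by
          rw [h6, one_mul]
      _ = 0 := by rw [mul_assoc, h5, mul_zero]
  exact sub_eq_zero.mp h7

end Q3

end Pool.Agent.CC
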