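import Pool.Agent.Lib.MP_305fdd_al.CC.Defs
import Pool.Agent.Lib.MP_305fdd_al.PSL.Decomp

/-!
# MP_305fdd_al: the trace ring `B` is a finite product of Dedekind domains and of copies of `F`
-/

set_option autoImplicit false

namespace Pool.Agent.CC

open Polynomial Pool.Agent.Lib.MP_305fdd_al IsLocalRing
open Pool.Agent.PSL2Z (isDomain_of_principal principal_localization)

section TR

variable {p : ℕ} [Fact p.Prime] {A B : Type} [CommRing A] [Algebra (ZMod p) A]
  [CommRing B] [Algebra (ZMod p) B]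
  {ev : ∀ J : {J : Ideal A // Finite (A ⧸ J)}, B →ₐ[ZMod p] A ⧸ J.1}

theorem finite_quotient_maximal {B : Type} [CommRing B] [Algebra (ZMod p) B]
    [Algebra.FiniteType (ZMod p) B] (m : Ideal B) [m.IsMaximal] : Finite (B ⧸ m) := by
  let : Field (B ⧸ m) := Ideal.Quotient.field m
  have : Module.Finite (ZMod p) (B ⧸ m) := finite_of_finite_type_of_isJacobsonRing (ZMod p) (B ⧸ m)
  exact Module.finite_of_finite (ZMod p)

/-- `B / ker (ev J) = A / J` -/
noncomputable def quotEquiv (hB : IsTR p A B ev) (J : {J : Ideal A // Finite (A ⧸ J)}) :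
    (B ⧸ RingHom.ker (ev J)) ≃+* (A ⧸ J.1) :=
  RingHom.quotientKerEquivOfSurjective (f := (ev J : B →+* A ⧸ J.1)) (hB.surj J)

theorem card_quot (hB : IsTR p A B ev) (J : {J : Ideal A // Finite (A ⧸ J)}) :
    Nat.card (B ⧸ RingHom.ker (ev J)) = Nat.card (A ⧸ J.1) :=
  Nat.card_congr (quotEquiv hB J).toEquiv

theorem isMaximal_iff (hB : IsTR p A B ev) (J : {J : Ideal A // Finite (A ⧸ J)}) :
    (RingHom.ker (ev J)).IsMaximal ↔ J.1.IsMaximal := by
  rw [Ideal.Quotient.maximal_ideal_iff_isField_quotient,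
    Ideal.Quotient.maximal_ideal_iff_isField_quotient]
  exact ⟨fun h => (quotEquiv hB J).symm.toMulEquiv.isField h,
    fun h => (quotEquiv hB J).toMulEquiv.isField h⟩

/-- the correspondence reflects the order -/
theorem le_of_ker_le (hB : IsTR p A B ev) (J J' : {J : Ideal A // Finite (A ⧸ J)})
    (h : RingHom.ker (ev J) ≤ RingHom.ker (ev J')) :
    J.1 ≤ J'.1 ∧ (RingHom.ker (ev J')).map (ev J : B →+* A ⧸ J.1) =
      J'.1.map (Ideal.Quotient.mk J.1) := by
  set N : Ideal (A ⧸ J.1) := (RingHom.ker (ev J')).map (ev J : B →+* A ⧸ J.1) with hN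
  have hNmem : ∀ b : B, ev J b ∈ N ↔ ev J' b = 0 := by
    intro b
    constructor
    · intro hb
      have hb' : (ev J : B →+* A ⧸ J.1) b ∈ (RingHom.ker (ev J')).map (ev J : B →+* A ⧸ J.1) := hb
      obtain ⟨c, hc, hcb⟩ := (Ideal.mem_map_iff_of_surjective (ev J : B →+* A ⧸ J.1)
        (hB.surj J)).1 hb'
      have h1 : c - b ∈ RingHom.ker (ev J) := by
        rw [RingHom.mem_ker, map_sub, sub_eq_zero]
        exact hcb
      have h2 := h h1
      rw [RingHom.mem_ker, map_sub] at h2
      rw [RingHom.mem_ker] at hc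
      rw [hc, zero_sub, neg_eq_zero] at h2
      exact h2
    · intro hb
      exact Ideal.mem_map_of_mem (ev J : B →+* A ⧸ J.1) (show b ∈ RingHom.ker (ev J') from hb)
  set J₃ : Ideal A := N.comap (Ideal.Quotient.mk J.1) with hJ₃
  have hle : J.1 ≤ J₃ := by
    intro a ha
    rw [hJ₃, Ideal.mem_comap, Ideal.Quotient.eq_zero_iff_mem.2 ha]
    exact N.zero_mem
  have := J.2
  have hfin : Finite (A ⧸ J₃) := Finite.of_surjective _ (Ideal.Quotient.factor_surjective hle)
  have hker : RingHom.ker (ev ⟨J₃, hfin⟩) = RingHom.ker (ev J') := by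
    ext b
    rw [RingHom.mem_ker, RingHom.mem_ker, ← hB.compat J ⟨J₃, hfin⟩ hle b, ← hNmem b]
    obtain ⟨a, ha⟩ := Ideal.Quotient.mk_surjective (ev J b)
    rw [← ha, Ideal.Quotient.factor_mk, Ideal.Quotient.eq_zero_iff_mem]
    exact Iff.rfl
  have h3 := hB.inj _ _ hker
  have h4 : J'.1 = J₃ := by rw [← h3]
  refine ⟨h4 ▸ hle, ?_⟩
  rw [h4, hJ₃, Ideal.map_comap_of_surjective _ Ideal.Quotient.mk_surjective]

theorem exists_gen (hA : Good p A) (hB : IsTR p A B ev) (m : Ideal B) [m.IsMaximal] :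
    ∃ b ∈ m, m ≤ Ideal.span {b} ⊔ m ^ 2 := by
  have := hB.fg
  have := hA.pir
  have : IsNoetherianRing B := Algebra.FiniteType.isNoetherianRing (ZMod p) B
  have := finite_quotient_maximal (p := p) m
  have : Finite (B ⧸ m ^ 2) := Ideal.finite_quotient_pow (IsNoetherian.noetherian m) 2
  obtain ⟨J, hJ⟩ := hB.fin (m ^ 2) this
  have : IsPrincipalIdealRing (A ⧸ J.1) :=
    IsPrincipalIdealRing.of_surjective _ Ideal.Quotient.mk_surjective
  obtain ⟨c, hc⟩ := (IsPrincipalIdealRing.principal (m.map (ev J))).principal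
  have hc' : m.map (ev J) = Ideal.span {c} := hc
  have hcm : c ∈ m.map (ev J) := by rw [hc']; exact Ideal.mem_span_singleton_self c
  rw [Ideal.mem_map_iff_of_surjective _ (hB.surj J)] at hcm
  obtain ⟨b, hb, hbc⟩ := hcm
  refine ⟨b, hb, fun a ha => ?_⟩
  have h1 : ev J a ∈ Ideal.span {c} := by rw [← hc']; exact Ideal.mem_map_of_mem _ ha
  rw [Ideal.mem_span_singleton'] at h1
  obtain ⟨d, hd⟩ := h1
  obtain ⟨d', rfl⟩ := hB.surj J d
  have h2 : a - d' * b ∈ m ^ 2 := by
    rw [hJ, RingHom.mem_ker]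
    change ev J (a - d' * b) = 0
    rw [map_sub, map_mul, hbc, hd, sub_self]
  have h3 : a = d' * b + (a - d' * b) := by ring
  rw [h3]
  exact Ideal.add_mem _ (Ideal.mem_sup_left (Ideal.mem_span_singleton'.mpr ⟨d', rfl⟩))
    (Ideal.mem_sup_right h2)

/-- if `J` is maximal and its powers are strictly decreasing then so are those of the maximal
ideal of `B_m`, `m = ker (ev J)` -/
theorem not_nilpotent (hA : Good p A) (hB : IsTR p A B ev)
    (J : {J : Ideal A // Finite (A ⧸ J)}) (m : Ideal B)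
    [hm : m.IsMaximal] (hJ : m = RingHom.ker (ev J)) (hpow : ∀ k : ℕ, J.1 ^ k ≠ J.1 ^ (k + 1))
    (k : ℕ) : maximalIdeal (Localization.AtPrime m) ^ k ≠ ⊥ := by
  have := hA.pir
  have := J.2
  have hfinp : Finite (A ⧸ J.1 ^ (k + 1)) :=
    Ideal.finite_quotient_pow (IsNoetherian.noetherian J.1) (k + 1)
  set J' : {J : Ideal A // Finite (A ⧸ J)} := ⟨J.1 ^ (k + 1), hfinp⟩ with hJ'
  have hle : J'.1 ≤ J.1 := Ideal.pow_le_self (Nat.succ_ne_zero k)
  set N : Ideal (A ⧸ J'.1) := J.1.map (Ideal.Quotient.mk J'.1) with hN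
  have hNk : N ^ (k + 1) = ⊥ := by
    rw [hN, ← Ideal.map_pow, Ideal.map_eq_bot_iff_le_ker, Ideal.mk_ker]
  have hcomap : ∀ b : B, ev J' b ∈ N ↔ b ∈ m := by
    intro b
    rw [hN, ← Ideal.Quotient.factor_ker hle, RingHom.mem_ker, hB.compat J' J hle b, hJ]
    rfl
  have hmap : m.map (ev J' : B →+* A ⧸ J'.1) = N := by
    apply le_antisymm
    · rw [Ideal.map_le_iff_le_comap]
      intro b hb
      exact (hcomap b).mpr hb
    · intro c hc
      obtain ⟨b, rfl⟩ := hB.surj J' c
      exact Ideal.mem_map_of_mem _ ((hcomap b).mp hc)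
  have hunit : ∀ s : m.primeCompl, IsUnit ((ev J' : B →+* A ⧸ J'.1) s) := by
    rintro ⟨s, hs⟩
    obtain ⟨r, i, hi, hri⟩ := hm.exists_inv hs
    have h1 : IsNilpotent ((ev J' : B →+* A ⧸ J'.1) i) := by
      refine ⟨k + 1, ?_⟩
      have h2 : ((ev J' : B →+* A ⧸ J'.1) i) ^ (k + 1) ∈ N ^ (k + 1) :=
        Ideal.pow_mem_pow ((hcomap i).mpr hi) _
      rw [hNk] at h2
      exact h2
    have h3 : (ev J' : B →+* A ⧸ J'.1) r * (ev J' : B →+* A ⧸ J'.1) s
        = 1 - (ev J' : B →+* A ⧸ J'.1) i := by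
      rw [← map_mul, ← map_one (ev J' : B →+* A ⧸ J'.1), ← hri, map_add]
      ring
    have h4 := h1.isUnit_one_sub
    rw [← h3] at h4
    exact isUnit_of_mul_isUnit_right h4
  intro hbot
  have h5 := congrArg (Ideal.map (IsLocalization.lift (S := Localization.AtPrime m) hunit)) hbot
  rw [Ideal.map_pow, ← Localization.AtPrime.map_eq_maximalIdeal, Ideal.map_map,
    IsLocalization.lift_comp, hmap, Ideal.map_bot, hN, ← Ideal.map_pow,
    Ideal.map_eq_bot_iff_le_ker, Ideal.mk_ker] at h5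
  exact hpow k (le_antisymm h5 (Ideal.pow_le_pow_right (Nat.le_succ k)))

/-- if `m` is idempotent then `B_m` is a field -/
theorem maximalIdeal_eq_bot (hB : IsTR p A B ev) (m : Ideal B) [hm : m.IsMaximal]
    (h : m * m = m) : maximalIdeal (Localization.AtPrime m) = ⊥ := by
  have := hB.fg
  have : IsNoetherianRing B := Algebra.FiniteType.isNoetherianRing (ZMod p) B
  have hM : maximalIdeal (Localization.AtPrime m) =
      maximalIdeal (Localization.AtPrime m) * maximalIdeal (Localization.AtPrime m) := by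
    rw [← Localization.AtPrime.map_eq_maximalIdeal, ← Ideal.map_mul, h]
  have hfg : (maximalIdeal (Localization.AtPrime m)).FG := IsNoetherian.noetherian _
  refine Submodule.eq_bot_of_le_smul_of_le_jacobson_bot (maximalIdeal _) _ hfg ?_ ?_
  · rw [smul_eq_mul]
    exact hM.le
  · rw [IsLocalRing.jacobson_eq_maximalIdeal ⊥ bot_ne_top]

/-- idempotent maximal ideals correspond to each other -/
theorem idem_iff (hA : Good p A) (hB : IsTR p A B ev) (J : {J : Ideal A // Finite (A ⧸ J)})
    (hJmax : J.1.IsMaximal) (m : Ideal B) [hm : m.IsMaximal] (hJ : m = RingHom.ker (ev J)) :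
    m * m = m ↔ J.1 * J.1 = J.1 := by
  constructor
  · intro h
    by_contra h1
    rcases hA.dich J.1 hJmax with h2 | h2
    · exact h1 h2.1
    · refine not_nilpotent hA hB J m hJ h2 1 ?_
      rw [pow_one]
      exact maximalIdeal_eq_bot hB m h
  · intro h
    have := hB.fg
    have : IsNoetherianRing B := Algebra.FiniteType.isNoetherianRing (ZMod p) B
    have := finite_quotient_maximal (p := p) m
    have : Finite (B ⧸ m ^ 2) := Ideal.finite_quotient_pow (IsNoetherian.noetherian m) 2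
    obtain ⟨J₂, hJ₂⟩ := hB.fin (m ^ 2) this
    have hle : RingHom.ker (ev J₂) ≤ RingHom.ker (ev J) := by
      rw [← hJ₂, ← hJ]
      exact Ideal.pow_le_self two_ne_zero
    obtain ⟨h1, h2⟩ := le_of_ker_le hB J₂ J hle
    rw [← hJ] at h2
    have h3 : (m.map (ev J₂ : B →+* A ⧸ J₂.1)) * (m.map (ev J₂ : B →+* A ⧸ J₂.1)) = ⊥ := by
      rw [← Ideal.map_mul, ← pow_two, Ideal.map_eq_bot_iff_le_ker, hJ₂]
      exact le_rfl
    have h4 : m.map (ev J₂ : B →+* A ⧸ J₂.1) = ⊥ := by
      rw [h2, ← h, Ideal.map_mul, ← h2, h3]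
    rw [Ideal.map_eq_bot_iff_le_ker] at h4
    have h5 : m ≤ m ^ 2 := by
      rw [hJ₂]
      exact h4
    rw [← pow_two]
    exact le_antisymm (Ideal.pow_le_self two_ne_zero) h5

theorem exists_J (hB : IsTR p A B ev) (m : Ideal B) [hm : m.IsMaximal] :
    ∃ J : {J : Ideal A // Finite (A ⧸ J)}, m = RingHom.ker (ev J) ∧ J.1.IsMaximal := by
  have := hB.fg
  have := finite_quotient_maximal (p := p) m
  obtain ⟨J, hJ⟩ := hB.fin m this
  exact ⟨J, hJ, (isMaximal_iff hB J).1 (hJ ▸ hm)⟩

/-- the localisation of `B` at a maximal ideal is a domain -/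
theorem isDomain_loc (hA : Good p A) (hB : IsTR p A B ev) (m : Ideal B) [hm : m.IsMaximal] :
    IsDomain (Localization.AtPrime m) := by
  have := hB.fg
  have : IsNoetherianRing B := Algebra.FiniteType.isNoetherianRing (ZMod p) B
  obtain ⟨J, hJ, hJmax⟩ := exists_J hB m
  by_cases h : m * m = m
  · have h1 := maximalIdeal_eq_bot hB m h
    have h2 : IsField (Localization.AtPrime m) := by
      by_contra h3
      exact Ring.ne_bot_of_isMaximal_of_not_isField (inferInstance :
        (maximalIdeal (Localization.AtPrime m)).IsMaximal) h3 h1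
    exact h2.isDomain
  · obtain ⟨b, hb, h2⟩ := exists_gen hA hB m
    refine isDomain_of_principal _ (principal_localization m b hb h2)
      (not_nilpotent hA hB J m hJ ?_)
    rcases hA.dich J.1 hJmax with h3 | h3
    · exact absurd ((idem_iff hA hB J hJmax m hJ).2 h3.1) h
    · exact h3

/-- the kernel of `B → B_m` is the only minimal prime in `m` -/
theorem minimal_eq (hA : Good p A) (hB : IsTR p A B ev) (m : Ideal B) [hm : m.IsMaximal]
    (P : Ideal B) (hP : P ∈ minimalPrimes B) (hPm : P ≤ m) :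
    P = RingHom.ker (algebraMap B (Localization.AtPrime m)) := by
  have := isDomain_loc hA hB m
  have h1 : RingHom.ker (algebraMap B (Localization.AtPrime m)) ≤ P := by
    intro b hb
    rw [RingHom.mem_ker, IsLocalization.map_eq_zero_iff m.primeCompl] at hb
    obtain ⟨s, hs⟩ := hb
    have hPp : P.IsPrime := hP.1.1
    have h2 : (s : B) * b ∈ P := by rw [hs]; exact P.zero_mem
    rcases hPp.mem_or_mem h2 with h3 | h3
    · exact absurd (hPm h3) s.2
    · exact h3
  have h2 : (RingHom.ker (algebraMap B (Localization.AtPrime m))).IsPrime := RingHom.ker_isPrime _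
  exact le_antisymm (hP.2 ⟨h2, bot_le⟩ h1) h1

theorem dedekind_quotient (hA : Good p A) (hB : IsTR p A B ev) (P : Ideal B)
    (hP : P ∈ minimalPrimes B) : IsDedekindDomain (B ⧸ P) := by
  have := hB.fg
  have : IsNoetherianRing B := Algebra.FiniteType.isNoetherianRing (ZMod p) B
  have hPp : P.IsPrime := hP.1.1
  have hprin : ∀ n : Ideal (B ⧸ P), [n.IsMaximal] →
      IsDomain (Localization.AtPrime n) → IsPrincipalIdealRing (Localization.AtPrime n) := by
    intro n hn hdom
    set m : Ideal B := n.comap (Ideal.Quotient.mk P) with hm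
    have hmmax : m.IsMaximal := Ideal.comap_isMaximal_of_surjective _ Ideal.Quotient.mk_surjective
    obtain ⟨b, hb, h⟩ := exists_gen hA hB m
    have hmn : m.map (Ideal.Quotient.mk P) = n :=
      Ideal.map_comap_of_surjective _ Ideal.Quotient.mk_surjective n
    have h2 := Ideal.map_mono (f := Ideal.Quotient.mk P) h
    rw [Ideal.map_sup, Ideal.map_pow, hmn, Ideal.map_span, Set.image_singleton] at h2
    have h3 := principal_localization n (Ideal.Quotient.mk P b) hb h2
    exact ((tfae_of_isNoetherianRing_of_isLocalRing_of_isDomain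
      (Localization.AtPrime n)).out 0 4).mpr h3
  have hdom : ∀ n : Ideal (B ⧸ P), [n.IsMaximal] → IsDomain (Localization.AtPrime n) :=
    fun n _ => IsLocalization.isDomain_of_atPrime (Localization.AtPrime n) n
  have hic : IsIntegrallyClosed (B ⧸ P) := by
    refine IsIntegrallyClosed.of_localization_maximal fun n _ hn => ?_
    have := hdom n
    have := hprin n this
    infer_instance
  have hdim : Ring.KrullDimLE 1 (B ⧸ P) := by
    refine Ring.krullDimLE_of_isLocalization_maximal (fun n _ => Localization.AtPrime n) fun n _ => ?_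
    have := hdom n
    have := hprin n this
    infer_instance
  rw [Ring.krullDimLE_one_iff_of_noZeroDivisors] at hdim
  exact { maximalOfPrime := hdim _ }

/-- a minimal prime with field quotient is idempotent -/
theorem idem_of_field (hA : Good p A) (hB : IsTR p A B ev) (P : Ideal B)
    (hP : P ∈ minimalPrimes B) (hf : IsField (B ⧸ P)) :
    ∃ J : {J : Ideal A // Finite (A ⧸ J)}, P = RingHom.ker (ev J) ∧ J.1.IsMaximal ∧
      J.1 * J.1 = J.1 := by
  have hmax : P.IsMaximal := Ideal.Quotient.maximal_of_isField _ hf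
  obtain ⟨J, hJ, hJmax⟩ := exists_J hB P
  refine ⟨J, hJ, hJmax, ?_⟩
  rcases hA.dich J.1 hJmax with h3 | h3
  · exact h3.1
  · exfalso
    have h1 := minimal_eq hA hB P P hP le_rfl
    apply not_nilpotent hA hB J P hJ h3 1
    rw [pow_one, ← Localization.AtPrime.map_eq_maximalIdeal, Ideal.map_eq_bot_iff_le_ker]
    exact h1.le

/-- an idempotent maximal ideal is a minimal prime -/
theorem minimal_of_idem (hA : Good p A) (hB : IsTR p A B ev) (m : Ideal B) [hm : m.IsMaximal]
    (h : m * m = m) : m ∈ minimalPrimes B := by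
  obtain ⟨P, hP, hPm⟩ := Ideal.exists_minimalPrimes_le (I := ⊥) (J := m) bot_le
  have h1 := minimal_eq hA hB m P hP hPm
  have h2 : m ≤ P := by
    rw [h1, ← Ideal.map_eq_bot_iff_le_ker, Localization.AtPrime.map_eq_maximalIdeal]
    exact maximalIdeal_eq_bot hB m h
  rw [le_antisymm h2 hPm]
  exact hP

end TR

theorem decomp {p : ℕ} [Fact p.Prime] {A B : Type} [CommRing A] [Algebra (ZMod p) A]
    [CommRing B] [Algebra (ZMod p) B] (hA : Good p A)
    {ev : ∀ J : {J : Ideal A // Finite (A ⧸ J)}, B →ₐ[ZMod p] A ⧸ J.1} (hB : IsTR p A B ev) :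
    (minimalPrimes B).Finite ∧ (⨅ P ∈ minimalPrimes B, P) = ⊥ ∧
    (∀ P ∈ minimalPrimes B, ∀ P' ∈ minimalPrimes B, P ≠ P' → IsCoprime P P') ∧
    (∀ P ∈ minimalPrimes B, IsDedekindDomain (B ⧸ P) ∧
      (IsField (B ⧸ P) → Nat.card (B ⧸ P) = p)) ∧
    Nat.card {P : Ideal B // P ∈ minimalPrimes B ∧ IsField (B ⧸ P)} = iso A := by
  have := hB.fg
  have : IsNoetherianRing B := Algebra.FiniteType.isNoetherianRing (ZMod p) B
  refine ⟨minimalPrimes.finite_of_isNoetherianRing B, ?_, ?_, ?_, ?_⟩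
  · rw [eq_bot_iff]
    intro b hb
    rw [Ideal.mem_bot]
    refine eq_zero_of_localization b fun m hm => ?_
    obtain ⟨P, hP, hPm⟩ := Ideal.exists_minimalPrimes_le (I := ⊥) (J := m) bot_le
    rw [← RingHom.mem_ker, ← minimal_eq hA hB m P hP hPm]
    simp only [Ideal.mem_iInf] at hb
    exact hb P hP
  · intro P hP P' hP' hne
    rw [Ideal.isCoprime_iff_sup_eq]
    by_contra hcon
    obtain ⟨m, hm, hle⟩ := Ideal.exists_le_maximal _ hcon
    apply hne
    rw [minimal_eq hA hB m P hP (le_sup_left.trans hle),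
      minimal_eq hA hB m P' hP' (le_sup_right.trans hle)]
  · intro P hP
    refine ⟨dedekind_quotient hA hB P hP, fun hf => ?_⟩
    obtain ⟨J, hJ, hJmax, hJi⟩ := idem_of_field hA hB P hP hf
    rcases hA.dich J.1 hJmax with h3 | h3
    · rw [hJ, card_quot hB J]
      exact h3.2
    · exfalso
      apply h3 1
      rw [pow_one, pow_two, hJi]
  · unfold iso
    symm
    have hfin : ∀ M : {M : Ideal A // M.IsMaximal ∧ M * M = M}, Finite (A ⧸ M.1) := by
      intro M
      rcases hA.dich M.1 M.2.1 with h3 | h3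
      · exact Nat.finite_of_card_ne_zero (by
          rw [h3.2]; exact (Fact.out : p.Prime).ne_zero)
      · exfalso
        apply h3 1
        rw [pow_one, pow_two, M.2.2]
    have hmax : ∀ M : {M : Ideal A // M.IsMaximal ∧ M * M = M},
        (RingHom.ker (ev ⟨M.1, hfin M⟩)).IsMaximal := fun M => (isMaximal_iff hB _).2 M.2.1
    refine Nat.card_congr (Equiv.ofBijective (fun M => ⟨RingHom.ker (ev ⟨M.1, hfin M⟩), ?_, ?_⟩)
      ⟨?_, ?_⟩)
    · have := hmax M
      exact minimal_of_idem hA hB _ ((idem_iff hA hB ⟨M.1, hfin M⟩ M.2.1 _ rfl).2 M.2.2)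
    · have := hmax M
      exact (Ideal.Quotient.maximal_ideal_iff_isField_quotient _).1 this
    · intro M M' hMM'
      have h1 := congrArg Subtype.val hMM'
      have h2 := hB.inj _ _ h1
      have h3 : M.1 = M'.1 :=
        congrArg (fun J : {J : Ideal A // Finite (A ⧸ J)} => J.1) h2
      exact Subtype.ext h3
    · rintro ⟨P, hP, hf⟩
      obtain ⟨J, hJ, hJmax, hJi⟩ := idem_of_field hA hB P hP hf
      refine ⟨⟨J.1, hJmax, hJi⟩, ?_⟩
      apply Subtype.ext
      exact hJ.symm

end Pool.Agent.CC
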