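import Pool.Agent.Lib.MP_305fdd_al.PSL.Defs

/-!
# MP_305fdd_al: the free products `C_a * C_b` are profinitely rigid. Definitions.
-/

set_option autoImplicit false

namespace Pool.Agent.CC

open Polynomial Pool.Agent.Lib.MP_305fdd_al
open Pool.Agent.PSL2Z (TreeAct zet)
open scoped WithZero

/-- `Γ` is the free product of `⟨x⟩` of order `a` and `⟨y⟩` of order `b` (in universal form). -/
structure IsCaCb (a b : ℕ) (Γ : Type) [Group Γ] (x y : Γ) : Prop where
  pa : x ^ a = 1
  pb : y ^ b = 1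
  gen : Subgroup.closure ({x, y} : Set Γ) = ⊤
  lift : ∀ (G : Type) [Group G] (g h : G), g ^ a = 1 → h ^ b = 1 →
    ∃ f : Γ →* G, f x = g ∧ f y = h

/-- Two-dimensional pseudo-characters with determinant `δ : G → Fˣ`. -/
structure PChar {F : Type} [Field F] {G : Type} [Group G] (δ : G →* Fˣ) {R : Type} [CommRing R]
    [Algebra F R] (T : G → R) : Prop where
  one : T 1 = 2
  comm : ∀ g h, T (g * h) = T (h * g)
  rel : ∀ g h, T (g * h) + algebraMap F R (δ h : F) * T (g * h⁻¹) = T g * T h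

/-- the numbers `a, b ≥ 2`, the prime `p` and the roots of unity `μ` (of order `a`), `ν` (of
order `b`) of `ZMod p` -/
structure Dat where
  /-- order of `x` -/
  a : ℕ
  /-- order of `y` -/
  b : ℕ
  /-- the characteristic -/
  p : ℕ
  hp : Fact p.Prime
  /-- the determinant of `x` -/
  μ : (ZMod p)ˣ
  /-- the determinant of `y` -/
  ν : (ZMod p)ˣ
  ha : 2 ≤ a
  hb : 2 ≤ b
  hμ : orderOf μ = a
  hν : orderOf ν = b
  hp2 : 5 ≤ p

instance (D : Dat) : Fact D.p.Prime := D.hp

/-- the base field -/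
abbrev Dat.F (D : Dat) : Type := ZMod D.p

section basic

variable {a b : ℕ} {Γ : Type} [Group Γ] {x y : Γ} (h : IsCaCb a b Γ x y)

/-- two homomorphisms from `Γ` which agree on `x` and `y` are equal -/
theorem hom_ext (h : IsCaCb a b Γ x y) {G : Type} [Group G] {f g : Γ →* G} (hx : f x = g x)
    (hy : f y = g y) : f = g := by
  have h1 : (⊤ : Subgroup Γ) ≤ f.eqLocus g := by
    rw [← h.gen, Subgroup.closure_le]
    rintro z (rfl | rfl)
    · exact hx
    · exact hy
  ext z
  exact h1 (Subgroup.mem_top z)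

/-- the homomorphism with given values at `x` and `y` -/
noncomputable def toHom {G : Type} [Group G] (g k : G) (hg : g ^ a = 1) (hk : k ^ b = 1) :
    Γ →* G := (h.lift G g k hg hk).choose

theorem toHom_x {G : Type} [Group G] (g k : G) (hg : g ^ a = 1) (hk : k ^ b = 1) :
    toHom h g k hg hk x = g := (h.lift G g k hg hk).choose_spec.1

theorem toHom_y {G : Type} [Group G] (g k : G) (hg : g ^ a = 1) (hk : k ^ b = 1) :
    toHom h g k hg hk y = k := (h.lift G g k hg hk).choose_spec.2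

end basic

section chars

variable (D : Dat) {Γ : Type} [Group Γ] {x y : Γ} (h : IsCaCb D.a D.b Γ x y)

theorem Dat.μ_pow : D.μ ^ D.a = 1 := by rw [← D.hμ]; exact pow_orderOf_eq_one _
theorem Dat.ν_pow : D.ν ^ D.b = 1 := by rw [← D.hν]; exact pow_orderOf_eq_one _

/-- the determinant `δ(x) = μ`, `δ(y) = ν` -/
noncomputable def del : Γ →* (ZMod D.p)ˣ := toHom h D.μ D.ν D.μ_pow D.ν_pow

/-- `ψ₁(x) = 1`, `ψ₁(y) = ν` -/
noncomputable def psi1 : Γ →* (ZMod D.p)ˣ := toHom h 1 D.ν (one_pow _) D.ν_pow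

/-- `ψ₂(x) = μ`, `ψ₂(y) = 1` -/
noncomputable def psi2 : Γ →* (ZMod D.p)ˣ := toHom h D.μ 1 D.μ_pow (one_pow _)

end chars

/-- `(A, R₀)` is a universal pseudo-character ring of `G` with determinant `δ`, realised by the
representation `R₀`. -/
structure IsUniv {F : Type} [Field F] {G : Type} [Group G] (δ : G →* Fˣ) {A : Type} [CommRing A]
    [Algebra F A] (R₀ : G →* GL (Fin 2) A) : Prop where
  det : ∀ g, (R₀ g).val.det = algebraMap F A (δ g : F)
  gen : Algebra.adjoin F (Set.range fun g => (R₀ g).val.trace) = ⊤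
  univ : ∀ (R : Type) [CommRing R] [Algebra F R] (T : G → R), PChar δ T →
    ∃ f : A →ₐ[F] R, ∀ g, f ((R₀ g).val.trace) = T g

/-- number of the maximal ideals `M` with `M ^ 2 = M` -/
noncomputable def iso (A : Type) [CommRing A] : ℕ :=
  Nat.card {M : Ideal A // M.IsMaximal ∧ M * M = M}

/-- the properties of `A` (a finite product of copies of `F[X]` and of `F`) which we need -/
structure Good (p : ℕ) [Fact p.Prime] (A : Type) [CommRing A] [Algebra (ZMod p) A] : Prop where
  ft : Algebra.FiniteType (ZMod p) A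
  pir : IsPrincipalIdealRing A
  dich : ∀ M : Ideal A, M.IsMaximal → (M * M = M ∧ Nat.card (A ⧸ M) = p) ∨
    ∀ k : ℕ, M ^ k ≠ M ^ (k + 1)
  zeta : zet p A = (1 + PowerSeries.X) ^ iso A

/-- the transported representation of `Λ` modulo an ideal of finite index -/
noncomputable def rep' {Γ Λ : Type} [Group Γ] [Group Λ] (Φ : NatBij Γ Λ) {A : Type} [CommRing A]
    (R₀ : Γ →* GL (Fin 2) A) (J : {J : Ideal A // Finite (A ⧸ J)}) :
    Λ →* GL (Fin 2) (A ⧸ J.1) :=
  haveI : Finite (A ⧸ J.1) := J.2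
  haveI : Finite (GL (Fin 2) (A ⧸ J.1)) := inferInstance
  Φ.toFun _ ((Matrix.GeneralLinearGroup.map (Ideal.Quotient.mk J.1)).comp R₀)

/-- The ring `B` (the trace ring of `Λ`), abstractly: a finitely generated algebra whose ideals
of finite index are exactly the kernels of given surjections onto the rings `A/J`, `J` of finite
index. -/
structure IsTR (p : ℕ) (A B : Type) [CommRing A] [Algebra (ZMod p) A] [CommRing B]
    [Algebra (ZMod p) B]
    (ev : ∀ J : {J : Ideal A // Finite (A ⧸ J)}, B →ₐ[ZMod p] A ⧸ J.1) : Prop where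
  fg : Algebra.FiniteType (ZMod p) B
  surj : ∀ J, Function.Surjective (ev J)
  compat : ∀ (J J' : {J : Ideal A // Finite (A ⧸ J)}) (hJ : J.1 ≤ J'.1) (b : B),
    Ideal.Quotient.factor hJ (ev J b) = ev J' b
  inj : ∀ J J', RingHom.ker (ev J) = RingHom.ker (ev J') → J = J'
  fin : ∀ I : Ideal B, Finite (B ⧸ I) → ∃ J, I = RingHom.ker (ev J)
  sep : ∀ b, (∀ J, ev J b = 0) → b = 0

/-- `(S₀, S₁, o, t)` is a profinite tree (with coefficients `ZMod q` for all primes `q`). -/
structure PTree {S₀ S₁ : Type} [TopologicalSpace S₀] [TopologicalSpace S₁] (o t : S₁ → S₀) :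
    Prop where
  nonempty : Nonempty S₀
  conn : ∀ U : Set S₀, IsClopen U → (∀ e, o e ∈ U ↔ t e ∈ U) → U = ∅ ∨ U = Set.univ
  acyc : ∀ (q : ℕ) [Fact q.Prime] (f : S₁ → ZMod q), IsLocallyConstant f →
    ∃ u : S₀ → ZMod q, IsLocallyConstant u ∧ ∀ e, f e = u (o e) - u (t e)

end Pool.Agent.CC
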