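import Pool.Agent.Lib.MP_305fdd_al.PSL.Defs

/-!
# MP_305fdd_al: homomorphisms extend over a tree of representatives

`Λ` acts on a tree, `Y` is a finite subtree of representatives whose vertex stabilisers generate
`Λ`. Homomorphisms on the vertex stabilisers of `Y` which agree on the edge stabilisers of `Y`
extend to a homomorphism of `Λ` (no Bass-Serre theory is used, only path products in the tree).
-/

set_option autoImplicit false

namespace Pool.Agent.PSL2Z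

/-- the product of `d` along a walk -/
private def wprod {V W : Type} {X : SimpleGraph V} [Group W] (d : V → V → W) :
    ∀ {a b : V}, X.Walk a b → W
  | _, _, .nil => 1
  | _, _, .cons (u := u) (v := v) _ p => d u v * wprod d p

/-- integration on a tree with values in a group -/
theorem exists_potential_group {V W : Type} {X : SimpleGraph V} (hX : X.IsTree) [Group W]
    (d : V → V → W) (hd : ∀ v z, X.Adj v z → d z v = (d v z)⁻¹) :
    ∃ p : V → W, ∀ v z, X.Adj v z → (p v)⁻¹ * p z = d v z := by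
  classical
  obtain ⟨r⟩ := hX.connected.nonempty
  have hu : ∀ {a b : V} (p q : X.Walk a b), p.IsPath → q.IsPath → p = q := by
    intro a b p q hp hq
    have h1 := (SimpleGraph.isAcyclic_iff_subsingleton_path.1 hX.isAcyclic) a b
    have h2 : (⟨p, hp⟩ : X.Path a b) = ⟨q, hq⟩ := Subsingleton.elim _ _
    exact congrArg Subtype.val h2
  have hp : ∀ v, ∃ p : X.Walk v r, p.IsPath := by
    intro v
    obtain ⟨p⟩ := hX.connected.preconnected v r
    exact ⟨p.toPath.1, p.toPath.2⟩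
  choose P hP using hp
  refine ⟨fun v => (wprod d (P v))⁻¹, ?_⟩
  intro v z hvz
  by_cases hv : v ∈ (P z).support
  · have e1 : (P z).takeUntil v hv = SimpleGraph.Walk.cons hvz.symm .nil := by
      apply hu
      · exact (hP z).takeUntil hv
      · simp [SimpleGraph.Walk.cons_isPath_iff, hvz.ne']
    have e2 : (P z).dropUntil v hv = P v := hu _ _ ((hP z).dropUntil hv) (hP v)
    have e3 : P z = SimpleGraph.Walk.cons hvz.symm (P v) := by
      rw [← SimpleGraph.Walk.take_spec (P z) hv, e1, e2]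
      rfl
    show ((wprod d (P v))⁻¹)⁻¹ * (wprod d (P z))⁻¹ = d v z
    rw [e3]
    show ((wprod d (P v))⁻¹)⁻¹ * (d z v * wprod d (P v))⁻¹ = d v z
    rw [hd v z hvz]
    group
  · have e3 : P v = SimpleGraph.Walk.cons hvz (P z) := by
      apply hu _ _ (hP v)
      rw [SimpleGraph.Walk.cons_isPath_iff]
      exact ⟨hP z, hv⟩
    show ((wprod d (P v))⁻¹)⁻¹ * (wprod d (P z))⁻¹ = d v z
    rw [e3]
    show ((d v z * wprod d (P z))⁻¹)⁻¹ * (wprod d (P z))⁻¹ = d v z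
    group

/-- Homomorphisms `φ y` (given on `stab y`, `y ∈ Y`) which agree on the stabilisers of the edges of
the finite subtree `Y` of representatives extend to `Λ`. -/
theorem exists_extend {Λ V W : Type} [Group Λ] [Group W] [MulAction Λ V] {X : SimpleGraph V}
    {ty : V → Bool} (hX : TreeAct Λ V X ty) (Y : Finset V)
    (hY : (X.induce (Y : Set V)).Connected)
    (hY₁ : ∀ u ∈ Y, ∀ v ∈ Y, ∀ g : Λ, g • u = v → u = v)
    (hgen : (⨆ v ∈ Y, MulAction.stabilizer Λ v) = ⊤)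
    (φ : V → Λ → W)
    (hφ : ∀ y ∈ Y, ∀ g ∈ MulAction.stabilizer Λ y, ∀ h ∈ MulAction.stabilizer Λ y,
      φ y (g * h) = φ y g * φ y h)
    (hφ' : ∀ y ∈ Y, ∀ z ∈ Y, X.Adj y z →
      ∀ g ∈ MulAction.stabilizer Λ y ⊓ MulAction.stabilizer Λ z, φ y g = φ z g) :
    ∃ f : Λ →* W, ∀ y ∈ Y, ∀ g ∈ MulAction.stabilizer Λ y, f g = φ y g := by
  classical
  -- representatives
  have hrg : ∀ x : V, ∃ a : V × Λ, (x ∈ Y → a = (x, 1)) ∧
      ((∃ y ∈ Y, ∃ g : Λ, g • y = x) → a.1 ∈ Y ∧ a.2 • a.1 = x) := by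
    intro x
    by_cases h1 : x ∈ Y
    · exact ⟨(x, 1), fun _ => rfl, fun _ => ⟨h1, one_smul _ _⟩⟩
    · by_cases h2 : ∃ y ∈ Y, ∃ g : Λ, g • y = x
      · obtain ⟨y, hy, g, hg⟩ := h2
        exact ⟨(y, g), fun h => absurd h h1, fun _ => ⟨hy, hg⟩⟩
      · exact ⟨(x, 1), fun _ => rfl, fun h => absurd h h2⟩
  choose rg hrg1 hrg2 using hrg
  have hone : ∀ y ∈ Y, φ y 1 = 1 := by
    intro y hy
    have := hφ y hy 1 (one_mem _) 1 (one_mem _)
    rw [mul_one] at this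
    exact (mul_eq_left.1 this.symm)
  have hinv : ∀ y ∈ Y, ∀ g ∈ MulAction.stabilizer Λ y, φ y g⁻¹ = (φ y g)⁻¹ := by
    intro y hy g hg
    have := hφ y hy g hg g⁻¹ (inv_mem hg)
    rw [mul_inv_cancel, hone y hy] at this
    exact (inv_eq_of_mul_eq_one_right this.symm).symm
  -- the representative of a translate
  have hrep : ∀ y ∈ Y, ∀ g : Λ, (rg (g • y)).1 = y ∧
      (rg (g • y)).2 • y = g • y := by
    intro y hy g
    obtain ⟨h1, h2⟩ := hrg2 (g • y) ⟨y, hy, g, rfl⟩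
    have h3 : (rg (g • y)).1 = y := by
      apply hY₁ _ h1 _ hy (g⁻¹ * (rg (g • y)).2)
      rw [mul_smul, h2, inv_smul_smul]
    refine ⟨h3, ?_⟩
    rw [h3] at h2
    exact h2
  have hst : ∀ y ∈ Y, ∀ g : Λ, (rg (g • y)).2⁻¹ * g ∈ MulAction.stabilizer Λ y := by
    intro y hy g
    have h := (hrep y hy g).2
    rw [MulAction.mem_stabilizer_iff, mul_smul]
    calc (rg (g • y)).2⁻¹ • g • y = (rg (g • y)).2⁻¹ • (rg (g • y)).2 • y := by rw [h]
      _ = y := inv_smul_smul _ _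
  -- the transition function
  let E : V → V → Λ → Prop := fun x x' g =>
    ∃ y ∈ Y, ∃ z ∈ Y, X.Adj y z ∧ g • y = x ∧ g • z = x'
  let F : V → V → W := fun x x' => if h : ∃ g, E x x' g then
    φ (rg x).1 ((rg x).2⁻¹ * h.choose) * φ (rg x').1 (h.choose⁻¹ * (rg x').2) else 1
  have hF : ∀ y ∈ Y, ∀ z ∈ Y, X.Adj y z → ∀ g : Λ, F (g • y) (g • z) =
      φ y ((rg (g • y)).2⁻¹ * g) * φ z (g⁻¹ * (rg (g • z)).2) := by
    intro y hy z hz hyz g
    have h : ∃ k, E (g • y) (g • z) k := ⟨g, y, hy, z, hz, hyz, rfl, rfl⟩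
    have e1 : F (g • y) (g • z) = φ (rg (g • y)).1 ((rg (g • y)).2⁻¹ * h.choose) *
        φ (rg (g • z)).1 (h.choose⁻¹ * (rg (g • z)).2) := dif_pos h
    obtain ⟨y', hy', z', hz', hyz', e2, e3⟩ := h.choose_spec
    set k := h.choose with hk
    have e4 : y' = y := hY₁ _ hy' _ hy (g⁻¹ * k) (by rw [mul_smul, e2, inv_smul_smul])
    have e5 : z' = z := hY₁ _ hz' _ hz (g⁻¹ * k) (by rw [mul_smul, e3, inv_smul_smul])
    subst e4
    subst e5
    have m1 : g⁻¹ * k ∈ MulAction.stabilizer Λ y' := by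
      rw [MulAction.mem_stabilizer_iff, mul_smul, e2, inv_smul_smul]
    have m2 : g⁻¹ * k ∈ MulAction.stabilizer Λ z' := by
      rw [MulAction.mem_stabilizer_iff, mul_smul, e3, inv_smul_smul]
    have m3 := hst y' hy g
    have m4 := hst z' hz g
    rw [e1, (hrep y' hy g).1, (hrep z' hz g).1]
    have e6 : (rg (g • y')).2⁻¹ * k = ((rg (g • y')).2⁻¹ * g) * (g⁻¹ * k) := by group
    have e7 : k⁻¹ * (rg (g • z')).2 = (g⁻¹ * k)⁻¹ * (g⁻¹ * (rg (g • z')).2) := by group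
    have m5 : g⁻¹ * (rg (g • z')).2 ∈ MulAction.stabilizer Λ z' := by
      have := inv_mem m4
      rwa [mul_inv_rev, inv_inv] at this
    rw [e6, e7, hφ y' hy _ m3 _ m1, hφ z' hz _ (inv_mem m2) _ m5, hinv z' hz _ m2,
      hφ' y' hy z' hz hyz _ ⟨m1, m2⟩]
    group
  have hFE : ∀ x x', (∃ g, E x x' g) → ∃ g, E x' x g := by
    rintro x x' ⟨g, y, hy, z, hz, hyz, e2, e3⟩
    exact ⟨g, z, hz, y, hy, hyz.symm, e3, e2⟩
  have hFs : ∀ x x', F x' x = (F x x')⁻¹ := by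
    intro x x'
    by_cases h : ∃ g, E x x' g
    · obtain ⟨g, y, hy, z, hz, hyz, e2, e3⟩ := h
      subst e2
      subst e3
      rw [hF y hy z hz hyz g, hF z hz y hy hyz.symm g]
      have m3 := hst y hy g
      have m4 := hst z hz g
      have e6 : g⁻¹ * (rg (g • y)).2 = ((rg (g • y)).2⁻¹ * g)⁻¹ := by group
      have e7 : g⁻¹ * (rg (g • z)).2 = ((rg (g • z)).2⁻¹ * g)⁻¹ := by group
      rw [e6, e7, hinv y hy _ m3, hinv z hz _ m4]
      group
    · have h' : ¬ ∃ g, E x' x g := fun h' => h (hFE _ _ h')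
      have e1 : F x x' = 1 := dif_neg h
      have e2 : F x' x = 1 := dif_neg h'
      rw [e1, e2, inv_one]
  obtain ⟨p, hp⟩ := exists_potential_group hX.tree F (fun v z _ => hFs v z)
  -- the cocycle
  let J : Λ → V → W := fun l x => p (l • x) * φ (rg x).1 ((rg (l • x)).2⁻¹ * l * (rg x).2) * (p x)⁻¹
  have hJ : ∀ l : Λ, ∀ y ∈ Y, ∀ z ∈ Y, X.Adj y z → ∀ g : Λ, J l (g • y) = J l (g • z) := by
    intro l y hy z hz hyz g
    have a1 := hp (g • y) (g • z) (hX.adj g _ _ hyz)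
    have a2 := hp (l • g • y) (l • g • z) (hX.adj l _ _ (hX.adj g _ _ hyz))
    rw [hF y hy z hz hyz g] at a1
    rw [← mul_smul, ← mul_smul, hF y hy z hz hyz (l * g), mul_smul, mul_smul] at a2
    have m1 := hst y hy g
    have m2 := hst z hz g
    have m3 := hst y hy (l * g)
    have m4 := hst z hz (l * g)
    rw [mul_smul] at m3 m4
    have c1 : (rg (l • g • y)).2⁻¹ * l * (rg (g • y)).2 =
        ((rg (l • g • y)).2⁻¹ * (l * g)) * ((rg (g • y)).2⁻¹ * g)⁻¹ := by group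
    have c2 : (rg (l • g • z)).2⁻¹ * l * (rg (g • z)).2 =
        ((rg (l • g • z)).2⁻¹ * (l * g)) * ((rg (g • z)).2⁻¹ * g)⁻¹ := by group
    have c3 : g⁻¹ * (rg (g • z)).2 = ((rg (g • z)).2⁻¹ * g)⁻¹ := by group
    have c4 : (l * g)⁻¹ * (rg (l • g • z)).2 = ((rg (l • g • z)).2⁻¹ * (l * g))⁻¹ := by group
    rw [c3, hinv z hz _ m2] at a1
    rw [c4, hinv z hz _ m4] at a2
    show p (l • g • y) * φ (rg (g • y)).1 ((rg (l • g • y)).2⁻¹ * l * (rg (g • y)).2) *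
      (p (g • y))⁻¹ = p (l • g • z) * φ (rg (g • z)).1
        ((rg (l • g • z)).2⁻¹ * l * (rg (g • z)).2) * (p (g • z))⁻¹
    rw [(hrep y hy g).1, (hrep z hz g).1, c1, c2, hφ y hy _ m3 _ (inv_mem m1),
      hφ z hz _ m4 _ (inv_mem m2), hinv y hy _ m1, hinv z hz _ m2]
    have b1 : p (g • z) = p (g • y) * (φ y ((rg (g • y)).2⁻¹ * g) *
        (φ z ((rg (g • z)).2⁻¹ * g))⁻¹) := by rw [← a1]; group
    have b2 : p (l • g • z) = p (l • g • y) * (φ y ((rg (l • g • y)).2⁻¹ * (l * g)) *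
        (φ z ((rg (l • g • z)).2⁻¹ * (l * g)))⁻¹) := by rw [← a2]; group
    rw [b1, b2]
    group
  -- connectedness along translates of `Y`
  have hconn : ∀ l g : Λ, ∀ y ∈ Y, ∀ z ∈ Y, J l (g • y) = J l (g • z) := by
    intro l g y hy z hz
    obtain ⟨w⟩ := hY.preconnected ⟨y, hy⟩ ⟨z, hz⟩
    have key : ∀ (a b : ((Y : Set V) : Type)), (X.induce (Y : Set V)).Walk a b →
        J l (g • a.1) = J l (g • b.1) := by
      intro a b w
      induction w with
      | nil => rfl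
      | @cons u v t hadj _ ih =>
        exact (hJ l u.1 u.2 v.1 v.2 hadj g).trans ih
    exact key _ _ w
  obtain ⟨⟨x₀, hx₀⟩⟩ := hY.nonempty
  let H : Subgroup Λ :=
    { carrier := {g | ∀ l h : Λ, J l ((h * g) • x₀) = J l (h • x₀)}
      one_mem' := by intro l h; rw [mul_one]
      mul_mem' := by
        intro a b ha hb l h
        rw [← mul_assoc, hb l (h * a), ha l h]
      inv_mem' := by
        intro a ha l h
        have := ha l (h * a⁻¹)
        rw [inv_mul_cancel_right] at this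
        exact this.symm }
  have hH : (⊤ : Subgroup Λ) ≤ H := by
    rw [← hgen]
    refine iSup₂_le ?_
    intro v hv g hg l h
    have hg' : g • v = v := hg
    have e1 := hconn l (h * g) x₀ hx₀ v hv
    have e2 := hconn l h v hv x₀ hx₀
    rw [e1, mul_smul, hg', e2]
  have hall : ∀ l g : Λ, J l (g • x₀) = J l x₀ := by
    intro l g
    have := hH (Subgroup.mem_top g) l 1
    rwa [one_mul, one_smul] at this
  have hY1 : ∀ l : Λ, ∀ y ∈ Y, J l y = J l x₀ := by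
    intro l y hy
    have := hconn l 1 y hy x₀ hx₀
    rwa [one_smul, one_smul] at this
  have hmul : ∀ l m : Λ, J (l * m) x₀ = J l (m • x₀) * J m x₀ := by
    intro l m
    show p ((l * m) • x₀) * φ (rg x₀).1 ((rg ((l * m) • x₀)).2⁻¹ * (l * m) * (rg x₀).2) *
      (p x₀)⁻¹ = p (l • m • x₀) * φ (rg (m • x₀)).1 ((rg (l • m • x₀)).2⁻¹ * l *
        (rg (m • x₀)).2) * (p (m • x₀))⁻¹ * (p (m • x₀) * φ (rg x₀).1
          ((rg (m • x₀)).2⁻¹ * m * (rg x₀).2) * (p x₀)⁻¹)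
    have e0 : rg x₀ = (x₀, 1) := hrg1 x₀ hx₀
    have m1 := hst x₀ hx₀ m
    have m2 := hst x₀ hx₀ (l * m)
    rw [(hrep x₀ hx₀ m).1, e0]
    have c1 : (rg ((l * m) • x₀)).2⁻¹ * (l * m) * (1 : Λ) =
        ((rg (l • m • x₀)).2⁻¹ * l * (rg (m • x₀)).2) * ((rg (m • x₀)).2⁻¹ * m) := by
      rw [mul_smul]; group
    have c2 : (rg (l • m • x₀)).2⁻¹ * l * (rg (m • x₀)).2 =
        ((rg ((l * m) • x₀)).2⁻¹ * (l * m)) * ((rg (m • x₀)).2⁻¹ * m)⁻¹ := by
      rw [mul_smul]; group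
    have m3 : (rg (l • m • x₀)).2⁻¹ * l * (rg (m • x₀)).2 ∈ MulAction.stabilizer Λ x₀ := by
      rw [c2]; exact mul_mem m2 (inv_mem m1)
    show p ((l * m) • x₀) * φ x₀ ((rg ((l * m) • x₀)).2⁻¹ * (l * m) * (1 : Λ)) * (p x₀)⁻¹ =
      p (l • m • x₀) * φ x₀ ((rg (l • m • x₀)).2⁻¹ * l * (rg (m • x₀)).2) * (p (m • x₀))⁻¹ *
        (p (m • x₀) * φ x₀ ((rg (m • x₀)).2⁻¹ * m * (1 : Λ)) * (p x₀)⁻¹)
    rw [c1, hφ x₀ hx₀ _ m3 _ m1, mul_one, mul_smul]
    group
  have hmul' : ∀ l m : Λ, J (l * m) x₀ = J l x₀ * J m x₀ := by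
    intro l m
    rw [hmul, hall]
  -- normalise
  have hpY : ∀ y ∈ Y, p y = p x₀ := by
    intro y hy
    obtain ⟨w⟩ := hY.preconnected ⟨y, hy⟩ ⟨x₀, hx₀⟩
    have key : ∀ (a b : ((Y : Set V) : Type)), (X.induce (Y : Set V)).Walk a b →
        p a.1 = p b.1 := by
      intro a b w
      induction w with
      | nil => rfl
      | @cons u v t hadj _ ih =>
        refine Eq.trans ?_ ih
        have a1 := hp u.1 v.1 hadj
        have a2 := hF u.1 u.2 v.1 v.2 hadj 1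
        rw [one_smul, one_smul, hrg1 u.1 u.2, hrg1 v.1 v.2] at a2
        simp only [inv_one, mul_one] at a2
        rw [hone u.1 u.2, hone v.1 v.2, mul_one] at a2
        rw [a2] at a1
        exact (inv_mul_eq_one.1 a1)
    exact key _ _ w
  let f : Λ →* W := MonoidHom.mk' (fun l => (p x₀)⁻¹ * J l x₀ * p x₀) (by
    intro l m
    show (p x₀)⁻¹ * J (l * m) x₀ * p x₀ =
      (p x₀)⁻¹ * J l x₀ * p x₀ * ((p x₀)⁻¹ * J m x₀ * p x₀)
    rw [hmul']
    group)
  refine ⟨f, ?_⟩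
  intro y hy g hg
  have hg' : g • y = y := hg
  show (p x₀)⁻¹ * J g x₀ * p x₀ = φ y g
  rw [← hY1 g y hy]
  show (p x₀)⁻¹ * (p (g • y) * φ (rg y).1 ((rg (g • y)).2⁻¹ * g * (rg y).2) * (p y)⁻¹) * p x₀ =
    φ y g
  have e0 : rg y = (y, 1) := hrg1 y hy
  rw [hg', e0, hpY y hy]
  show (p x₀)⁻¹ * (p x₀ * φ y ((1 : Λ)⁻¹ * g * (1 : Λ)) * (p x₀)⁻¹) * p x₀ = φ y g
  rw [inv_one, one_mul, mul_one]
  group

end Pool.Agent.PSL2Z
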