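import Pool.Agent.Lib.MP_305fdd_al.PSL.FieldRep
import Pool.Agent.Lib.MP_305fdd_al.CC.Defs

/-!
# Q8: a representation over a field with a discrete valuation (general determinant)

A two-dimensional representation over a big field `Ω` whose traces and determinants lie in a
subfield `K` with a discrete valuation `v` (the determinants being units) is conjugate to a
representation over a field `L` of degree at most two over `K`, and `v` extends to `L`.
-/

set_option autoImplicit false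

namespace Pool.Agent.CC

open Polynomial Pool.Agent.Lib.MP_305fdd_al
open scoped WithZero
open Pool.Agent.PSL2Z.FieldRep

namespace FieldRep

/-- the main step over an algebraically closed field -/
theorem main_step {Λ K Ω : Type} [Group Λ] [Field K] [Field Ω] [IsAlgClosed Ω] [Algebra K Ω]
    (h2 : (2 : K) ≠ 0) (v : Valuation K ℤᵐ⁰) (hv : Function.Surjective v)
    (R₁ : Λ →* GL (Fin 2) Ω) (δ : Λ →* Kˣ) (hδ : ∀ g, v (δ g : K) = 1)
    (hdet : ∀ g, (R₁ g).val.det = algebraMap K Ω (δ g : K))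
    (T : Λ → K) (hT : ∀ g, (R₁ g).val.trace = algebraMap K Ω (T g))
    (l₀ : Λ) (hl₀ : 1 < v (T l₀)) (g₀ h₀ : Λ) (hgh : T (g₀ * h₀ * g₀⁻¹ * h₀⁻¹) ≠ 2) :
    ∃ (L : Type) (_ : Field L) (_ : Algebra K L) (w : Valuation L ℤᵐ⁰) (ρ : Λ →* GL (Fin 2) L),
      Function.Surjective w ∧ (∀ z : K, w (algebraMap K L z) ≤ 1 → v z ≤ 1) ∧
      (∀ g, (ρ g).val.trace = algebraMap K L (T g)) ∧
      (∀ g, (ρ g).val.det = algebraMap K L (δ g : K)) := by
  set d : K := T l₀ ^ 2 - 4 * (δ l₀ : K) with hd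
  have hd0 : d ≠ 0 := by
    intro h0
    have h1 : T l₀ ^ 2 = (1 + 1) * (1 + 1) * (δ l₀ : K) := by
      linear_combination h0
    have h3 : v (1 + 1 : K) ≤ 1 := by
      refine (v.map_add 1 1).trans ?_
      simp
    have h5 : v (T l₀) ^ 2 ≤ 1 := by
      rw [← map_pow, h1, map_mul, map_mul, hδ, mul_one]
      exact mul_le_one' h3 h3
    have h6 : 1 < v (T l₀) ^ 2 := one_lt_pow₀ hl₀ (by norm_num)
    exact absurd h5 (not_le.mpr h6)
  obtain ⟨s, hs⟩ := IsAlgClosed.exists_pow_nat_eq (algebraMap K Ω d) (n := 2) (by norm_num)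
  have hs0 : s ≠ 0 := by
    rintro rfl
    rw [zero_pow (by norm_num)] at hs
    exact hd0 ((map_eq_zero_iff _ (algebraMap K Ω).injective).mp hs.symm)
  obtain ⟨hfin, hsep⟩ := quad_ext h2 d hd0 s hs
  obtain ⟨w, hw, hw'⟩ := exists_valuation_extension (L := IntermediateField.adjoin K {s}) v hv
  obtain ⟨R, hRL, htr, hdt, -⟩ := conj_entries h2 R₁ (δ l₀ : K) l₀ T hT
    (hdet l₀) s hs hs0 g₀ h₀ hgh (IntermediateField.adjoin K {s})
    (IntermediateField.mem_adjoin_simple_self K s)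
  obtain ⟨ρ, hρ⟩ := descend (IntermediateField.adjoin K {s}) R hRL
  have hent : ∀ g i j, algebraMap (IntermediateField.adjoin K {s}) Ω ((ρ g).val i j) =
      (R g).val i j := by
    intro g i j
    rw [← hρ]
    rfl
  have hinj : Function.Injective (algebraMap (IntermediateField.adjoin K {s}) Ω) :=
    (algebraMap (IntermediateField.adjoin K {s}) Ω).injective
  refine ⟨IntermediateField.adjoin K {s}, inferInstance, inferInstance, w, ρ, hw, hw', ?_, ?_⟩
  · intro g
    apply hinj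
    rw [Matrix.trace_fin_two, map_add, hent, hent, ← Matrix.trace_fin_two, htr, hT]
    rfl
  · intro g
    apply hinj
    rw [Matrix.det_fin_two, _root_.map_sub, map_mul, map_mul, hent, hent, hent, hent,
      ← Matrix.det_fin_two, hdt, hdet]
    rfl

end FieldRep

theorem exists_fieldRep {Λ K Ω : Type} [Group Λ] [Field K] [Field Ω] [Algebra K Ω]
    (h2 : (2 : K) ≠ 0) (v : Valuation K ℤᵐ⁰) (hv : Function.Surjective v)
    (ρ₀ : Λ →* GL (Fin 2) Ω) (δ : Λ →* Kˣ) (hδ : ∀ g, v (δ g : K) = 1)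
    (hdet : ∀ g, (ρ₀ g).val.det = algebraMap K Ω (δ g : K))
    (T : Λ → K) (hT : ∀ g, (ρ₀ g).val.trace = algebraMap K Ω (T g))
    (l₀ : Λ) (hl₀ : 1 < v (T l₀)) (g₀ h₀ : Λ) (hgh : T (g₀ * h₀ * g₀⁻¹ * h₀⁻¹) ≠ 2) :
    ∃ (L : Type) (_ : Field L) (_ : Algebra K L) (w : Valuation L ℤᵐ⁰) (ρ : Λ →* GL (Fin 2) L),
      Function.Surjective w ∧ (∀ z : K, w (algebraMap K L z) ≤ 1 → v z ≤ 1) ∧
      (∀ g, (ρ g).val.trace = algebraMap K L (T g)) ∧
      (∀ g, (ρ g).val.det = algebraMap K L (δ g : K)) := by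
  refine FieldRep.main_step (Ω := AlgebraicClosure Ω) h2 v hv
    ((Matrix.GeneralLinearGroup.map (algebraMap Ω (AlgebraicClosure Ω))).comp ρ₀) δ hδ
    ?_ T ?_ l₀ hl₀ g₀ h₀ hgh
  · intro g
    have h1 : (((Matrix.GeneralLinearGroup.map (algebraMap Ω (AlgebraicClosure Ω))).comp ρ₀)
      g).val.det = algebraMap Ω (AlgebraicClosure Ω) (ρ₀ g).val.det := by
      rw [Matrix.det_fin_two, Matrix.det_fin_two, _root_.map_sub, map_mul, map_mul]
      rfl
    rw [h1, hdet]
    exact (IsScalarTower.algebraMap_apply K Ω (AlgebraicClosure Ω) (δ g : K)).symm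
  · intro g
    have h1 : (((Matrix.GeneralLinearGroup.map (algebraMap Ω (AlgebraicClosure Ω))).comp ρ₀)
      g).val.trace = algebraMap Ω (AlgebraicClosure Ω) (ρ₀ g).val.trace := by
      rw [Matrix.trace_fin_two, Matrix.trace_fin_two, map_add]
      rfl
    rw [h1, hT]
    exact (IsScalarTower.algebraMap_apply K Ω (AlgebraicClosure Ω) (T g)).symm

end Pool.Agent.CC
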