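import Pool.Agent.Lib.MP_305fdd_al.CC.FundDef
import Pool.Agent.Lib.MP_305fdd_al.PSL.Transversal

/-!
# MP_305fdd_al, piece Q10: fundamental trees
-/

set_option autoImplicit false

namespace Pool.Agent.CC

open Pool.Agent.Lib.MP_305fdd_al
open Pool.Agent.PSL2Z (TreeAct Z1 Fix edges cocycle_ineq)
open Pool.Agent.PSL2Z.Transv

/-- an invariant subtree with finitely many orbits -/
theorem exists_cocompact_tree {Λ V : Type} [Group Λ] [Group.FG Λ] [MulAction Λ V]
    {X : SimpleGraph V} {ty : V → Bool} (hX : TreeAct Λ V X ty) [Nonempty V] :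
    ∃ (V' : Type) (_ : MulAction Λ V') (X' : SimpleGraph V') (ty' : V' → Bool) (j : V' → V)
      (Y₀ : Finset V'), Nonempty V' ∧ TreeAct Λ V' X' ty' ∧
      (∀ (g : Λ) (v : V'), j (g • v) = g • j v) ∧ ∀ v, ∃ y ∈ Y₀, ∃ g : Λ, g • y = v := by
  classical
  obtain ⟨v₀⟩ := ‹Nonempty V›
  obtain ⟨Y₀, V₁, hv₀, hinv, hconn, hY₀⟩ := exists_cocompact (Λ := Λ) hX.tree.1 hX.adj v₀
  let act : MulAction Λ V₁ :=
    { smul := fun g v => ⟨g • v.1, hinv g v.1 v.2⟩
      one_smul := fun v => Subtype.ext (one_smul Λ v.1)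
      mul_smul := fun g h v => Subtype.ext (mul_smul g h v.1) }
  refine ⟨V₁, act, X.induce V₁, fun v => ty v.1, Subtype.val,
    (Y₀.filter fun y => y ∈ V₁).attach.image fun y => ⟨y.1, (Finset.mem_filter.1 y.2).2⟩,
    ⟨⟨v₀, hv₀⟩⟩, ?_, fun g v => rfl, ?_⟩
  · exact
      { tree := ⟨hconn, hX.tree.2.induce V₁⟩
        adj := fun g v z hvz => hX.adj g _ _ hvz
        ty_smul := fun g v => hX.ty_smul g v.1
        ty_adj := fun v z hvz => hX.ty_adj _ _ hvz }
  · intro v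
    obtain ⟨y, hy, g, hg⟩ := hY₀ v.1 v.2
    have hyV : y ∈ V₁ := by
      have h1 := hinv g⁻¹ v.1 v.2
      rwa [← hg, inv_smul_smul] at h1
    refine ⟨⟨y, hyV⟩, ?_, g, Subtype.ext hg⟩
    rw [Finset.mem_image]
    exact ⟨⟨y, Finset.mem_filter.2 ⟨hy, hyV⟩⟩, Finset.mem_attach _ _, rfl⟩

/-- every edge is a translate of an edge of the transversal -/
theorem edge_translate' {Λ V : Type} [Group Λ] [Group.FG Λ] [MulAction Λ V] {X : SimpleGraph V}
    {ty : V → Bool} (hX : TreeAct Λ V X ty) (r : ℕ) [Fact r.Prime]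
    (hr : ∀ f : Λ →* Multiplicative (ZMod r), f = 1) {Y : Finset V}
    (hYc : (X.induce (Y : Set V)).Connected)
    (hY₁ : ∀ u ∈ Y, ∀ v ∈ Y, ∀ g : Λ, g • u = v → u = v)
    (hY₂ : ∀ v, ∃ y ∈ Y, ∃ g : Λ, g • y = v) (a b : V)
    (hab : X.Adj a b) (hta : ty a = true) :
    ∃ e ∈ edges X ty Y, ∃ g : Λ, g • e.1 = a ∧ g • e.2 = b := by
  classical
  by_contra hcon
  push Not at hcon
  have hrp : r.Prime := Fact.out
  let _ : DistribMulAction Λ (ZMod r) :=
    { smul := fun _ m => m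
      one_smul := fun _ => rfl
      mul_smul := fun _ _ _ => rfl
      smul_zero := fun _ => rfl
      smul_add := fun _ _ _ => rfl }
  have hact : ∀ (g : Λ) (m : ZMod r), g • m = m := fun _ _ => rfl
  set E : Finset (V × V) := insert (a, b) (edges X ty Y) with hEdef
  have hedge : ∀ e ∈ edges X ty Y, (e.1 ∈ Y ∧ e.2 ∈ Y) ∧ X.Adj e.1 e.2 ∧ ty e.1 = true := by
    intro e he
    unfold edges at he
    rw [Finset.mem_filter, Finset.mem_product] at he
    exact he
  have hE : ∀ e ∈ E, X.Adj e.1 e.2 ∧ ty e.1 = true := by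
    intro e he
    rcases Finset.mem_insert.1 he with rfl | he
    · exact ⟨hab, hta⟩
    · exact (hedge e he).2
  have hE' : ∀ e ∈ E, ∀ e' ∈ E, ∀ g : Λ, g • e.1 = e'.1 → g • e.2 = e'.2 → e = e' := by
    intro e he e' he' g h1 h2
    rcases Finset.mem_insert.1 he with rfl | he <;> rcases Finset.mem_insert.1 he' with rfl | he'
    · rfl
    · exfalso
      refine hcon e' he' g⁻¹ ?_ ?_
      · rw [← h1, inv_smul_smul]
      · rw [← h2, inv_smul_smul]
    · exact absurd h2 (hcon e he g h1)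
    · exact Prod.ext (hY₁ _ (hedge e he).1.1 _ (hedge e' he').1.1 g h1)
        (hY₁ _ (hedge e he).1.2 _ (hedge e' he').1.2 g h2)
  have hnot : (a, b) ∉ edges X ty Y := by
    intro h
    exact hcon _ h 1 (one_smul _ _) (one_smul _ _)
  have key := cocycle_ineq (M := ZMod r) hX Y hY₂ E hE hE'
  have hFix : ∀ H : Subgroup Λ, Nat.card (Fix H (ZMod r)) = r := by
    intro H
    have h1 : Nat.card (Fix H (ZMod r)) = Nat.card (ZMod r) := by
      refine Nat.card_congr ⟨Subtype.val, fun m => ⟨m, fun g _ => hact g m⟩, ?_, ?_⟩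
      · intro m; rfl
      · intro m; rfl
    rw [h1, Nat.card_zmod]
  have hZ : Nat.card (Z1 Λ (ZMod r)) ≤ 1 := by
    have : Subsingleton (Z1 Λ (ZMod r)) := by
      refine ⟨?_⟩
      have h0 : ∀ z : Z1 Λ (ZMod r), ∀ g, z.1 g = 0 := by
        intro z g
        have hz : ∀ g h, z.1 (g * h) = z.1 g + z.1 h := fun g h => z.2 g h
        let f : Λ →* Multiplicative (ZMod r) := MonoidHom.mk' (fun g => Multiplicative.ofAdd (z.1 g))
          (fun g h => by rw [hz, ofAdd_add])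
        have hf := hr f
        have h1 : f g = 1 := by rw [hf]; rfl
        exact Multiplicative.ofAdd.injective h1
      intro z z'
      apply Subtype.ext
      funext g
      rw [h0, h0]
    exact Finite.card_le_one_iff_subsingleton.2 this
  have hcard : Y.card + 1 ≤ E.card + 1 := by
    have h1 := card_le_edges hX.ty_adj Y hYc
    rw [hEdef, Finset.card_insert_of_notMem hnot]
    omega
  simp only [hFix, Finset.prod_const, Nat.card_zmod] at key
  have h2 : Nat.card (Z1 Λ (ZMod r)) * r ^ Y.card ≤ r ^ Y.card := by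
    calc Nat.card (Z1 Λ (ZMod r)) * r ^ Y.card ≤ 1 * r ^ Y.card := Nat.mul_le_mul_right _ hZ
      _ = r ^ Y.card := one_mul _
  have h3 : r ^ Y.card ≤ r ^ E.card := Nat.pow_le_pow_right hrp.pos (by omega)
  have h4 : 0 < r ^ E.card := pow_pos hrp.pos _
  have h5 : r * r ^ E.card ≤ r ^ E.card := key.trans (h2.trans h3)
  have h6 : 2 * r ^ E.card ≤ r * r ^ E.card := Nat.mul_le_mul_right _ hrp.two_le
  omega

/-- Q10 -/
theorem exists_fund {Λ V : Type} [Group Λ] [Group.FG Λ] [MulAction Λ V] {X : SimpleGraph V}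
    {ty : V → Bool} (hX : TreeAct Λ V X ty) [Nonempty V] (Y₀ : Finset V)
    (hY₀ : ∀ v, ∃ y ∈ Y₀, ∃ g : Λ, g • y = v) (r : ℕ) [Fact r.Prime]
    (hr : ∀ f : Λ →* Multiplicative (ZMod r), f = 1) :
    ∃ Y : Finset V, Fund (Λ := Λ) X Y := by
  classical
  obtain ⟨v₀⟩ := ‹Nonempty V›
  have hconn : (X.induce (Set.univ : Set V)).Connected := by
    refine connected_of_base (a := v₀) (Set.mem_univ _) ?_
    intro b _
    obtain ⟨Y, _, hbY, h⟩ := exists_finite_conn hX.tree.1 v₀ {b}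
    exact rtg_mono (Set.subset_univ _) (h b (hbY (Finset.mem_singleton_self b)))
  obtain ⟨Y, hYne, _, hYc, hY₁, hY₂⟩ := exists_maximal (Λ := Λ) (V₁ := Set.univ) (Y₀ := Y₀)
    (v₀ := v₀) hX.adj (Set.mem_univ _) (fun _ _ _ => Set.mem_univ _) hconn (fun v _ => hY₀ v)
  have hcover : ∀ v, ∃ y ∈ Y, ∃ g : Λ, g • y = v := fun v => hY₂ v (Set.mem_univ v)
  have hmem : ∀ e ∈ edges X ty Y, e.1 ∈ Y ∧ e.2 ∈ Y ∧ X.Adj e.1 e.2 := by
    intro e he
    unfold edges at he
    rw [Finset.mem_filter, Finset.mem_product] at he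
    exact ⟨he.1.1, he.1.2, he.2.1⟩
  refine ⟨Y, ⟨hYne, hYc, hY₁, hcover, ?_⟩⟩
  intro u v huv
  cases htu : ty u with
  | true =>
    obtain ⟨e, he, g, h1, h2⟩ := edge_translate' hX r hr hYc hY₁ hcover u v huv htu
    obtain ⟨h3, h4, h5⟩ := hmem e he
    exact ⟨e.1, h3, e.2, h4, h5, g, h1, h2⟩
  | false =>
    have htv : ty v = true := by
      have := hX.ty_adj _ _ huv
      rw [htu] at this
      simpa using this.symm
    obtain ⟨e, he, g, h1, h2⟩ := edge_translate' hX r hr hYc hY₁ hcover v u huv.symm htv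
    obtain ⟨h3, h4, h5⟩ := hmem e he
    exact ⟨e.2, h4, e.1, h3, h5.symm, g, h2, h1⟩

end Pool.Agent.CC
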