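import Pool.Agent.Lib.MP_305fdd_al.CC.Defs

/-!
# MP_305fdd_al: the free products `C_a * C_b` are profinitely rigid. Fundamental trees.
-/

set_option autoImplicit false

namespace Pool.Agent.CC

/-- a finite tree of representatives -/
structure Fund {Λ V : Type} [Group Λ] [MulAction Λ V] (X : SimpleGraph V) (Y : Finset V) :
    Prop where
  nonempty : Y.Nonempty
  conn : (X.induce (Y : Set V)).Connected
  ineq : ∀ u ∈ Y, ∀ v ∈ Y, ∀ g : Λ, g • u = v → u = v
  cover : ∀ v, ∃ y ∈ Y, ∃ g : Λ, g • y = v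
  edge : ∀ u v, X.Adj u v → ∃ y ∈ Y, ∃ z ∈ Y, X.Adj y z ∧ ∃ g : Λ, g • y = u ∧ g • z = v

end Pool.Agent.CC
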