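import Pool.Agent.Lib.MP_305fdd_al.CC.Defs
import Pool.Agent.Lib.MP_305fdd_al.CC.FundDef
import Pool.Agent.Lib.MP_305fdd_al.CC.Extend

/-!
# MP_305fdd_al, piece Q11: homomorphisms extend over the tree
-/

set_option autoImplicit false

namespace Pool.Agent.CC

open Pool.Agent.PSL2Z (TreeAct)

/-- the stabilisers of the vertices of a fundamental tree generate the group -/
theorem Fund.iSup_stab {Λ V : Type} [Group Λ] [MulAction Λ V] {X : SimpleGraph V}
    {ty : V → Bool} (hX : TreeAct Λ V X ty) (Y : Finset V) (hY : Fund (Λ := Λ) X Y) :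
    (⨆ v ∈ Y, MulAction.stabilizer Λ v) = ⊤ := by
  set H : Subgroup Λ := ⨆ v ∈ Y, MulAction.stabilizer Λ v with hH
  have hst : ∀ v ∈ Y, ∀ g : Λ, g • v = v → g ∈ H := by
    intro v hv g hg
    exact (le_iSup₂_of_le v hv le_rfl : MulAction.stabilizer Λ v ≤ H) hg
  have key : ∀ (v w : V), X.Walk v w → (∃ h ∈ H, ∃ y ∈ Y, h • y = v) →
      ∃ h ∈ H, ∃ y ∈ Y, h • y = w := by
    intro v w p
    induction p with
    | nil => exact id
    | @cons u v t hadj _ ih =>
      rintro ⟨h, hh, y, hy, rfl⟩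
      apply ih
      obtain ⟨y', hy', z', hz', hyz, g, hg1, hg2⟩ := hY.edge _ _ hadj
      have e1 : y' = y := hY.ineq _ hy' _ hy (h⁻¹ * g) (by rw [mul_smul, hg1, inv_smul_smul])
      subst e1
      refine ⟨g, ?_, z', hz', hg2⟩
      have h1 : h⁻¹ * g ∈ H := hst y' hy' _ (by rw [mul_smul, hg1, inv_smul_smul])
      have h2 := mul_mem hh h1
      rwa [mul_inv_cancel_left] at h2
  obtain ⟨y₀, hy₀⟩ := hY.nonempty
  rw [eq_top_iff]
  intro g _
  obtain ⟨p⟩ := hX.tree.connected.preconnected y₀ (g • y₀)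
  obtain ⟨h, hh, y, hy, hy'⟩ := key _ _ p ⟨1, one_mem _, y₀, hy₀, one_smul _ _⟩
  have e1 : y = y₀ := hY.ineq _ hy _ hy₀ (g⁻¹ * h) (by rw [mul_smul, hy', inv_smul_smul])
  subst e1
  have h1 : h⁻¹ * g ∈ H := hst y hy _ (by rw [mul_smul, ← hy', inv_smul_smul])
  have h2 := mul_mem hh h1
  rwa [mul_inv_cancel_left] at h2

/-- Homomorphisms `φ y` on the stabilisers of the vertices of the fundamental tree `Y` which agree
on the stabilisers of the edges of `Y` extend to a homomorphism of `Λ`. -/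
theorem exists_hom_ext {Λ V W : Type} [Group Λ] [Group W] [MulAction Λ V] {X : SimpleGraph V}
    {ty : V → Bool} (hX : TreeAct Λ V X ty) (Y : Finset V) (hY : Fund (Λ := Λ) X Y)
    (φ : V → Λ →* W)
    (hφ : ∀ y ∈ Y, ∀ z ∈ Y, X.Adj y z → ∀ g : Λ, g • y = y → g • z = z → φ y g = φ z g) :
    ∃ f : Λ →* W, ∀ y ∈ Y, ∀ g : Λ, g • y = y → f g = φ y g := by
  obtain ⟨f, hf⟩ := Pool.Agent.PSL2Z.exists_extend hX Y hY.conn hY.ineq
    (Fund.iSup_stab hX Y hY) (fun y => φ y) (fun y _ g _ h _ => map_mul (φ y) g h)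
    (fun y hy z hz hyz g hg => hφ y hy z hz hyz g hg.1 hg.2)
  exact ⟨f, fun y hy g hg => hf y hy g hg⟩

end Pool.Agent.CC
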