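import Pool.Agent.Lib.MP_305fdd_al.CC.Defs

/-!
# Finiteness of the ring generated by a pseudo-character
-/

set_option autoImplicit false

namespace Pool.Agent.CC

namespace PCharFin

variable {F : Type} [Field F] {G : Type} [Group G] {δ : G →* Fˣ} {R : Type} [CommRing R]
  [Algebra F R] {T : G → R}

/-- the determinant in `R` -/
abbrev dt (R : Type) [CommRing R] [Algebra F R] (u : Fˣ) : R := algebraMap F R (u : F)

lemma dt_mul (u v : Fˣ) : dt R (u * v) = dt R u * dt R v := by
  unfold dt; rw [Units.val_mul, map_mul]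

lemma dt_inv_mul (u : Fˣ) : dt R u⁻¹ * dt R u = 1 := by
  rw [← dt_mul, inv_mul_cancel]; unfold dt; rw [Units.val_one, map_one]

lemma tri (hT : PChar δ T) (g h k : G) :
    T (g * h * k) + T (h * g * k) =
      T g * T (h * k) + T h * T (g * k) + (T (g * h) - T g * T h) * T k := by
  have e1 : T (g * h * k) + dt R (δ k) * T (g * h * k⁻¹) = T (g * h) * T k := hT.rel (g * h) k
  have e2 : T (g * (h * k⁻¹)) + dt R (δ (h * k⁻¹)) * T (g * (h * k⁻¹)⁻¹) =
    T g * T (h * k⁻¹) := hT.rel g (h * k⁻¹)
  have e3 : T (g * k * h) + dt R (δ h) * T (g * k * h⁻¹) = T (g * k) * T h := hT.rel (g * k) h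
  have e4 : T (h * k) + dt R (δ k) * T (h * k⁻¹) = T h * T k := hT.rel h k
  have s1 := dt_inv_mul (R := R) (δ k)
  have a1 : g * h * k⁻¹ = g * (h * k⁻¹) := mul_assoc _ _ _
  have a2 : g * (h * k⁻¹)⁻¹ = g * k * h⁻¹ := by group
  have a3 : T (g * k * h) = T (h * g * k) := by rw [hT.comm, ← mul_assoc]
  rw [a1] at e1
  rw [a2] at e2
  rw [a3] at e3
  have a4 : dt R (δ (h * k⁻¹)) = dt R (δ h) * dt R (δ k)⁻¹ := by
    rw [map_mul, map_inv, dt_mul]
  rw [a4] at e2
  linear_combination e1 - dt R (δ k) * e2 + e3 - T g * e4 +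
    dt R (δ h) * T (g * k * h⁻¹) * s1

/-- the ordered products -/
def words : List G → List G
  | [] => [1]
  | a :: l => words l ++ (words l).map (fun w => a * w)

lemma one_mem_words (l : List G) : (1 : G) ∈ words l := by
  induction l with
  | nil => simp [words]
  | cons a l ih => simp [words, ih]

/-- the translates of `T` -/
def tr (T : G → R) (g : G) : G → R := fun k => T (g * k)

/-- right translation as a linear map -/
def rt (B : Subring R) (s : G) : (G → R) →ₗ[B] (G → R) where
  toFun f := fun k => f (k * s)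
  map_add' _ _ := rfl
  map_smul' _ _ := rfl

lemma rt_tr (hT : PChar δ T) (B : Subring R) (s g : G) : rt B s (tr T g) = tr T (s * g) := by
  funext k
  show T (g * (k * s)) = T (s * g * k)
  rw [← mul_assoc, hT.comm, mul_assoc s g k]

/-- the span -/
def Sp (B : Subring R) (T : G → R) (l : List G) : Submodule B (G → R) :=
  Submodule.span B ((tr T) '' {w | w ∈ words l})

lemma tr_mem_Sp (B : Subring R) {l : List G} {w : G} (hw : w ∈ words l) : tr T w ∈ Sp B T l :=
  Submodule.subset_span ⟨w, hw, rfl⟩

lemma Sp_mono (B : Subring R) (a : G) (l : List G) : Sp B T l ≤ Sp B T (a :: l) := by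
  apply Submodule.span_mono
  rintro _ ⟨w, hw, rfl⟩
  refine ⟨w, ?_, rfl⟩
  simp only [Set.mem_ofPred_eq] at hw ⊢
  simp [words, hw]

lemma rt_mem (hT : PChar δ T) (B : Subring R) (a : G) (l : List G) {f : G → R} (hf : f ∈ Sp B T l) :
    rt B a f ∈ Sp B T (a :: l) := by
  unfold Sp at hf
  induction hf using Submodule.span_induction with
  | mem x hx =>
    obtain ⟨w, hw, rfl⟩ := hx
    rw [rt_tr hT]
    apply tr_mem_Sp
    simp only [Set.mem_ofPred_eq] at hw
    simp [words, hw]
  | zero => rw [map_zero]; exact Submodule.zero_mem _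
  | add x y _ _ hx hy => rw [map_add]; exact Submodule.add_mem _ hx hy
  | smul c x _ hx => rw [map_smul]; exact Submodule.smul_mem _ _ hx

lemma smul_mem' (B : Subring R) {l : List G} {c : R} (hc : c ∈ B) {f : G → R} (hf : f ∈ Sp B T l) :
    (fun k => c * f k) ∈ Sp B T l :=
  Submodule.smul_mem _ (⟨c, hc⟩ : B) hf

lemma step (hT : PChar δ T) (B : Subring R) (hFB : ∀ u : Fˣ, dt R u ∈ B) : ∀ l : List G, (∀ s ∈ l, T s ∈ B) →
    (∀ s ∈ l, ∀ s' ∈ l, T (s * s') ∈ B) → ∀ s ∈ l, ∀ w ∈ words l, tr T (s * w) ∈ Sp B T l := by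
  intro l
  induction l with
  | nil => intro _ _ s hs; simp at hs
  | cons a l ih =>
    intro h1 h2 s hs w hw
    have h1' : ∀ s ∈ l, T s ∈ B := fun s hs => h1 s (List.mem_cons_of_mem _ hs)
    have h2' : ∀ s ∈ l, ∀ s' ∈ l, T (s * s') ∈ B := fun s hs s' hs' =>
      h2 s (List.mem_cons_of_mem _ hs) s' (List.mem_cons_of_mem _ hs')
    have ih' := ih h1' h2'
    have ha : T a ∈ B := h1 a List.mem_cons_self
    rw [List.mem_cons] at hs
    simp only [words, List.mem_append, List.mem_map] at hw
    rcases hs with rfl | hs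
    · rcases hw with hw | ⟨w', hw', rfl⟩
      · apply tr_mem_Sp
        simp [words, hw]
      · -- T(a a w' k) = T(a) T(a w' k) - δ(a) T(w' k)
        have e : tr T (s * (s * w')) = (fun k => T s * tr T (s * w') k) +
            (fun k => (-(dt R (δ s))) * tr T w' k) := by
          funext k
          have : T (s * w' * k * s) + dt R (δ s) * T (s * w' * k * s⁻¹) =
            T (s * w' * k) * T s := hT.rel (s * w' * k) s
          have b1 : T (s * w' * k * s) = T (s * (s * w') * k) := by
            rw [hT.comm]; congr 1; group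
          have b2 : T (s * w' * k * s⁻¹) = T (w' * k) := by
            rw [hT.comm]; congr 1; group
          rw [b1, b2] at this
          show T (s * (s * w') * k) = T s * T (s * w' * k) + (-(dt R (δ s))) * T (w' * k)
          linear_combination this
        rw [e]
        apply Submodule.add_mem
        · apply smul_mem' B ha
          apply tr_mem_Sp
          simp only [words, List.mem_append, List.mem_map]
          exact Or.inr ⟨w', hw', rfl⟩
        · apply smul_mem' B (B.neg_mem (hFB _))
          exact Sp_mono B s l (tr_mem_Sp B hw')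
    · rcases hw with hw | ⟨w', hw', rfl⟩
      · exact Sp_mono B a l (ih' s hs w hw)
      · have hsB : T s ∈ B := h1' s hs
        have hsa : T (s * a) ∈ B := h2 s (List.mem_cons_of_mem _ hs) a List.mem_cons_self
        have e : tr T (s * (a * w')) = -(rt B a (tr T (s * w'))) +
            (fun k => T s * tr T (a * w') k) + (fun k => T a * tr T (s * w') k) +
            (fun k => (T (s * a) - T s * T a) * tr T w' k) := by
          funext k
          rw [rt_tr hT]
          have := tri hT s a (w' * k)
          show T (s * (a * w') * k) = -T (a * (s * w') * k) + T s * T (a * w' * k) +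
            T a * T (s * w' * k) + (T (s * a) - T s * T a) * T (w' * k)
          have c1 : s * a * (w' * k) = s * (a * w') * k := by group
          have c2 : a * s * (w' * k) = a * (s * w') * k := by group
          have c3 : a * (w' * k) = a * w' * k := by group
          have c4 : s * (w' * k) = s * w' * k := by group
          rw [c1, c2, c3, c4] at this
          linear_combination this
        rw [e]
        have m1 := ih' s hs w' hw'
        refine Submodule.add_mem _ (Submodule.add_mem _ (Submodule.add_mem _ ?_ ?_) ?_) ?_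
        · exact Submodule.neg_mem _ (rt_mem hT B a l m1)
        · apply smul_mem' B hsB
          apply tr_mem_Sp
          simp only [words, List.mem_append, List.mem_map]
          exact Or.inr ⟨w', hw', rfl⟩
        · exact smul_mem' B ha (Sp_mono B a l m1)
        · exact smul_mem' B (B.sub_mem hsa (B.mul_mem hsB ha)) (Sp_mono B a l (tr_mem_Sp B hw'))

/-- stability under right translation by the generators -/
lemma rt_stable (hT : PChar δ T) (B : Subring R) (hFB : ∀ u : Fˣ, dt R u ∈ B) (l : List G) (h1 : ∀ s ∈ l, T s ∈ B)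
    (h2 : ∀ s ∈ l, ∀ s' ∈ l, T (s * s') ∈ B) (s : G) (hs : s ∈ l) {f : G → R} (hf : f ∈ Sp B T l) :
    rt B s f ∈ Sp B T l := by
  unfold Sp at hf
  induction hf using Submodule.span_induction with
  | mem x hx =>
    obtain ⟨w, hw, rfl⟩ := hx
    rw [rt_tr hT]
    exact step hT B hFB l h1 h2 s hs w hw
  | zero => rw [map_zero]; exact Submodule.zero_mem _
  | add x y _ _ hx hy => rw [map_add]; exact Submodule.add_mem _ hx hy
  | smul c x _ hx => rw [map_smul]; exact Submodule.smul_mem _ _ hx

/-- all translates lie in the span -/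
lemma tr_mem (hT : PChar δ T) (B : Subring R) (hFB : ∀ u : Fˣ, dt R u ∈ B) (l : List G)
    (hl : Subgroup.closure {s | s ∈ l} = ⊤) (h1 : ∀ s ∈ l, T s ∈ B)
    (h2 : ∀ s ∈ l, ∀ s' ∈ l, T (s * s') ∈ B) (g : G) : tr T g ∈ Sp B T l := by
  have hg : g ∈ Subgroup.closure {s | s ∈ l} := by rw [hl]; exact Subgroup.mem_top g
  induction hg using Subgroup.closure_induction_left with
  | one => exact tr_mem_Sp B (one_mem_words l)
  | mul_left s hs g _ ih =>
    rw [← rt_tr hT B]
    exact rt_stable hT B hFB l h1 h2 s hs ih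
  | inv_mul_cancel s hs g _ ih =>
    have e : tr T (s⁻¹ * g) = (fun k => (dt R (δ s)⁻¹ * T s) * tr T g k) +
        (fun k => (-(dt R (δ s)⁻¹)) * rt B s (tr T g) k) := by
      funext k
      rw [rt_tr hT]
      have : T (g * k * s) + dt R (δ s) * T (g * k * s⁻¹) = T (g * k) * T s := hT.rel (g * k) s
      have b1 : T (g * k * s) = T (s * g * k) := by rw [hT.comm, ← mul_assoc]
      have b2 : T (g * k * s⁻¹) = T (s⁻¹ * g * k) := by rw [hT.comm, ← mul_assoc]
      rw [b1, b2] at this
      have s1 := dt_inv_mul (R := R) (δ s)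
      show T (s⁻¹ * g * k) = (dt R (δ s)⁻¹ * T s) * T (g * k) +
        (-(dt R (δ s)⁻¹)) * T (s * g * k)
      linear_combination dt R (δ s)⁻¹ * this - T (s⁻¹ * g * k) * s1
    rw [e]
    apply Submodule.add_mem
    · exact smul_mem' B (B.mul_mem (hFB _) (h1 s hs)) ih
    · exact smul_mem' B (B.neg_mem (hFB _)) (rt_stable hT B hFB l h1 h2 s hs ih)

/-- the values of elements of the span at `1` -/
lemma eval_mem (B : Subring R) (l : List G) (h3 : ∀ w ∈ words l, T w ∈ B) {f : G → R}
    (hf : f ∈ Sp B T l) : f 1 ∈ B := by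
  unfold Sp at hf
  induction hf using Submodule.span_induction with
  | mem x hx =>
    obtain ⟨w, hw, rfl⟩ := hx
    show T (w * 1) ∈ B
    rw [mul_one]
    exact h3 w hw
  | zero => exact B.zero_mem
  | add x y _ _ hx hy => exact B.add_mem hx hy
  | smul c x _ hx => exact B.mul_mem c.2 hx

end PCharFin

open PCharFin

theorem PChar.fg {F : Type} [Field F] {Λ : Type} [Group Λ] [Group.FG Λ] {R : Type} [CommRing R]
    [Algebra F R] {δ : Λ →* Fˣ} {T : Λ → R} (hT : PChar δ T) :
    (Algebra.adjoin F (Set.range T)).FG := by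
  classical
  obtain ⟨S, hS⟩ := (Group.fg_iff.mp (inferInstance : Group.FG Λ))
  obtain ⟨hS1, hS2⟩ := hS
  set l : List Λ := hS2.toFinset.toList with hl
  have hmem : ∀ s, s ∈ l ↔ s ∈ S := by intro s; simp [hl]
  set Fs : Finset R := (words l).toFinset.image T ∪ l.toFinset.image T ∪
    (l.toFinset ×ˢ l.toFinset).image (fun p => T (p.1 * p.2)) with hFs
  refine ⟨Fs, le_antisymm ?_ ?_⟩
  · apply Algebra.adjoin_mono
    intro r hr
    simp only [hFs, Finset.coe_union, Finset.coe_image, Set.mem_union, Set.mem_image] at hr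
    rcases hr with (⟨w, _, rfl⟩ | ⟨w, _, rfl⟩) | ⟨w, _, rfl⟩
    · exact ⟨w, rfl⟩
    · exact ⟨w, rfl⟩
    · exact ⟨w.1 * w.2, rfl⟩
  · rw [Algebra.adjoin_le_iff]
    rintro _ ⟨g, rfl⟩
    set B : Subring R := (Algebra.adjoin F (Fs : Set R)).toSubring with hB
    have hFB : ∀ r ∈ Fs, r ∈ B := fun r hr => Algebra.subset_adjoin (Finset.mem_coe.mpr hr)
    have hdB : ∀ u : Fˣ, dt R u ∈ B := fun u =>
      (Algebra.adjoin F (Fs : Set R)).algebraMap_mem (u : F)
    have h1 : ∀ s ∈ l, T s ∈ B := by
      intro s hs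
      apply hFB
      simp only [hFs, Finset.mem_union, Finset.mem_image]
      exact Or.inl (Or.inr ⟨s, by simpa using hs, rfl⟩)
    have h2 : ∀ s ∈ l, ∀ s' ∈ l, T (s * s') ∈ B := by
      intro s hs s' hs'
      apply hFB
      simp only [hFs, Finset.mem_union, Finset.mem_image]
      exact Or.inr ⟨(s, s'), by simp [hs, hs'], rfl⟩
    have h3 : ∀ w ∈ words l, T w ∈ B := by
      intro w hw
      apply hFB
      simp only [hFs, Finset.mem_union, Finset.mem_image]
      exact Or.inl (Or.inl ⟨w, by simpa using hw, rfl⟩)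
    have hcl : Subgroup.closure {s | s ∈ l} = ⊤ := by
      rw [← hS1]; congr 1; ext s; exact hmem s
    have := eval_mem B l h3 (tr_mem hT B hdB l hcl h1 h2 g)
    have h4 : T g ∈ B := by
      have e : tr T g 1 = T g := by show T (g * 1) = T g; rw [mul_one]
      rwa [e] at this
    exact h4

/-- the kernel of a pseudo-character -/
def PChar.ker {F : Type} [Field F] {G : Type} [Group G] {δ : G →* Fˣ} {R : Type} [CommRing R]
    [Algebra F R] {T : G → R} (_hT : PChar δ T) : Subgroup G where
  carrier := {g | ∀ k, T (g * k) = T k}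
  one_mem' := fun k => by rw [one_mul]
  mul_mem' := fun {a b} ha hb k => by rw [mul_assoc, ha, hb]
  inv_mem' := fun {a} ha k => by rw [← ha, ← mul_assoc, mul_inv_cancel, one_mul]

theorem PChar.factor {F : Type} [Field F] {Λ : Type} [Group Λ] [Group.FG Λ] {R : Type}
    [CommRing R] [Algebra F R] [Finite R] {δ : Λ →* Fˣ} {T : Λ → R} (hT : PChar δ T) :
    ∃ (Q : Type) (_ : Group Q) (_ : Finite Q) (π : Λ →* Q) (τ : Q → R), ∀ g, T g = τ (π g) := by
  classical
  obtain ⟨S, hS⟩ := (Group.fg_iff.mp (inferInstance : Group.FG Λ))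
  obtain ⟨hS1, hS2⟩ := hS
  set l : List Λ := hS2.toFinset.toList with hl
  have hmem : ∀ s, s ∈ l ↔ s ∈ S := by intro s; simp [hl]
  have hcl : Subgroup.closure {s | s ∈ l} = ⊤ := by
    rw [← hS1]; congr 1; ext s; exact hmem s
  have htr := tr_mem hT ⊤ (fun _ => Subring.mem_top _) l hcl (fun _ _ => Subring.mem_top _) (fun _ _ _ _ => Subring.mem_top _)
  -- the span is finite
  have hfin : Finite (Sp (⊤ : Subring R) T l) := by
    have h1 : ((tr T) '' {w | w ∈ words l}).Finite := by
      apply Set.Finite.image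
      exact (words l).finite_toSet
    have : Module.Finite (⊤ : Subring R) (Sp (⊤ : Subring R) T l) :=
      Module.Finite.iff_fg.mpr (Submodule.fg_span h1)
    exact Module.finite_of_finite (⊤ : Subring R)
  have hnorm : hT.ker.Normal := by
    constructor
    intro n hn g k
    show T (g * n * g⁻¹ * k) = T k
    have e1 : T (g * n * g⁻¹ * k) = T (n * (g⁻¹ * k * g)) := by
      have : g * n * g⁻¹ * k = g * (n * g⁻¹ * k) := by group
      rw [this, hT.comm]
      congr 1; group
    rw [e1, hn, hT.comm, ← mul_assoc, mul_inv_cancel, one_mul]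
  have hcomm : ∀ g n, n ∈ hT.ker → T (g * n) = T g := by
    intro g n hn
    rw [hT.comm, hn]
  refine ⟨Λ ⧸ hT.ker, inferInstance, ?_, QuotientGroup.mk' hT.ker, fun q => T q.out, ?_⟩
  · have hinj : Function.Injective (fun q : Λ ⧸ hT.ker => (⟨tr T q.out, htr q.out⟩ : Sp (⊤ : Subring R) T l)) := by
      intro q q' h
      simp only [Subtype.mk.injEq] at h
      rw [← Quotient.out_eq' q, ← Quotient.out_eq' q']
      rw [QuotientGroup.eq]
      intro k
      have := congrFun h (k * (q.out)⁻¹)
      simp only [tr] at this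
      have e1 : T (q.out * (k * (q.out)⁻¹)) = T k := by
        rw [hT.comm]; congr 1; group
      have e2 : T (q'.out * (k * (q.out)⁻¹)) = T ((q.out)⁻¹ * q'.out * k) := by
        rw [← mul_assoc, hT.comm, mul_assoc]
      rw [← e2, ← this, e1]
    exact Finite.of_injective _ hinj
  · intro g
    obtain ⟨n, hn⟩ := QuotientGroup.mk_out_eq_mul hT.ker g
    show T g = T (Quotient.out _)
    have : (QuotientGroup.mk' hT.ker g) = (g : Λ ⧸ hT.ker) := rfl
    rw [this, hn, hcomm g n n.2]

end Pool.Agent.CC

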