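import Pool.Agent.Lib.MP_305fdd_al.CC.PChar
import Pool.Agent.Lib.MP_305fdd_al.CC.PCharFin
import Pool.Agent.Lib.MP_305fdd_al.PSL.Ideals

/-!
# MP_305fdd_al, phase 2, piece Q5: the trace ring of `Λ`

`B` is the algebra generated by the traces of the transported representations modulo all ideals `J`
of `A` of finite index; its ideals of finite index are the kernels of the evaluations at the `J`.
-/

set_option autoImplicit false

namespace Pool.Agent.CC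

open Polynomial Pool.Agent.Lib.MP_305fdd_al Pool.Agent.MP_305fdd_al
open Pool.Agent.PSL2Z (joint joint')

section transfer

variable {Γ Λ : Type} [Group Γ] [Group Λ] (Φ : NatBij Γ Λ)

/-- transfer of a pseudo-character of `Λ` with values in a finite ring to `Γ` -/
theorem transfer {F : Type} [Field F] [Finite F] (δ : Γ →* Fˣ) [Group.FG Λ] {R : Type}
    [CommRing R] [Algebra F R] [Finite R] {T : Λ → R} (hT : PChar (Φ.toFun Fˣ δ) T) :
    ∃ (Q : Type) (_ : Group Q) (_ : Finite Q) (θ : Γ →* Q) (τ : Q → R),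
      (∀ l, T l = τ (Φ.toFun Q θ l)) ∧ PChar δ (fun g => τ (θ g)) := by
  obtain ⟨Q, i1, i2, π, τ, hτ⟩ := hT.factor
  refine ⟨Q, i1, i2, Φ.invFun Q π, τ, ?_, ?_⟩
  · intro l
    rw [Φ.right_inv]
    exact hτ l
  · set θ := Φ.invFun Q π with hθ
    have hπ : Φ.toFun Q θ = π := Φ.right_inv Q π
    have key : ∀ g, ∃ l, π l = θ g ∧ Φ.toFun Fˣ δ l = δ g := by
      intro g
      obtain ⟨l, h1, h2⟩ := joint' Φ θ δ g
      rw [hπ] at h1
      exact ⟨l, h1, h2⟩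
    refine ⟨?_, ?_, ?_⟩
    · show τ (θ 1) = 2
      rw [map_one, ← map_one π, ← hτ]
      exact hT.one
    · intro g k
      obtain ⟨l, h1, -⟩ := key g
      obtain ⟨m, h3, -⟩ := key k
      show τ (θ (g * k)) = τ (θ (k * g))
      rw [map_mul, map_mul, ← h1, ← h3, ← map_mul, ← map_mul, ← hτ, ← hτ]
      exact hT.comm l m
    · intro g k
      obtain ⟨l, h1, -⟩ := key g
      obtain ⟨m, h3, h4⟩ := key k
      show τ (θ (g * k)) + algebraMap F R (δ k : F) * τ (θ (g * k⁻¹)) = τ (θ g) * τ (θ k)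
      rw [map_mul, map_mul, map_inv, ← h1, ← h3, ← map_inv, ← map_mul, ← map_mul, ← hτ, ← hτ,
        ← hτ, ← hτ, ← h4]
      exact hT.rel l m

end transfer

section ideals

variable {p : ℕ} [Fact p.Prime] {Γ Λ : Type} [Group Γ] [Group Λ] (Φ : NatBij Γ Λ)
  {A : Type} [CommRing A] [Algebra (ZMod p) A] (R₀ : Γ →* GL (Fin 2) A)

/-- the representation of `Γ` modulo an ideal of finite index -/
noncomputable abbrev rho (J : {J : Ideal A // Finite (A ⧸ J)}) : Γ →* GL (Fin 2) (A ⧸ J.1) :=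
  (Matrix.GeneralLinearGroup.map (Ideal.Quotient.mk J.1)).comp R₀

instance finite_GL (J : {J : Ideal A // Finite (A ⧸ J)}) : Finite (GL (Fin 2) (A ⧸ J.1)) := by
  have : Finite (A ⧸ J.1) := J.2
  infer_instance

theorem rep'_eq (J : {J : Ideal A // Finite (A ⧸ J)}) : rep' Φ R₀ J = Φ.toFun _ (rho R₀ J) := rfl

theorem rho_trace (J : {J : Ideal A // Finite (A ⧸ J)}) (g : Γ) :
    (rho R₀ J g).val.trace = Ideal.Quotient.mk J.1 (R₀ g).val.trace := by
  rw [Matrix.trace_fin_two, Matrix.trace_fin_two, map_add]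
  rfl

theorem rho_det (J : {J : Ideal A // Finite (A ⧸ J)}) (g : Γ) :
    (rho R₀ J g).val.det = Ideal.Quotient.mk J.1 (R₀ g).val.det := by
  rw [Matrix.det_fin_two, Matrix.det_fin_two, map_sub, map_mul, map_mul]
  rfl

variable (δ : Γ →* (ZMod p)ˣ)

theorem det_rep' (hdet : ∀ g, (R₀ g).val.det = algebraMap (ZMod p) A (δ g : ZMod p))
    (J : {J : Ideal A // Finite (A ⧸ J)}) (l : Λ) :
    (rep' Φ R₀ J l).val.det =
      algebraMap (ZMod p) (A ⧸ J.1) (Φ.toFun (ZMod p)ˣ δ l : ZMod p) := by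
  obtain ⟨g, h1, h2⟩ := joint Φ (rho R₀ J) δ l
  rw [rep'_eq, ← h1, ← h2, rho_det, hdet]
  rfl

/-- the family of the traces of the transported representations -/
noncomputable def Tb (l : Λ) : ∀ J : {J : Ideal A // Finite (A ⧸ J)}, A ⧸ J.1 :=
  fun J => (rep' Φ R₀ J l).val.trace

theorem pchar_Tb (hdet : ∀ g, (R₀ g).val.det = algebraMap (ZMod p) A (δ g : ZMod p)) :
    PChar (Φ.toFun (ZMod p)ˣ δ) (Tb Φ R₀) := by
  have h1 := fun J => PChar.of_rep (rep' Φ R₀ J) (Φ.toFun (ZMod p)ˣ δ) (det_rep' Φ R₀ δ hdet J)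
  refine ⟨?_, ?_, ?_⟩
  · funext J
    exact (h1 J).one
  · intro g k
    funext J
    exact (h1 J).comm g k
  · intro g k
    funext J
    have h2 := (h1 J).rel g k
    exact h2

section abs

variable {B : Type} [CommRing B] [Algebra (ZMod p) B]
  {ev : ∀ J : {J : Ideal A // Finite (A ⧸ J)}, B →ₐ[ZMod p] A ⧸ J.1} {T : Λ → B}

/-- `A` and `B` have the same joint values in `A/J × A/J'` -/
theorem joint_alg (hgen : Algebra.adjoin (ZMod p) (Set.range fun g => (R₀ g).val.trace) = ⊤)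
    (hev : ∀ J g, ev J (T g) = (rep' Φ R₀ J g).val.trace)
    (J J' : {J : Ideal A // Finite (A ⧸ J)}) (a : A) :
    ∃ b, ev J b = Ideal.Quotient.mk J.1 a ∧ ev J' b = Ideal.Quotient.mk J'.1 a := by
  let f : B →ₐ[ZMod p] (A ⧸ J.1) × (A ⧸ J'.1) := (ev J).prod (ev J')
  let g : A →ₐ[ZMod p] (A ⧸ J.1) × (A ⧸ J'.1) :=
    (Ideal.Quotient.mkₐ (ZMod p) J.1).prod (Ideal.Quotient.mkₐ (ZMod p) J'.1)
  have h1 : (⊤ : Subalgebra (ZMod p) A) ≤ f.range.comap g := by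
    rw [← hgen, Algebra.adjoin_le_iff]
    rintro _ ⟨γ, rfl⟩
    obtain ⟨l, h2, h3⟩ := joint' Φ (rho R₀ J) (rho R₀ J') γ
    show g ((R₀ γ).val.trace) ∈ f.range
    refine ⟨T l, ?_⟩
    apply Prod.ext
    · show ev J (T l) = Ideal.Quotient.mk J.1 ((R₀ γ).val.trace)
      rw [hev, rep'_eq, h2, rho_trace]
    · show ev J' (T l) = Ideal.Quotient.mk J'.1 ((R₀ γ).val.trace)
      rw [hev, rep'_eq, h3, rho_trace]
  obtain ⟨b, hb⟩ := h1 (Algebra.mem_top (x := a))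
  exact ⟨b, congrArg Prod.fst hb, congrArg Prod.snd hb⟩

theorem fin_of [Group.FG Λ] (hA : IsUniv δ R₀)
    (hev : ∀ J g, ev J (T g) = (rep' Φ R₀ J g).val.trace)
    (hadj : Algebra.adjoin (ZMod p) (Set.range T) = ⊤) (hT : PChar (Φ.toFun (ZMod p)ˣ δ) T)
    (I : Ideal B) (hI : Finite (B ⧸ I)) : ∃ J, I = RingHom.ker (ev J) := by
  have hTI : PChar (Φ.toFun (ZMod p)ˣ δ) (fun l => Ideal.Quotient.mkₐ (ZMod p) I (T l)) :=
    hT.map (Ideal.Quotient.mkₐ (ZMod p) I)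
  obtain ⟨Q, i1, i2, θ, τ, h1, h2⟩ := transfer Φ δ hTI
  obtain ⟨ψ₀, hψ₀⟩ := hA.univ (B ⧸ I) (fun g => τ (θ g)) h2
  let ψ : A ⧸ RingHom.ker ψ₀ →ₐ[ZMod p] B ⧸ I := Ideal.kerLiftAlg ψ₀
  have hψ : Function.Injective ψ := Ideal.kerLiftAlg_injective ψ₀
  have hfinJ : Finite (A ⧸ RingHom.ker ψ₀) := Finite.of_injective ψ hψ
  let J : {J : Ideal A // Finite (A ⧸ J)} := ⟨RingHom.ker ψ₀, hfinJ⟩
  refine ⟨J, ?_⟩
  have hcomp : Ideal.Quotient.mkₐ (ZMod p) I = ψ.comp (ev J) := by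
    apply AlgHom.ext_of_adjoin_eq_top hadj
    rintro _ ⟨l, rfl⟩
    obtain ⟨g, h5, h6⟩ := joint Φ (rho R₀ J) θ l
    rw [AlgHom.comp_apply, hev, rep'_eq, ← h5, rho_trace, h1, ← h6]
    exact (hψ₀ g).symm
  ext b
  have h3 : b ∈ I ↔ Ideal.Quotient.mkₐ (ZMod p) I b = 0 := Ideal.Quotient.eq_zero_iff_mem.symm
  rw [h3, RingHom.mem_ker, hcomp, AlgHom.comp_apply]
  constructor
  · intro hb
    exact hψ (by rw [hb, map_zero])
  · intro hb
    rw [hb, map_zero]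

end abs

end ideals

theorem exists_TR {p : ℕ} [Fact p.Prime] {Γ Λ : Type} [Group Γ] [Group Λ]
    [Group.FG Λ] (Φ : NatBij Γ Λ) (δ : Γ →* (ZMod p)ˣ) {A : Type} [CommRing A]
    [Algebra (ZMod p) A] (R₀ : Γ →* GL (Fin 2) A) (hA : IsUniv δ R₀) :
    ∃ (B : Type) (_ : CommRing B) (_ : Algebra (ZMod p) B)
      (ev : ∀ J : {J : Ideal A // Finite (A ⧸ J)}, B →ₐ[ZMod p] A ⧸ J.1) (T : Λ → B),
      IsTR p A B ev ∧ (∀ J g, ev J (T g) = (rep' Φ R₀ J g).val.trace) ∧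
      Algebra.adjoin (ZMod p) (Set.range T) = ⊤ ∧ PChar (Φ.toFun (ZMod p)ˣ δ) T := by
  let S : Subalgebra (ZMod p) (∀ J : {J : Ideal A // Finite (A ⧸ J)}, A ⧸ J.1) :=
    Algebra.adjoin (ZMod p) (Set.range (Tb Φ R₀))
  let ev : ∀ J : {J : Ideal A // Finite (A ⧸ J)}, S →ₐ[ZMod p] A ⧸ J.1 :=
    fun J => (Pi.evalAlgHom (ZMod p) (fun J : {J : Ideal A // Finite (A ⧸ J)} => A ⧸ J.1) J).comp
      S.val
  let T : Λ → S := fun l => ⟨Tb Φ R₀ l, Algebra.subset_adjoin ⟨l, rfl⟩⟩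
  have hev : ∀ J g, ev J (T g) = (rep' Φ R₀ J g).val.trace := fun J g => rfl
  have hadj : Algebra.adjoin (ZMod p) (Set.range T) = ⊤ := by
    have h1 := Algebra.adjoin_adjoin_coe_preimage (R := ZMod p) (s := Set.range (Tb Φ R₀))
    rw [← h1]
    congr 1
    ext b
    constructor
    · rintro ⟨l, rfl⟩
      exact ⟨l, rfl⟩
    · rintro ⟨l, hl⟩
      exact ⟨l, Subtype.ext hl⟩
  have hTb := pchar_Tb Φ R₀ δ hA.det
  have hT : PChar (Φ.toFun (ZMod p)ˣ δ) T := by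
    refine ⟨?_, ?_, ?_⟩
    · exact Subtype.ext hTb.one
    · intro g k
      exact Subtype.ext (hTb.comm g k)
    · intro g k
      apply Subtype.ext
      show Tb Φ R₀ (g * k) + _ * Tb Φ R₀ (g * k⁻¹) = Tb Φ R₀ g * Tb Φ R₀ k
      rw [← hTb.rel g k]
      rfl
  have hfg : Algebra.FiniteType (ZMod p) S := (Subalgebra.fg_iff_finiteType S).mp hTb.fg
  have hcompat : ∀ (J J' : {J : Ideal A // Finite (A ⧸ J)}) (hJ : J.1 ≤ J'.1) (b : S),
      Ideal.Quotient.factor hJ (ev J b) = ev J' b := by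
    intro J J' hJ b
    have h1 : (Ideal.Quotient.factorₐ (ZMod p) hJ).comp (ev J) = ev J' := by
      apply AlgHom.ext_of_adjoin_eq_top hadj
      rintro _ ⟨l, rfl⟩
      obtain ⟨g, h2, h3⟩ := joint Φ (rho R₀ J) (rho R₀ J') l
      rw [AlgHom.comp_apply, hev, hev, rep'_eq, rep'_eq, ← h2, ← h3, rho_trace, rho_trace]
      rfl
    exact DFunLike.congr_fun h1 b
  have hsep : ∀ b, (∀ J, ev J b = 0) → b = 0 := by
    intro b hb
    apply Subtype.ext
    funext J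
    exact hb J
  refine ⟨S, inferInstance, inferInstance, ev, T, ⟨hfg, ?_, hcompat, ?_, ?_, hsep⟩, hev, hadj, hT⟩
  · intro J a
    obtain ⟨a, rfl⟩ := Ideal.Quotient.mk_surjective a
    obtain ⟨b, h1, -⟩ := joint_alg Φ R₀ hA.gen hev J J a
    exact ⟨b, h1⟩
  · have key : ∀ J J' : {J : Ideal A // Finite (A ⧸ J)},
        RingHom.ker (ev J) = RingHom.ker (ev J') → J.1 ≤ J'.1 := by
      intro J J' hJJ' a ha
      obtain ⟨b, h1, h2⟩ := joint_alg Φ R₀ hA.gen hev J J' a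
      have h3 : b ∈ RingHom.ker (ev J) := by
        rw [RingHom.mem_ker, h1]
        exact Ideal.Quotient.eq_zero_iff_mem.mpr ha
      rw [hJJ', RingHom.mem_ker, h2] at h3
      exact Ideal.Quotient.eq_zero_iff_mem.mp h3
    intro J J' hJJ'
    exact Subtype.ext (le_antisymm (key J J' hJJ') (key J' J hJJ'.symm))
  · intro I hI
    exact fin_of Φ R₀ δ hA hev hadj hT I hI

end Pool.Agent.CC
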