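import Pool.Agent.Lib.MP_305fdd_al.CC.PChar

/-!
# MP_305fdd_al, `C_a * C_b`: the line of type `({1, μ}, {1, ν})` and its irreducible point
-/

set_option autoImplicit false

namespace Pool.Agent.CC

open Polynomial Pool.Agent.Lib.MP_305fdd_al

/-- the matrix of `x` -/
def lineX {R : Type} [CommRing R] (m n u : R) (h : m * n = 1) : GL (Fin 2) R :=
  ⟨!![1, u; 0, m], !![1, - (u * n); 0, n],
    by
      rw [Matrix.mul_fin_two, Matrix.one_fin_two]
      congr 1
      have e1 : (1 : R) * -(u * n) + u * n = 0 := by ring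
      have e2 : (0 : R) * -(u * n) + m * n = 1 := by rw [h]; ring
      rw [e1, e2]
      simp,
    by
      rw [Matrix.mul_fin_two, Matrix.one_fin_two]
      congr 1
      have e1 : (1 : R) * u + -(u * n) * m = 0 := by linear_combination (- u) * h
      have e2 : (0 : R) * u + n * m = 1 := by linear_combination h
      rw [e1, e2]
      simp⟩

/-- the matrix of `y` -/
def lineY {R : Type} [CommRing R] (m n : R) (h : m * n = 1) : GL (Fin 2) R :=
  ⟨!![m, 0; 1, 1], !![n, 0; -n, 1],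
    by
      rw [Matrix.mul_fin_two, Matrix.one_fin_two]
      congr 1
      have e1 : m * n + 0 * -n = 1 := by rw [h]; ring
      have e2 : (1 : R) * n + 1 * -n = 0 := by ring
      rw [e1, e2]
      simp,
    by
      rw [Matrix.mul_fin_two, Matrix.one_fin_two]
      congr 1
      have e1 : n * m + 0 * 1 = 1 := by linear_combination h
      have e2 : -n * m + 1 * 1 = 0 := by linear_combination (- h)
      rw [e1, e2]
      simp⟩

theorem lineX_val {R : Type} [CommRing R] (m n u : R) (h : m * n = 1) :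
    (lineX m n u h).val = !![1, u; 0, m] := rfl

theorem lineX_inv {R : Type} [CommRing R] (m n u : R) (h : m * n = 1) :
    ((lineX m n u h)⁻¹).val = !![1, - (u * n); 0, n] := rfl

theorem lineY_val {R : Type} [CommRing R] (m n : R) (h : m * n = 1) :
    (lineY m n h).val = !![m, 0; 1, 1] := rfl

theorem lineY_inv {R : Type} [CommRing R] (m n : R) (h : m * n = 1) :
    ((lineY m n h)⁻¹).val = !![n, 0; -n, 1] := rfl

theorem lineX_pow {R : Type} [CommRing R] (m n u : R) (h : m * n = 1) (k : ℕ) :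
    (lineX m n u h ^ k).val = !![1, u * ∑ i ∈ Finset.range k, m ^ i; 0, m ^ k] := by
  induction k with
  | zero => simp [Matrix.one_fin_two]
  | succ k ih =>
    rw [pow_succ', Units.val_mul, ih, lineX, Matrix.mul_fin_two, Finset.sum_range_succ, pow_succ']
    congr 1
    have e1 : (1 : R) * (u * ∑ i ∈ Finset.range k, m ^ i) + u * m ^ k =
        u * (∑ i ∈ Finset.range k, m ^ i + m ^ k) := by ring
    rw [e1]
    simp

theorem lineY_pow {R : Type} [CommRing R] (m n : R) (h : m * n = 1) (k : ℕ) :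
    (lineY m n h ^ k).val = !![m ^ k, 0; ∑ i ∈ Finset.range k, m ^ i, 1] := by
  induction k with
  | zero => simp [Matrix.one_fin_two]
  | succ k ih =>
    rw [pow_succ', Units.val_mul, ih, lineY, Matrix.mul_fin_two, Finset.sum_range_succ, pow_succ']
    congr 1
    have e1 : (1 : R) * m ^ k + 1 * ∑ i ∈ Finset.range k, m ^ i =
        ∑ i ∈ Finset.range k, m ^ i + m ^ k := by ring
    rw [e1]
    simp

theorem sum_pow_eq_zero {F : Type} [Field F] (μ : Fˣ) (a : ℕ) (ha : 2 ≤ a) (hμ : orderOf μ = a) :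
    ∑ i ∈ Finset.range a, (C (μ : F) : F[X]) ^ i = 0 := by
  have h1 : (μ : F) ≠ 1 := by
    intro h
    have : μ = 1 := Units.ext h
    rw [this, orderOf_one] at hμ
    omega
  have h2 : (μ : F) ^ a = 1 := by
    have h3 : μ ^ a = 1 := by rw [← hμ]; exact pow_orderOf_eq_one _
    have := congrArg (fun z : Fˣ => (z : F)) h3
    simpa using this
  have h4 : ∑ i ∈ Finset.range a, (μ : F) ^ i = 0 := by
    have h5 := mul_geom_sum (μ : F) a
    rw [h2, sub_self] at h5
    rcases mul_eq_zero.mp h5 with h6 | h6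
    · exact absurd (sub_eq_zero.mp h6) h1
    · exact h6
  simp only [← C_pow]
  rw [← map_sum, h4, C_0]

theorem C_unit_pow {F : Type} [Field F] (μ : Fˣ) (a : ℕ) (hμ : orderOf μ = a) :
    (C (μ : F) : F[X]) ^ a = 1 := by
  have h3 : μ ^ a = 1 := by rw [← hμ]; exact pow_orderOf_eq_one _
  have h2 : (μ : F) ^ a = 1 := by
    have := congrArg (fun z : Fˣ => (z : F)) h3
    simpa using this
  rw [← C_pow, h2, C_1]

theorem lineX_pow_one {F : Type} [Field F] (μ : Fˣ) (a : ℕ) (ha : 2 ≤ a) (hμ : orderOf μ = a)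
    (n u : F[X]) (h : C (μ : F) * n = 1) : lineX (C (μ : F)) n u h ^ a = 1 := by
  apply Units.ext
  rw [lineX_pow, sum_pow_eq_zero μ a ha hμ, C_unit_pow μ a hμ, mul_zero, Units.val_one,
    Matrix.one_fin_two]

theorem lineY_pow_one {F : Type} [Field F] (μ : Fˣ) (a : ℕ) (ha : 2 ≤ a) (hμ : orderOf μ = a)
    (n : F[X]) (h : C (μ : F) * n = 1) : lineY (C (μ : F)) n h ^ a = 1 := by
  apply Units.ext
  rw [lineY_pow, sum_pow_eq_zero μ a ha hμ, C_unit_pow μ a hμ, Units.val_one,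
    Matrix.one_fin_two]

theorem exists_line (D : Dat) {Γ : Type} [Group Γ] {x y : Γ} (h : IsCaCb D.a D.b Γ x y)
    {A : Type} [CommRing A] [Algebra (ZMod D.p) A] (R₀ : Γ →* GL (Fin 2) A)
    (hU : IsUniv (del D h) R₀) :
    ∃ σ : A →ₐ[ZMod D.p] (ZMod D.p)[X], Function.Surjective σ ∧
      σ (R₀ x).val.trace = C (1 + (D.μ : ZMod D.p)) ∧
      σ (R₀ y).val.trace = C (1 + (D.ν : ZMod D.p)) ∧
      (σ (R₀ (x * y * x⁻¹ * y⁻¹)).val.trace).eval 0 ≠ 2 := by
  -- the value at `0`
  obtain ⟨u0, hu0, hu1⟩ : ∃ u0 : ZMod D.p, u0 ≠ 0 ∧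
      u0 ≠ (1 - (D.μ : ZMod D.p)) * (1 - (D.ν : ZMod D.p)) := by
    by_cases h1 : (1 - (D.μ : ZMod D.p)) * (1 - (D.ν : ZMod D.p)) = 1
    · refine ⟨2, ?_, ?_⟩
      · intro h2
        have h3 : ((2 : ℕ) : ZMod D.p) = 0 := by exact_mod_cast h2
        rw [ZMod.natCast_eq_zero_iff] at h3
        have := Nat.le_of_dvd (by norm_num) h3
        have := D.hp2
        omega
      · rw [h1]
        intro h2
        have h3 : (1 : ZMod D.p) = 0 := by linear_combination h2
        exact one_ne_zero h3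
    · exact ⟨1, one_ne_zero, fun h2 => h1 h2.symm⟩
  set u : (ZMod D.p)[X] := X + C u0 with hu
  have hm : (C (D.μ : ZMod D.p) : (ZMod D.p)[X]) * C ((D.μ⁻¹ : (ZMod D.p)ˣ) : ZMod D.p) = 1 := by
    rw [← C_mul, Units.mul_inv, C_1]
  have hn : (C (D.ν : ZMod D.p) : (ZMod D.p)[X]) * C ((D.ν⁻¹ : (ZMod D.p)ˣ) : ZMod D.p) = 1 := by
    rw [← C_mul, Units.mul_inv, C_1]
  obtain ⟨ρ, hρx, hρy⟩ : ∃ ρ : Γ →* GL (Fin 2) (ZMod D.p)[X],
      ρ x = lineX _ _ u hm ∧ ρ y = lineY _ _ hn :=
    h.lift _ _ _ (lineX_pow_one D.μ D.a D.ha D.hμ _ _ hm)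
      (lineY_pow_one D.ν D.b D.hb D.hν _ hn)
  have hdet : ∀ g, (ρ g).val.det = algebraMap (ZMod D.p) (ZMod D.p)[X] (del D h g : ZMod D.p) := by
    have heq : (Matrix.GeneralLinearGroup.det (n := Fin 2) (R := (ZMod D.p)[X])).comp ρ =
        (Units.map (algebraMap (ZMod D.p) (ZMod D.p)[X]).toMonoidHom).comp (del D h) := by
      refine hom_ext h ?_ ?_
      · apply Units.ext
        rw [MonoidHom.comp_apply, MonoidHom.comp_apply, hρx, del, toHom_x]
        rw [Matrix.GeneralLinearGroup.val_det_apply, lineX_val, Matrix.det_fin_two_of]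
        simp
      · apply Units.ext
        rw [MonoidHom.comp_apply, MonoidHom.comp_apply, hρy, del, toHom_y]
        rw [Matrix.GeneralLinearGroup.val_det_apply, lineY_val, Matrix.det_fin_two_of]
        simp
    intro g
    have := congrArg (fun f : Γ →* (ZMod D.p)[X]ˣ => (f g : (ZMod D.p)[X])) heq
    simpa using this
  obtain ⟨σ, hσ⟩ := hU.univ _ _ (PChar.of_rep ρ (del D h) hdet)
  have htrx : (ρ x).val.trace = C (1 + (D.μ : ZMod D.p)) := by
    rw [hρx, lineX_val, Matrix.trace_fin_two_of]; simp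
  have htry : (ρ y).val.trace = C (1 + (D.ν : ZMod D.p)) := by
    rw [hρy, lineY_val, Matrix.trace_fin_two_of]; simp [add_comm]
  have htrxy : (ρ (x * y)).val.trace = X + C (u0 + D.μ + D.ν) := by
    rw [map_mul, hρx, hρy, Units.val_mul, lineX_val, lineY_val, Matrix.mul_fin_two,
      Matrix.trace_fin_two_of, hu, C_add, C_add]
    ring
  refine ⟨σ, ?_, ?_, ?_, ?_⟩
  · have hX : (X : (ZMod D.p)[X]) ∈ σ.range := by
      have h1 : (ρ (x * y)).val.trace ∈ σ.range := ⟨_, hσ (x * y)⟩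
      have h2 : C (u0 + D.μ + D.ν) ∈ σ.range := by
        rw [← algebraMap_eq]; exact σ.range.algebraMap_mem _
      have h3 := σ.range.sub_mem h1 h2
      rw [htrxy] at h3
      simpa using h3
    rw [← AlgHom.range_eq_top, ← top_le_iff, ← Polynomial.adjoin_X, Algebra.adjoin_le_iff]
    rintro _ rfl
    exact hX
  · rw [hσ, htrx]
  · rw [hσ, htry]
  · rw [hσ]
    have hμ1 : (D.μ : ZMod D.p) ≠ 0 := D.μ.ne_zero
    have hν1 : (D.ν : ZMod D.p) ≠ 0 := D.ν.ne_zero
    have hval : ((ρ (x * y * x⁻¹ * y⁻¹)).val.trace).eval 0 = 2 +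
        u0 * (u0 - (1 - (D.μ : ZMod D.p)) * (1 - (D.ν : ZMod D.p))) *
          ((D.μ : ZMod D.p)⁻¹ * (D.ν : ZMod D.p)⁻¹) := by
      rw [map_mul, map_mul, map_mul, map_inv, map_inv, hρx, hρy, Units.val_mul, Units.val_mul,
        Units.val_mul, lineX_val, lineY_val, lineX_inv, lineY_inv, Matrix.mul_fin_two,
        Matrix.mul_fin_two, Matrix.mul_fin_two, Matrix.trace_fin_two_of, hu]
      simp only [eval_add, eval_mul, eval_neg, eval_C, eval_X, eval_one, eval_zero,
        Units.val_inv_eq_inv_val]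
      field_simp
      ring
    rw [hval]
    intro h2
    have h3 : u0 * (u0 - (1 - (D.μ : ZMod D.p)) * (1 - (D.ν : ZMod D.p))) *
          ((D.μ : ZMod D.p)⁻¹ * (D.ν : ZMod D.p)⁻¹) = 0 := by linear_combination h2
    have h4 : ((D.μ : ZMod D.p)⁻¹ * (D.ν : ZMod D.p)⁻¹) ≠ 0 :=
      mul_ne_zero (inv_ne_zero hμ1) (inv_ne_zero hν1)
    rcases mul_eq_zero.mp h3 with h5 | h5
    · rcases mul_eq_zero.mp h5 with h6 | h6
      · exact hu0 h6
      · exact hu1 (sub_eq_zero.mp h6)
    · exact h4 h5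

end Pool.Agent.CC
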