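import Pool.Agent.Lib.MP_305fdd_al.CC.Decomp
import Pool.Agent.Lib.MP_305fdd_al.PSL.Curve
import Pool.Agent.Lib.MP_305fdd_al.PSL.Zeta

/-!
# MP_305fdd_al: the components of `B` have one place at infinity
-/

set_option autoImplicit false

namespace Pool.Agent.CC

open Polynomial Pool.Agent.Lib.MP_305fdd_al Pool.Agent.MP_305fdd_al
open Pool.Agent.PSL2Z (TreeAct zet Z1 Fix edges Gw curve zet_prod)
open scoped WithZero nonZeroDivisors

theorem zet_eq {p : ℕ} [Fact p.Prime] {A B : Type} [CommRing A] [Algebra (ZMod p) A]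
    [CommRing B] [Algebra (ZMod p) B]
    {ev : ∀ J : {J : Ideal A // Finite (A ⧸ J)}, B →ₐ[ZMod p] A ⧸ J.1} (hB : IsTR p A B ev) :
    zet p B = zet p A := by
  ext n
  unfold zet
  rw [PowerSeries.coeff_mk, PowerSeries.coeff_mk]
  congr 1
  have hp0 : p ^ n ≠ 0 := pow_ne_zero _ (Fact.out : p.Prime).pos.ne'
  have hfin : ∀ J : {J : Ideal A // Nat.card (A ⧸ J) = p ^ n}, Finite (A ⧸ J.1) := fun J =>
    Nat.finite_of_card_ne_zero (by rw [J.2]; exact hp0)
  refine (Nat.card_congr (Equiv.ofBijective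
    (fun J : {J : Ideal A // Nat.card (A ⧸ J) = p ^ n} =>
      (⟨RingHom.ker (ev ⟨J.1, hfin J⟩), by rw [card_quot hB]; exact J.2⟩ :
        {I : Ideal B // Nat.card (B ⧸ I) = p ^ n})) ⟨?_, ?_⟩)).symm
  · intro J J' h
    have h1 := hB.inj _ _ (congrArg Subtype.val h)
    exact Subtype.ext (congrArg (fun J : {J : Ideal A // Finite (A ⧸ J)} => J.1) h1)
  · rintro ⟨I, hI⟩
    have hf : Finite (B ⧸ I) := Nat.finite_of_card_ne_zero (by rw [hI]; exact hp0)
    obtain ⟨J, rfl⟩ := hB.fin I hf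
    refine ⟨⟨J.1, ?_⟩, Subtype.ext rfl⟩
    rw [← card_quot hB]
    exact hI

/-- the zeta function of a ring starts with 1 -/
theorem coeff_zero_zet (p : ℕ) (D : Type) [CommRing D] : PowerSeries.coeff 0 (zet p D) = 1 := by
  unfold zet
  rw [PowerSeries.coeff_mk, pow_zero]
  have h1 : Nat.card (D ⧸ (⊤ : Ideal D)) = 1 := by
    have : Subsingleton (D ⧸ (⊤ : Ideal D)) := Ideal.Quotient.subsingleton_iff.2 rfl
    exact Nat.card_of_subsingleton 0
  have h2 : Subsingleton {I : Ideal D // Nat.card (D ⧸ I) = 1} := by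
    have h3 : ∀ I : {I : Ideal D // Nat.card (D ⧸ I) = 1}, I = ⟨⊤, h1⟩ := by
      rintro ⟨I, hI⟩
      apply Subtype.ext
      exact Ideal.Quotient.subsingleton_iff.1 (Nat.card_eq_one_iff_unique.1 hI).1
    exact ⟨fun I J => (h3 I).trans (h3 J).symm⟩
  rw [Nat.card_of_subsingleton (⟨⊤, h1⟩ : {I : Ideal D // Nat.card (D ⧸ I) = 1}), Nat.cast_one]

/-- the zeta function of a field with `p` elements -/
theorem zet_field_place (p : ℕ) [Fact p.Prime] (D : Type) [CommRing D] (hD : IsField D)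
    (hc : Nat.card D = p) : zet p D = 1 + PowerSeries.X := by
  have hp := (Fact.out : p.Prime)
  have hbot : Nat.card (D ⧸ (⊥ : Ideal D)) = p := by
    rw [← hc]
    exact Nat.card_congr (RingEquiv.quotientBot D).toEquiv
  have hcase : ∀ I : Ideal D, I = ⊥ ∨ I = ⊤ := by
    let _ := hD.toField
    exact Ideal.eq_bot_or_top
  ext n
  rcases n with _ | _ | n
  · rw [coeff_zero_zet, map_add, PowerSeries.coeff_zero_one, PowerSeries.coeff_zero_X, add_zero]
  · unfold zet
    rw [PowerSeries.coeff_mk, zero_add, pow_one, map_add, PowerSeries.coeff_one_X,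
      PowerSeries.coeff_one, if_neg one_ne_zero, zero_add]
    have h2 : Subsingleton {I : Ideal D // Nat.card (D ⧸ I) = p} := by
      have h3 : ∀ I : {I : Ideal D // Nat.card (D ⧸ I) = p}, I = ⟨⊥, hbot⟩ := by
        rintro ⟨I, hI⟩
        apply Subtype.ext
        rcases hcase I with h | h
        · exact h
        · exfalso
          subst h
          have : Subsingleton (D ⧸ (⊤ : Ideal D)) := Ideal.Quotient.subsingleton_iff.2 rfl
          rw [Nat.card_of_subsingleton (0 : D ⧸ (⊤ : Ideal D))] at hI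
          exact hp.one_lt.ne hI
      exact ⟨fun I J => (h3 I).trans (h3 J).symm⟩
    rw [Nat.card_of_subsingleton (⟨⊥, hbot⟩ : {I : Ideal D // Nat.card (D ⧸ I) = p}), Nat.cast_one]
  · unfold zet
    rw [PowerSeries.coeff_mk, map_add, PowerSeries.coeff_one, if_neg (by omega),
      PowerSeries.coeff_X, if_neg (by omega), add_zero]
    have : IsEmpty {I : Ideal D // Nat.card (D ⧸ I) = p ^ (n + 1 + 1)} := by
      constructor
      rintro ⟨I, hI⟩
      rcases hcase I with h | h
      · subst h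
        rw [hbot] at hI
        have h4 : p ^ 1 < p ^ (n + 1 + 1) := Nat.pow_lt_pow_right hp.one_lt (by omega)
        rw [pow_one] at h4
        exact h4.ne hI
      · subst h
        have : Subsingleton (D ⧸ (⊤ : Ideal D)) := Ideal.Quotient.subsingleton_iff.2 rfl
        rw [Nat.card_of_subsingleton (0 : D ⧸ (⊤ : Ideal D))] at hI
        have h4 : 1 < p ^ (n + 1 + 1) := Nat.one_lt_pow (by omega) hp.one_lt
        omega
    rw [Nat.card_of_isEmpty, Nat.cast_zero]

theorem place {p : ℕ} [Fact p.Prime] {A B : Type} [CommRing A] [Algebra (ZMod p) A]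
    [CommRing B] [Algebra (ZMod p) B] (hA : Good p A)
    {ev : ∀ J : {J : Ideal A // Finite (A ⧸ J)}, B →ₐ[ZMod p] A ⧸ J.1} (hB : IsTR p A B ev)
    (P : Ideal B) (hP : P ∈ minimalPrimes B) (hF : ¬ IsField (B ⧸ P)) :
    zet p (B ⧸ P) = 1 ∧ ∀ (K : Type) [Field K] [Algebra (B ⧸ P) K] [IsFractionRing (B ⧸ P) K],
      ∃ v : Valuation K ℤᵐ⁰, Function.Surjective v ∧
        {b : B ⧸ P | v (algebraMap (B ⧸ P) K b) ≤ 1}.Finite := by
  classical
  obtain ⟨h1, h2, h3, h4, h5⟩ := decomp hA hB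
  have := hB.fg
  have : Finite (minimalPrimes B) := h1
  obtain ⟨n, ⟨e⟩⟩ := Finite.exists_equiv_fin (minimalPrimes B)
  let q : Fin n → Ideal B := fun i => (e.symm i).1
  have hq : ∀ i, q i ∈ minimalPrimes B := fun i => (e.symm i).2
  have hqe : ∀ P (hP : P ∈ minimalPrimes B), q (e ⟨P, hP⟩) = P := by
    intro P hP
    show (e.symm (e ⟨P, hP⟩)).1 = P
    rw [Equiv.symm_apply_apply]
  have hinf : ⨅ i, q i = ⊥ := by
    rw [← h2]
    apply le_antisymm
    · refine le_iInf₂ fun P hP => ?_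
      exact (iInf_le q (e ⟨P, hP⟩)).trans (le_of_eq (hqe P hP))
    · exact le_iInf fun i => iInf₂_le _ (hq i)
  have hc : Pairwise fun i j => IsCoprime (q i) (q j) := by
    intro i j hij
    refine h3 _ (hq i) _ (hq j) fun h => hij ?_
    exact e.symm.injective (Subtype.ext h)
  have hz := zet_prod p B q hinf hc
  rw [zet_eq hB, hA.zeta] at hz
  have hQ : ∀ i, ∃ Q : (ZMod p)[X], zet p (B ⧸ q i) = (Q : PowerSeries (ZMod p)) ∧
      (IsField (B ⧸ q i) → Q = 1 + X) := by
    intro i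
    by_cases hf : IsField (B ⧸ q i)
    · refine ⟨1 + X, ?_, fun _ => rfl⟩
      rw [zet_field_place p _ hf ((h4 _ (hq i)).2 hf), Polynomial.coe_add, Polynomial.coe_one,
        Polynomial.coe_X]
    · have : (q i).IsPrime := (hq i).1.1
      have := (h4 _ (hq i)).1
      have : Algebra.FiniteType (ZMod p) (B ⧸ q i) := inferInstance
      obtain ⟨Q, hQ, _⟩ := curve p (B ⧸ q i) (FractionRing (B ⧸ q i)) hf
      exact ⟨Q, hQ, fun h => absurd h hf⟩
  choose Q hQ hQ1 using hQ
  have hprod : ∏ i, Q i = (1 + X) ^ iso A := by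
    apply Polynomial.coe_injective (ZMod p)
    have h6 : ((∏ i, Q i : (ZMod p)[X]) : PowerSeries (ZMod p)) =
        ∏ i, ((Q i : (ZMod p)[X]) : PowerSeries (ZMod p)) :=
      map_prod (Polynomial.coeToPowerSeries.ringHom (R := ZMod p)) Q Finset.univ
    rw [h6, Polynomial.coe_pow, Polynomial.coe_add, Polynomial.coe_one, Polynomial.coe_X, hz]
    exact Finset.prod_congr rfl fun i _ => (hQ i).symm
  -- number of the fields
  have hcard : (Finset.univ.filter fun i => IsField (B ⧸ q i)).card = iso A := by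
    rw [← h5, ← Fintype.card_subtype, ← Nat.card_eq_fintype_card]
    refine Nat.card_congr (Equiv.ofBijective
      (fun i : {i : Fin n // IsField (B ⧸ q i)} =>
        (⟨q i.1, hq i.1, i.2⟩ : {P : Ideal B // P ∈ minimalPrimes B ∧ IsField (B ⧸ P)})) ⟨?_, ?_⟩)
    · intro i j hij
      have h6 : q i.1 = q j.1 := congrArg
        (fun P : {P : Ideal B // P ∈ minimalPrimes B ∧ IsField (B ⧸ P)} => P.1) hij
      exact Subtype.ext (e.symm.injective (Subtype.ext h6))
    · rintro ⟨P', hP', hf⟩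
      refine ⟨⟨e ⟨P', hP'⟩, ?_⟩, Subtype.ext (hqe P' hP')⟩
      rw [hqe P' hP']
      exact hf
  have hprod2 : ∏ i ∈ Finset.univ.filter (fun i => ¬ IsField (B ⧸ q i)), Q i = 1 := by
    have h7 : (1 + X : (ZMod p)[X]) ^ iso A ≠ 0 := by
      apply pow_ne_zero
      rw [add_comm]
      exact X_add_C_ne_zero 1
    apply mul_left_cancel₀ h7
    rw [mul_one]
    conv_rhs => rw [← hprod]
    rw [← Finset.prod_filter_mul_prod_filter_not Finset.univ fun i => IsField (B ⧸ q i)]
    congr 1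
    rw [← hcard, Finset.prod_congr rfl (fun i hi => hQ1 i (Finset.mem_filter.1 hi).2),
      Finset.prod_const]
  have hdeg : ∀ Q' : (ZMod p)[X], zet p (B ⧸ P) = (Q' : PowerSeries (ZMod p)) →
      Q'.natDegree = 0 := by
    intro Q' hQ'
    have h6 : Q' = Q (e ⟨P, hP⟩) := by
      apply Polynomial.coe_injective (ZMod p)
      rw [← hQ', ← hQ, hqe P hP]
    rw [h6]
    apply Polynomial.natDegree_eq_zero_of_isUnit
    refine isUnit_of_dvd_one (hprod2 ▸ Finset.dvd_prod_of_mem Q (Finset.mem_filter.2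
      ⟨Finset.mem_univ _, ?_⟩))
    rw [hqe P hP]
    exact hF
  have := (h4 _ hP).1
  have : Algebra.FiniteType (ZMod p) (B ⧸ P) := inferInstance
  constructor
  · obtain ⟨Q', hQ', _⟩ := curve p (B ⧸ P) (FractionRing (B ⧸ P)) hF
    have h8 := hdeg Q' hQ'
    have h9 := coeff_zero_zet p (B ⧸ P)
    rw [hQ', Polynomial.coeff_coe] at h9
    rw [hQ', Polynomial.eq_C_of_natDegree_eq_zero h8, h9, Polynomial.C_1, Polynomial.coe_one]
  · intro K _ _ _
    obtain ⟨Q', hQ', hv⟩ := curve p (B ⧸ P) K hF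
    exact hv (hdeg Q' hQ')

end Pool.Agent.CC
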