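import Pool.Agent.Lib.MP_305fdd_al.CC.Decomp
import Pool.Agent.Lib.MP_305fdd_al.CC.FieldRep
import Pool.Agent.Lib.MP_305fdd_al.CC.Limit
import Pool.Agent.Lib.MP_305fdd_al.CC.Place
import Pool.Agent.Lib.MP_305fdd_al.PSL.Lattice

/-!
# MP_305fdd_al: the component of `Spec B` through an irreducible rational point and the action of
`Λ` on its tree
-/

set_option autoImplicit false

namespace Pool.Agent.CC

open Polynomial Pool.Agent.Lib.MP_305fdd_al Pool.Agent.MP_305fdd_al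
open Pool.Agent.PSL2Z (TreeAct zet Z1 Fix edges Gw)
open scoped WithZero nonZeroDivisors

namespace Mdl

section transfer

variable {Γ Λ : Type} [Group Γ] [Group Λ] (Φ : NatBij Γ Λ)

/-- a property of all values of a homomorphism to a finite group is transferred -/
theorem transfer {Q : Type} [Group Q] [Finite Q] (θ : Γ →* Q) (P : Q → Prop)
    (hP : ∀ g, P (θ g)) (l : Λ) : P (Φ.toFun Q θ l) := by
  have h1 : Φ.toFun Q θ l ∈ (Φ.toFun Q θ).range := ⟨l, rfl⟩
  rw [Φ.range_eq] at h1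
  obtain ⟨g, hg⟩ := h1
  rw [← hg]
  exact hP g

theorem toFun_prod {Q R : Type} [Group Q] [Finite Q] [Group R] [Finite R] (θ : Γ →* Q)
    (θ' : Γ →* R) : Φ.toFun (Q × R) (θ.prod θ') = (Φ.toFun Q θ).prod (Φ.toFun R θ') := by
  ext l
  · have := Φ.nat (MonoidHom.fst Q R) (θ.prod θ')
    rw [MonoidHom.fst_comp_prod] at this
    rw [this]
    rfl
  · have := Φ.nat (MonoidHom.snd Q R) (θ.prod θ')
    rw [MonoidHom.snd_comp_prod] at this
    rw [this]
    rfl

theorem transfer₂ {Q R : Type} [Group Q] [Finite Q] [Group R] [Finite R] (θ : Γ →* Q)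
    (θ' : Γ →* R) (P : Q → R → Prop) (hP : ∀ g, P (θ g) (θ' g)) (l : Λ) :
    P (Φ.toFun Q θ l) (Φ.toFun R θ' l) := by
  have h1 := transfer Φ (θ.prod θ') (fun q => P q.1 q.2) hP l
  rw [toFun_prod] at h1
  exact h1

theorem exists_of_range {Q : Type} [Group Q] [Finite Q] (θ : Γ →* Q) (g : Γ) :
    ∃ l : Λ, Φ.toFun Q θ l = θ g := by
  have h1 : θ g ∈ θ.range := ⟨g, rfl⟩
  rw [← Φ.range_eq] at h1
  exact h1

end transfer

section rep

variable {Γ Λ : Type} [Group Γ] [Group Λ] (Φ : NatBij Γ Λ) {A : Type} [CommRing A]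
  (R₀ : Γ →* GL (Fin 2) A)

theorem rep'_compat {J J' : {J : Ideal A // Finite (A ⧸ J)}} (hJ : J.1 ≤ J'.1) (g : Λ) :
    Matrix.GeneralLinearGroup.map (Ideal.Quotient.factor hJ) (rep' Φ R₀ J g) =
      rep' Φ R₀ J' g := by
  have : Finite (A ⧸ J.1) := J.2
  have : Finite (A ⧸ J'.1) := J'.2
  have h1 : Φ.toFun (GL (Fin 2) (A ⧸ J'.1))
      ((Matrix.GeneralLinearGroup.map (Ideal.Quotient.mk J'.1)).comp R₀) =
      (Matrix.GeneralLinearGroup.map (Ideal.Quotient.factor hJ)).comp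
        (Φ.toFun (GL (Fin 2) (A ⧸ J.1))
          ((Matrix.GeneralLinearGroup.map (Ideal.Quotient.mk J.1)).comp R₀)) := by
    rw [← Φ.nat, ← MonoidHom.comp_assoc]
    rfl
  exact (DFunLike.congr_fun h1 g).symm

theorem det_rep' {F : Type} [Field F] [Finite F] [Algebra F A] (δ : Γ →* Fˣ)
    (hdet : ∀ g, (R₀ g).val.det = algebraMap F A (δ g : F))
    (J : {J : Ideal A // Finite (A ⧸ J)}) (g : Λ) :
    (rep' Φ R₀ J g).val.det = algebraMap F (A ⧸ J.1) (Φ.toFun Fˣ δ g : F) := by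
  have : Finite (A ⧸ J.1) := J.2
  refine transfer₂ Φ ((Matrix.GeneralLinearGroup.map (Ideal.Quotient.mk J.1)).comp R₀) δ
    (fun q e => q.val.det = algebraMap F (A ⧸ J.1) (e : F)) (fun g => ?_) g
  have h1 : ((Matrix.GeneralLinearGroup.map (Ideal.Quotient.mk J.1)).comp R₀ g).val =
    (Ideal.Quotient.mk J.1).mapMatrix (R₀ g).val := rfl
  rw [h1, ← RingHom.map_det, hdet]
  rfl

end rep

section line

variable {F : Type} [Field F] [Finite F] {A : Type} [CommRing A] [Algebra F A]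
  (σ : A →ₐ[F] F[X])

instance finite_quot (k : ℕ) : Finite (F[X] ⧸ Ik F k) := by
  have : Module.Finite F (AdjoinRoot ((X : F[X]) ^ k)) :=
    (AdjoinRoot.powerBasis (pow_ne_zero k X_ne_zero)).finite
  exact Module.finite_of_finite F (M := AdjoinRoot ((X : F[X]) ^ k))

/-- the homomorphism `A → F[X]/(X^k)` -/
noncomputable def sk (k : ℕ) : A →ₐ[F] F[X] ⧸ Ik F k := (Ideal.Quotient.mkₐ F (Ik F k)).comp σ

omit [Finite F] in
theorem sk_apply (k : ℕ) (a : A) : sk σ k a = Ideal.Quotient.mk (Ik F k) (σ a) := rfl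

/-- its kernel -/
noncomputable def Jk (k : ℕ) : {J : Ideal A // Finite (A ⧸ J)} :=
  ⟨RingHom.ker (sk σ k), Finite.of_injective _ (Ideal.kerLiftAlg_injective (sk σ k))⟩

/-- the homomorphism `A/J_k → F[X]/(X^k)` -/
noncomputable def ek (k : ℕ) : (A ⧸ (Jk σ k).1) →ₐ[F] F[X] ⧸ Ik F k :=
  Ideal.kerLiftAlg (sk σ k)

theorem ek_mk (k : ℕ) (a : A) : ek σ k (Ideal.Quotient.mk _ a) =
    Ideal.Quotient.mk (Ik F k) (σ a) := rfl

theorem ek_inj (k : ℕ) : Function.Injective (ek σ k) := Ideal.kerLiftAlg_injective (sk σ k)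

theorem ek_surj (hσ : Function.Surjective σ) (k : ℕ) : Function.Surjective (ek σ k) := by
  intro z
  obtain ⟨P, rfl⟩ := Ideal.Quotient.mk_surjective z
  obtain ⟨a, rfl⟩ := hσ P
  exact ⟨Ideal.Quotient.mk _ a, ek_mk σ k a⟩

theorem mem_Jk (k : ℕ) (a : A) : a ∈ (Jk σ k).1 ↔ (X : F[X]) ^ k ∣ σ a := by
  show a ∈ RingHom.ker (sk σ k) ↔ _
  rw [RingHom.mem_ker, sk_apply, Ideal.Quotient.eq_zero_iff_mem, Ideal.mem_span_singleton]

theorem Jk_le {k l : ℕ} (h : k ≤ l) : (Jk σ l).1 ≤ (Jk σ k).1 := by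
  intro a ha
  rw [mem_Jk] at ha ⊢
  exact (pow_dvd_pow _ h).trans ha

theorem ek_compat {k l : ℕ} (h : k ≤ l) (z : A ⧸ (Jk σ l).1) :
    Ideal.Quotient.factor (Ik_le h) (ek σ l z) =
      ek σ k (Ideal.Quotient.factor (Jk_le σ h) z) := by
  obtain ⟨a, rfl⟩ := Ideal.Quotient.mk_surjective z
  rw [Ideal.Quotient.factor_mk, ek_mk, ek_mk, Ideal.Quotient.factor_mk]

theorem mem_Jk_one (a : A) : a ∈ (Jk σ 1).1 ↔ (σ a).eval 0 = 0 := by
  rw [mem_Jk, pow_one, X_dvd_iff, coeff_zero_eq_eval_zero]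

theorem algebraMap_surj :
    Function.Bijective (algebraMap F (A ⧸ (Jk σ 1).1)) := by
  constructor
  · have h1 : (Jk σ 1).1 ≠ ⊤ := by
      rw [Ne, Ideal.eq_top_iff_one, mem_Jk_one, map_one, eval_one]
      exact one_ne_zero
    have : Nontrivial (A ⧸ (Jk σ 1).1) := Ideal.Quotient.nontrivial_iff.2 h1
    exact (algebraMap F (A ⧸ (Jk σ 1).1)).injective
  · intro z
    obtain ⟨a, rfl⟩ := Ideal.Quotient.mk_surjective z
    refine ⟨(σ a).eval 0, ?_⟩
    have h1 : algebraMap F (A ⧸ (Jk σ 1).1) ((σ a).eval 0) =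
      Ideal.Quotient.mk (Jk σ 1).1 (algebraMap F A ((σ a).eval 0)) := rfl
    rw [h1, Ideal.Quotient.eq, mem_Jk_one, map_sub, AlgHom.commutes]
    simp

theorem algebraMap_inj {c d : F}
    (h : algebraMap F (A ⧸ (Jk σ 1).1) c = algebraMap F (A ⧸ (Jk σ 1).1) d) : c = d :=
  (algebraMap_surj σ).1 h

end line

theorem val_le_one {p : ℕ} [Fact p.Prime] {K : Type} [Field K] (i : ZMod p →+* K)
    (v : Valuation K ℤᵐ⁰) {c : ZMod p} (hc : c ≠ 0) : v (i c) = 1 := by
  have h1 : c ^ (p - 1) = 1 := ZMod.pow_card_sub_one_eq_one hc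
  have h2 : (v (i c)) ^ (p - 1) = 1 := by rw [← map_pow, ← map_pow, h1, map_one, map_one]
  have h3 : 2 ≤ p := (Fact.out : p.Prime).two_le
  exact (pow_eq_one_iff.1 h2).resolve_right (by omega)

theorem val_F_le_one {p : ℕ} [Fact p.Prime] {K : Type} [Field K] (i : ZMod p →+* K)
    (v : Valuation K ℤᵐ⁰) (c : ZMod p) : v (i c) ≤ 1 := by
  by_cases hc : c = 0
  · rw [hc, map_zero, map_zero]; exact zero_le_one
  · exact (val_le_one i v hc).le

section comp

variable {p : ℕ} [Fact p.Prime] {A : Type} [CommRing A] [Algebra (ZMod p) A]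
  {B : Type} [CommRing B] [Algebra (ZMod p) B]
  {ev : ∀ J : {J : Ideal A // Finite (A ⧸ J)}, B →ₐ[ZMod p] A ⧸ J.1}
  (σ : A →ₐ[ZMod p] (ZMod p)[X])

/-- the prime of `B` of the component through the line `σ` -/
noncomputable def prime0 (ev : ∀ J : {J : Ideal A // Finite (A ⧸ J)}, B →ₐ[ZMod p] A ⧸ J.1)
    (σ : A →ₐ[ZMod p] (ZMod p)[X]) : Ideal B := ⨅ k : ℕ, RingHom.ker (ev (Jk σ k))

theorem mem_prime0 (b : B) : b ∈ prime0 ev σ ↔ ∀ k, ev (Jk σ k) b = 0 := by
  unfold prime0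
  rw [Ideal.mem_iInf]
  rfl

theorem prime0_le (k : ℕ) : prime0 ev σ ≤ RingHom.ker (ev (Jk σ k)) := iInf_le _ k

theorem exists_beta (hB : IsTR p A B ev) : ∃ β : B →+* PowerSeries (ZMod p),
    (∀ k b, th k (β b) = ek σ k (ev (Jk σ k) b)) ∧ RingHom.ker β = prime0 ev σ := by
  obtain ⟨β, hβ⟩ := exists_lim_hom (F := ZMod p)
    (fun k => ((ek σ k).comp (ev (Jk σ k))).toRingHom) fun k l hkl b => by
      show Ideal.Quotient.factor (Ik_le hkl) (ek σ l (ev (Jk σ l) b)) = ek σ k (ev (Jk σ k) b)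
      rw [ek_compat σ hkl, hB.compat]
  have hβ' : ∀ k b, th k (β b) = ek σ k (ev (Jk σ k) b) := fun k b => hβ k b
  refine ⟨β, hβ', ?_⟩
  ext b
  rw [RingHom.mem_ker, mem_prime0]
  constructor
  · intro h k
    have h1 := hβ' k b
    rw [h, map_zero] at h1
    apply ek_inj σ k
    rw [← h1, map_zero]
  · intro h
    refine th_ext fun k => ?_
    rw [hβ', map_zero, h, map_zero]

theorem prime0_isPrime (hB : IsTR p A B ev) : (prime0 ev σ).IsPrime := by
  obtain ⟨β, _, h⟩ := exists_beta σ hB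
  rw [← h]
  exact RingHom.ker_isPrime β

theorem nontriv_one : Nontrivial (A ⧸ (Jk σ 1).1) := by
  apply Ideal.Quotient.nontrivial_iff.2
  rw [Ne, Ideal.eq_top_iff_one, mem_Jk_one, map_one, eval_one]
  exact one_ne_zero

theorem prime0_not_max (hσ : Function.Surjective σ) (hB : IsTR p A B ev) :
    ¬ (prime0 ev σ).IsMaximal := by
  intro hm
  have := nontriv_one σ
  have h1 : prime0 ev σ = RingHom.ker (ev (Jk σ 1)) := by
    refine hm.eq_of_le ?_ (prime0_le σ 1)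
    rw [Ne, Ideal.eq_top_iff_one]
    intro h
    rw [RingHom.mem_ker, map_one] at h
    exact one_ne_zero h
  have h2 : prime0 ev σ = RingHom.ker (ev (Jk σ 2)) := by
    refine hm.eq_of_le ?_ (prime0_le σ 2)
    rw [Ne, Ideal.eq_top_iff_one]
    intro h
    rw [RingHom.mem_ker] at h
    have h3 := hB.compat (Jk σ 2) (Jk σ 1) (Jk_le σ (by norm_num)) 1
    rw [h, map_zero] at h3
    have h4 : (1 : B) ∈ prime0 ev σ := by
      rw [h1, RingHom.mem_ker]; exact h3.symm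
    exact hm.ne_top ((Ideal.eq_top_iff_one _).2 h4)
  have h3 := hB.inj _ _ (h1.symm.trans h2)
  have h4 : (Jk σ 1).1 = (Jk σ 2).1 := congrArg Subtype.val h3
  obtain ⟨a, ha⟩ := hσ X
  have h5 : a ∈ (Jk σ 2).1 := by
    rw [← h4, mem_Jk, ha, pow_one]
  rw [mem_Jk, ha, Polynomial.X_pow_dvd_iff] at h5
  have := h5 1 (by norm_num)
  rw [Polynomial.coeff_X_one] at this
  exact one_ne_zero this

theorem prime0_minimal (hσ : Function.Surjective σ) (hA : Good p A) (hB : IsTR p A B ev) :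
    prime0 ev σ ∈ minimalPrimes B := by
  have := prime0_isPrime σ hB
  obtain ⟨P, hP, hle⟩ :=
    Ideal.exists_minimalPrimes_le (I := (⊥ : Ideal B)) (J := prime0 ev σ) bot_le
  obtain ⟨_, _, _, h4, _⟩ := decomp hA hB
  obtain ⟨hD, _⟩ := h4 P hP
  have : P.IsPrime := hP.1.1
  by_cases heq : P = prime0 ev σ
  · rw [← heq]; exact hP
  exfalso
  apply prime0_not_max σ hσ hB
  have hpr : (Ideal.map (Ideal.Quotient.mk P) (prime0 ev σ)).IsPrime :=
    Ideal.map_isPrime_of_surjective Ideal.Quotient.mk_surjective (by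
      rw [Ideal.mk_ker]; exact hle)
  have hne : Ideal.map (Ideal.Quotient.mk P) (prime0 ev σ) ≠ ⊥ := by
    intro h
    rw [Ideal.map_eq_bot_iff_le_ker, Ideal.mk_ker] at h
    exact heq (le_antisymm hle h)
  have hmax := hpr.isMaximal hne
  have h5 := Ideal.comap_isMaximal_of_surjective (Ideal.Quotient.mk P)
    Ideal.Quotient.mk_surjective (K := Ideal.map (Ideal.Quotient.mk P) (prime0 ev σ))
  rwa [Ideal.comap_map_of_surjective _ Ideal.Quotient.mk_surjective, ← RingHom.ker_eq_comap_bot,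
    Ideal.mk_ker, sup_eq_left.2 hle] at h5

/-- an element of the component with values `≤ 1` is constant -/
theorem const_of_val {K : Type} [Field K]
    [Algebra (B ⧸ prime0 ev σ) K] [IsFractionRing (B ⧸ prime0 ev σ) K] (hB : IsTR p A B ev)
    (v : Valuation K ℤᵐ⁰)
    (hfin : {b : B ⧸ prime0 ev σ | v (algebraMap (B ⧸ prime0 ev σ) K b) ≤ 1}.Finite) (b : B)
    (hb : v (algebraMap (B ⧸ prime0 ev σ) K (Ideal.Quotient.mk _ b)) ≤ 1) :
    ∃ c : ZMod p, b - algebraMap (ZMod p) B c ∈ prime0 ev σ := by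
  have hpr := prime0_isPrime σ hB
  obtain ⟨c, hc⟩ := (algebraMap_surj σ).2 (ev (Jk σ 1) b)
  refine ⟨c, ?_⟩
  by_contra hne
  have h0 : ev (Jk σ 1) (b - algebraMap (ZMod p) B c) = 0 := by
    rw [map_sub, AlgHom.commutes, hc, sub_self]
  set a : B := b - algebraMap (ZMod p) B c with ha
  have hva : v (algebraMap (B ⧸ prime0 ev σ) K (Ideal.Quotient.mk _ a)) ≤ 1 := by
    rw [ha, map_sub, map_sub]
    refine (Valuation.map_sub v _ _).trans (max_le hb ?_)
    exact val_F_le_one ((algebraMap (B ⧸ prime0 ev σ) K).comp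
      ((Ideal.Quotient.mk (prime0 ev σ)).comp (algebraMap (ZMod p) B))) v c
  -- powers of `a`
  have hpow : ∀ n : ℕ, (Ideal.Quotient.mk (prime0 ev σ) a) ^ n ∈
      {z : B ⧸ prime0 ev σ | v (algebraMap (B ⧸ prime0 ev σ) K z) ≤ 1} := by
    intro n
    show v (algebraMap (B ⧸ prime0 ev σ) K _) ≤ 1
    rw [map_pow, map_pow]
    exact pow_le_one' hva n
  obtain ⟨i, j, hij, heq⟩ : ∃ i j : ℕ, i < j ∧ (Ideal.Quotient.mk (prime0 ev σ) a) ^ i =
      (Ideal.Quotient.mk (prime0 ev σ) a) ^ j := by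
    have hninj : ¬ Function.Injective fun n : ℕ =>
        (⟨_, hpow n⟩ : {z : B ⧸ prime0 ev σ | v (algebraMap (B ⧸ prime0 ev σ) K z) ≤ 1}) := by
      intro hinj
      have := hfin.to_subtype
      exact not_injective_infinite_finite _ hinj
    rw [Function.Injective] at hninj
    push Not at hninj
    obtain ⟨i, j, h1, h2⟩ := hninj
    have h1' := congrArg Subtype.val h1
    rcases lt_or_gt_of_ne h2 with h | h
    · exact ⟨i, j, h, h1'⟩
    · exact ⟨j, i, h, h1'.symm⟩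
  have hane : Ideal.Quotient.mk (prime0 ev σ) a ≠ 0 := by
    rw [Ne, Ideal.Quotient.eq_zero_iff_mem]; exact hne
  have h1 : (Ideal.Quotient.mk (prime0 ev σ) a) ^ (j - i) = 1 := by
    have h2 : (Ideal.Quotient.mk (prime0 ev σ) a) ^ i *
        (Ideal.Quotient.mk (prime0 ev σ) a) ^ (j - i)
        = (Ideal.Quotient.mk (prime0 ev σ) a) ^ i * 1 := by
      rw [← pow_add, Nat.add_sub_cancel' hij.le, mul_one, heq]
    exact mul_left_cancel₀ (pow_ne_zero _ hane) h2
  rw [← map_pow, ← map_one (Ideal.Quotient.mk (prime0 ev σ)), Ideal.Quotient.eq] at h1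
  have h2 : ev (Jk σ 1) (a ^ (j - i) - 1) = 0 := prime0_le σ 1 h1
  rw [map_sub, map_pow, h0, zero_pow (by omega), map_one, zero_sub, neg_eq_zero] at h2
  have := nontriv_one σ
  exact one_ne_zero h2

end comp

end Mdl

open Mdl in
/-- the component of `Spec B` through an irreducible point with residue field `F` which is not
isolated -/
theorem exists_action {p : ℕ} [Fact p.Prime] (h2 : p ≠ 2) {Γ Λ : Type} [Group Γ] [Group Λ]
    (Φ : NatBij Γ Λ) (δ : Γ →* (ZMod p)ˣ) {A : Type}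
    [CommRing A] [Algebra (ZMod p) A] (R₀ : Γ →* GL (Fin 2) A) (hU : IsUniv δ R₀)
    (hA : Good p A) {B : Type} [CommRing B] [Algebra (ZMod p) B]
    {ev : ∀ J : {J : Ideal A // Finite (A ⧸ J)}, B →ₐ[ZMod p] A ⧸ J.1} (hB : IsTR p A B ev)
    (T : Λ → B) (hT : ∀ J g, ev J (T g) = (rep' Φ R₀ J g).val.trace)
    (hTgen : Algebra.adjoin (ZMod p) (Set.range T) = ⊤) (_hTp : PChar (Φ.toFun (ZMod p)ˣ δ) T)
    -- a line in `Spec A` through an irreducible point
    (σ : A →ₐ[ZMod p] (ZMod p)[X]) (hσ : Function.Surjective σ)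
    (g₀ h₀ : Γ) (hgh : (σ (R₀ (g₀ * h₀ * g₀⁻¹ * h₀⁻¹)).val.trace).eval 0 ≠ 2) :
    ∃ P : Ideal B, P ∈ minimalPrimes B ∧ ¬ IsField (B ⧸ P) ∧
      (∀ J, (∀ f, f ∈ J.1 ↔ (σ f).eval 0 = 0) → P ≤ RingHom.ker (ev J)) ∧
      ∃ (V : Type) (_ : MulAction Λ V) (X : SimpleGraph V) (ty : V → Bool),
        Nonempty V ∧ TreeAct Λ V X ty ∧
        ∀ (g : Λ) (v : V), g • v = v → ∃ c : ZMod p, T g - algebraMap (ZMod p) B c ∈ P := by
  have hpr := prime0_isPrime σ hB
  have hmin := prime0_minimal σ hσ hA hB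
  have hnf : ¬ IsField (B ⧸ prime0 ev σ) := by
    rw [← Ideal.Quotient.maximal_ideal_iff_isField_quotient]
    exact prime0_not_max σ hσ hB
  obtain ⟨_, hplace⟩ := place hA hB (prime0 ev σ) hmin hnf
  obtain ⟨β, hβ, hker⟩ := exists_beta σ hB
  refine ⟨prime0 ev σ, hmin, hnf, ?_, ?_⟩
  · intro J hJ
    have h1 : J = Jk σ 1 := by
      apply Subtype.ext
      ext f
      rw [hJ, mem_Jk_one]
    rw [h1]
    exact prime0_le σ 1
  let K : Type := FractionRing (B ⧸ prime0 ev σ)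
  obtain ⟨v, hv, hfin⟩ := hplace K
  have hconst := const_of_val σ hB v hfin
  let Ω : Type := FractionRing (PowerSeries (ZMod p))
  -- the embedding of `B/𝔭` into the power series
  let βb : (B ⧸ prime0 ev σ) →+* PowerSeries (ZMod p) := Ideal.Quotient.lift _ β fun a ha => by
    rw [← hker] at ha; exact ha
  have hβb : Function.Injective βb := by
    rw [injective_iff_map_eq_zero]
    intro a ha
    obtain ⟨b, rfl⟩ := Ideal.Quotient.mk_surjective a
    have h1 : β b = 0 := ha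
    rw [Ideal.Quotient.eq_zero_iff_mem, ← hker]
    exact h1
  let i : (B ⧸ prime0 ev σ) →+* Ω := (algebraMap (PowerSeries (ZMod p)) Ω).comp βb
  have hi : Function.Injective i := (IsFractionRing.injective (PowerSeries (ZMod p)) Ω).comp hβb
  let j : K →+* Ω := IsFractionRing.lift hi
  let _ : Algebra K Ω := j.toAlgebra
  have hj : ∀ b, algebraMap K Ω (algebraMap (B ⧸ prime0 ev σ) K (Ideal.Quotient.mk _ b)) =
      algebraMap (PowerSeries (ZMod p)) Ω (β b) := fun b => IsFractionRing.lift_algebraMap hi _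
  let Tb : Λ → K := fun g => algebraMap (B ⧸ prime0 ev σ) K (Ideal.Quotient.mk _ (T g))
  -- the representation over power series
  obtain ⟨ρ₀, hρ₀⟩ := exists_lim_rep (F := ZMod p)
    (fun k => (Matrix.GeneralLinearGroup.map (ek σ k).toRingHom).comp (rep' Φ R₀ (Jk σ k)))
    fun k l hkl g => by
      rw [MonoidHom.comp_apply, MonoidHom.comp_apply, ← rep'_compat Φ R₀ (Jk_le σ hkl) g]
      ext a b
      exact ek_compat σ hkl _
  have htr : ∀ g, (ρ₀ g).val.trace = β (T g) := by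
    intro g
    refine th_ext fun k => ?_
    rw [hβ, hT, Matrix.trace_fin_two, Matrix.trace_fin_two, map_add, map_add]
    have h1 : ∀ a b, th k ((ρ₀ g).val a b) = ek σ k ((rep' Φ R₀ (Jk σ k) g).val a b) :=
      fun a b => congrArg (fun M : GL (Fin 2) ((ZMod p)[X] ⧸ Ik (ZMod p) k) => M.val a b)
        (hρ₀ k g)
    rw [h1, h1]
  have hdet : ∀ g, (ρ₀ g).val.det =
      PowerSeries.C ((Φ.toFun (ZMod p)ˣ δ g : (ZMod p)ˣ) : ZMod p) := by
    intro g
    refine th_ext fun k => ?_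
    have h1 : ∀ a b, th k ((ρ₀ g).val a b) = ek σ k ((rep' Φ R₀ (Jk σ k) g).val a b) :=
      fun a b => congrArg (fun M : GL (Fin 2) ((ZMod p)[X] ⧸ Ik (ZMod p) k) => M.val a b)
        (hρ₀ k g)
    rw [Matrix.det_fin_two, map_sub, map_mul, map_mul, h1, h1, h1, h1, ← map_mul, ← map_mul,
      ← map_sub, ← Matrix.det_fin_two, det_rep' Φ R₀ δ hU.det, AlgHom.commutes,
      ← Polynomial.coe_C, th_coe]
    rfl
  let ρΩ : Λ →* GL (Fin 2) Ω :=
    (Matrix.GeneralLinearGroup.map (algebraMap (PowerSeries (ZMod p)) Ω)).comp ρ₀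
  let iK : ZMod p →+* K := (algebraMap (B ⧸ prime0 ev σ) K).comp
    ((Ideal.Quotient.mk (prime0 ev σ)).comp (algebraMap (ZMod p) B))
  let δK : Λ →* Kˣ := (Units.map iK.toMonoidHom).comp (Φ.toFun (ZMod p)ˣ δ)
  have hδK : ∀ g, ((δK g : Kˣ) : K) = iK ((Φ.toFun (ZMod p)ˣ δ g : (ZMod p)ˣ) : ZMod p) :=
    fun g => rfl
  have hnc : ∀ z : B ⧸ prime0 ev σ, ∀ c : ZMod p, iK c = algebraMap _ K z →
      z = Ideal.Quotient.mk _ (algebraMap (ZMod p) B c) := by
    intro z c hz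
    apply IsFractionRing.injective (B ⧸ prime0 ev σ) K
    rw [← hz]
    rfl
  -- an element whose trace is not integral
  obtain ⟨l₀, hl₀⟩ : ∃ l₀, 1 < v (Tb l₀) := by
    by_contra hno
    push Not at hno
    have hall : ∀ b : B, v (algebraMap (B ⧸ prime0 ev σ) K (Ideal.Quotient.mk _ b)) ≤ 1 := by
      intro b
      have hb : b ∈ Algebra.adjoin (ZMod p) (Set.range T) := by
        rw [hTgen]; exact Algebra.mem_top
      induction hb using Algebra.adjoin_induction with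
      | mem b hb =>
        obtain ⟨g, rfl⟩ := hb
        exact hno g
      | algebraMap c => exact val_F_le_one iK v c
      | add a b _ _ ha hb =>
        rw [map_add, map_add]
        exact (Valuation.map_add v _ _).trans (max_le ha hb)
      | mul a b _ _ ha hb =>
        rw [map_mul, map_mul, map_mul]
        exact mul_le_one' ha hb
    obtain ⟨a, ha⟩ := hσ X
    obtain ⟨b, hb⟩ := hB.surj (Jk σ 2) (Ideal.Quotient.mk _ a)
    obtain ⟨c, hc⟩ := hconst b (hall b)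
    have h1 : ev (Jk σ 2) (b - algebraMap (ZMod p) B c) = 0 := prime0_le σ 2 hc
    rw [map_sub, AlgHom.commutes, hb, sub_eq_zero] at h1
    have h2 : Ideal.Quotient.mk (Jk σ 2).1 a =
      Ideal.Quotient.mk (Jk σ 2).1 (algebraMap (ZMod p) A c) := h1
    rw [Ideal.Quotient.eq, mem_Jk, map_sub, ha, AlgHom.commutes, Polynomial.X_pow_dvd_iff] at h2
    have h4 := h2 1 (by norm_num)
    rw [coeff_sub, coeff_X_one, Polynomial.algebraMap_eq, coeff_C, if_neg one_ne_zero,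
      sub_zero] at h4
    exact one_ne_zero h4
  -- a commutator with trace different from 2
  have : Finite (A ⧸ (Jk σ 1).1) := (Jk σ 1).2
  obtain ⟨g₁, hg₁⟩ := exists_of_range Φ
    ((Matrix.GeneralLinearGroup.map (Ideal.Quotient.mk (Jk σ 1).1)).comp R₀) g₀
  obtain ⟨h₁, hh₁⟩ := exists_of_range Φ
    ((Matrix.GeneralLinearGroup.map (Ideal.Quotient.mk (Jk σ 1).1)).comp R₀) h₀
  have hcomm : Tb (g₁ * h₁ * g₁⁻¹ * h₁⁻¹) ≠ 2 := by
    intro h1
    have h2 : T (g₁ * h₁ * g₁⁻¹ * h₁⁻¹) - algebraMap (ZMod p) B 2 ∈ prime0 ev σ := by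
      rw [← Ideal.Quotient.eq]
      apply hnc
      rw [map_ofNat]
      exact h1.symm
    have h3 : ev (Jk σ 1) (T (g₁ * h₁ * g₁⁻¹ * h₁⁻¹) - algebraMap (ZMod p) B 2) = 0 :=
      prime0_le σ 1 h2
    rw [map_sub, AlgHom.commutes, hT, sub_eq_zero] at h3
    apply hgh
    have h4 : rep' Φ R₀ (Jk σ 1) (g₁ * h₁ * g₁⁻¹ * h₁⁻¹) =
        (Matrix.GeneralLinearGroup.map (Ideal.Quotient.mk (Jk σ 1).1)).comp R₀
          (g₀ * h₀ * g₀⁻¹ * h₀⁻¹) := by
      rw [map_mul, map_mul, map_mul, map_inv, map_inv]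
      rw [map_mul, map_mul, map_mul, map_inv, map_inv, ← hg₁, ← hh₁]
      rfl
    rw [h4] at h3
    have h5 : Ideal.Quotient.mk (Jk σ 1).1 (R₀ (g₀ * h₀ * g₀⁻¹ * h₀⁻¹)).val.trace =
        Ideal.Quotient.mk (Jk σ 1).1 (algebraMap (ZMod p) A 2) := by
      refine Eq.trans ?_ h3
      rw [Matrix.trace_fin_two, Matrix.trace_fin_two, map_add]
      rfl
    rw [Ideal.Quotient.eq, mem_Jk_one, map_sub, AlgHom.commutes, eval_sub, sub_eq_zero] at h5
    rw [h5, Polynomial.algebraMap_eq, eval_C]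
  have h2K : (2 : K) ≠ 0 := by
    intro h1
    have h3 : Ideal.Quotient.mk (prime0 ev σ) 0 =
        Ideal.Quotient.mk (prime0 ev σ) (algebraMap (ZMod p) B 2) := by
      apply hnc
      rw [map_ofNat, h1, map_zero, map_zero]
    rw [Ideal.Quotient.eq] at h3
    have h4 : ev (Jk σ 1) (0 - algebraMap (ZMod p) B 2) = 0 := prime0_le σ 1 h3
    rw [map_sub, AlgHom.commutes, map_zero, zero_sub, neg_eq_zero] at h4
    have h5 : algebraMap (ZMod p) (A ⧸ (Jk σ 1).1) 2 =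
        algebraMap (ZMod p) (A ⧸ (Jk σ 1).1) 0 := by
      rw [h4, map_zero]
    have h6 : (2 : ZMod p) = 0 := algebraMap_inj σ h5
    have h7 : ((2 : ℕ) : ZMod p) = 0 := by exact_mod_cast h6
    rw [ZMod.natCast_eq_zero_iff, Nat.dvd_prime Nat.prime_two] at h7
    rcases h7 with h7 | h7
    · exact (Fact.out : p.Prime).one_lt.ne' h7
    · exact h2 h7
  obtain ⟨L, _, _, w, ρ, hw, hwv, htrL, hdetL⟩ := exists_fieldRep (K := K) (Ω := Ω) h2K v hv
    ρΩ δK (fun g => by rw [hδK]; exact val_le_one iK v (Units.ne_zero _))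
    (fun g => by
      have h1 : (ρΩ g).val =
        (algebraMap (PowerSeries (ZMod p)) Ω).mapMatrix (ρ₀ g).val := rfl
      rw [h1, ← RingHom.map_det, hdet, hδK]
      show _ = algebraMap K Ω (algebraMap (B ⧸ prime0 ev σ) K (Ideal.Quotient.mk _ _))
      rw [hj]
      congr 1
      refine th_ext fun k => ?_
      rw [hβ, AlgHom.commutes, AlgHom.commutes, ← Polynomial.coe_C, th_coe]
      rfl) Tb (fun g => by
      rw [hj, ← htr]
      show ((ρ₀ g).val.map (algebraMap (PowerSeries (ZMod p)) Ω)).trace = _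
      rw [Matrix.trace_fin_two, Matrix.trace_fin_two, map_add]
      rfl) l₀ hl₀ g₁ h₁ hcomm
  -- the action on the tree
  have hGw : ∀ g, ρ g ∈ Gw w := by
    intro g
    show w (ρ g).val.det = 1
    rw [hdetL, hδK]
    exact val_le_one ((algebraMap K L).comp iK) w (Units.ne_zero _)
  let φ : Λ →* Gw w := ρ.codRestrict (Gw w) hGw
  obtain ⟨V, hVact, X, ty, hne, hX, htrace, _⟩ := Pool.Agent.PSL2Z.exists_tree w hw
  let _ : MulAction Λ V := MulAction.compHom V φ
  have hsm : ∀ (g : Λ) (v : V), g • v = φ g • v := fun g v => rfl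
  refine ⟨V, inferInstance, X, ty, hne, ⟨hX.tree, ?_, ?_, hX.ty_adj⟩, ?_⟩
  · intro g u z huz
    exact hX.adj (φ g) u z huz
  · intro g u
    exact hX.ty_smul (φ g) u
  · intro g u hgu
    have h1 := htrace (φ g) u hgu
    have h3 : w (algebraMap K L (Tb g)) ≤ 1 := by
      rw [← htrL]
      exact h1
    exact hconst (T g) (hwv _ h3)

end Pool.Agent.CC
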