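import Pool.Agent.Lib.MP_305fdd_al.CC.Defs
import Pool.Agent.Lib.MP_305fdd_al.CC.PChar

/-!
# MP_305fdd_al, free products `C_a * C_b`, piece Q14: the rational points of the component

All rational points of the line of type `({1, μ}, {1, ν})` lie on the component `B/P`; so the
elements of the vertex groups are killed by `ψ₁` or by `ψ₂`.
-/

set_option autoImplicit false

namespace Pool.Agent.CC

open Polynomial Pool.Agent.Lib.MP_305fdd_al Pool.Agent.MP_305fdd_al
open Pool.Agent.PSL2Z (TreeAct zet Z1 Fix edges Gw)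
open scoped WithZero nonZeroDivisors

namespace Points

section algebra

variable {p : ℕ} [Fact p.Prime]

/-- an `F`-algebra with `p` elements is `F` -/
theorem bij_of_card {R : Type} [CommRing R] [Algebra (ZMod p) R] (hR : Nat.card R = p) :
    Function.Bijective (algebraMap (ZMod p) R) := by
  have hp := (Fact.out : p.Prime)
  have : Finite R := Nat.finite_of_card_ne_zero (by rw [hR]; exact hp.ne_zero)
  have : Nontrivial R := Finite.one_lt_card_iff_nontrivial.1 (by rw [hR]; exact hp.one_lt)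
  rw [Nat.bijective_iff_injective_and_card]
  exact ⟨(algebraMap (ZMod p) R).injective, by rw [hR, Nat.card_zmod]⟩

variable {A : Type} [CommRing A] [Algebra (ZMod p) A]

theorem exists_val (J : Ideal A) (hJ : Nat.card (A ⧸ J) = p) :
    ∃ φ : A →ₐ[ZMod p] ZMod p, RingHom.ker φ = J := by
  have hb : Function.Bijective (Algebra.ofId (ZMod p) (A ⧸ J)) := bij_of_card hJ
  let e : ZMod p ≃ₐ[ZMod p] A ⧸ J := AlgEquiv.ofBijective (Algebra.ofId (ZMod p) (A ⧸ J)) hb
  refine ⟨(e.symm : (A ⧸ J) →ₐ[ZMod p] ZMod p).comp (Ideal.Quotient.mkₐ (ZMod p) J), ?_⟩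
  ext a
  rw [RingHom.mem_ker, AlgHom.comp_apply]
  show e.symm (Ideal.Quotient.mk J a) = 0 ↔ a ∈ J
  rw [EmbeddingLike.map_eq_zero_iff, Ideal.Quotient.eq_zero_iff_mem]

theorem sub_mem_ker (φ : A →ₐ[ZMod p] ZMod p) (a : A) (c : ZMod p) :
    a - algebraMap (ZMod p) A c ∈ RingHom.ker φ ↔ φ a = c := by
  rw [RingHom.mem_ker, map_sub, AlgHom.commutes, sub_eq_zero, Algebra.algebraMap_self_apply]

theorem card_ker (φ : A →ₐ[ZMod p] ZMod p) : Nat.card (A ⧸ RingHom.ker φ) = p := by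
  have hs : Function.Surjective φ := fun c => ⟨algebraMap (ZMod p) A c, by
    rw [AlgHom.commutes, Algebra.algebraMap_self_apply]⟩
  refine Eq.trans ?_ (Nat.card_zmod p)
  exact Nat.card_congr (Ideal.quotientKerAlgEquivOfSurjective hs).toEquiv

theorem mk_ker (φ : A →ₐ[ZMod p] ZMod p) (a : A) :
    Ideal.Quotient.mk (RingHom.ker φ) a = algebraMap (ZMod p) _ (φ a) := by
  have h1 : algebraMap (ZMod p) (A ⧸ RingHom.ker φ) (φ a) =
      Ideal.Quotient.mk (RingHom.ker φ) (algebraMap (ZMod p) A (φ a)) := rfl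
  rw [h1, Ideal.Quotient.eq, sub_mem_ker]

end algebra

section uniq

variable {p : ℕ} [Fact p.Prime] {Γ : Type} [Group Γ] {x y : Γ} {δ : Γ →* (ZMod p)ˣ} {A : Type}
  [CommRing A] [Algebra (ZMod p) A] {R₀ : Γ →* GL (Fin 2) A}

/-- a rational point is determined by the traces of `x`, `y`, `xy` -/
theorem eq_of_traces (hgen : Subgroup.closure ({x, y} : Set Γ) = ⊤) (hU : IsUniv δ R₀)
    (J J' : Ideal A) (hJ : Nat.card (A ⧸ J) = p) (hJ' : Nat.card (A ⧸ J') = p)
    (cx cy cxy : ZMod p)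
    (hx : (R₀ x).val.trace - algebraMap (ZMod p) A cx ∈ J)
    (hx' : (R₀ x).val.trace - algebraMap (ZMod p) A cx ∈ J')
    (hy : (R₀ y).val.trace - algebraMap (ZMod p) A cy ∈ J)
    (hy' : (R₀ y).val.trace - algebraMap (ZMod p) A cy ∈ J')
    (hxy : (R₀ (x * y)).val.trace - algebraMap (ZMod p) A cxy ∈ J)
    (hxy' : (R₀ (x * y)).val.trace - algebraMap (ZMod p) A cxy ∈ J') : J = J' := by
  obtain ⟨φ, rfl⟩ := exists_val J hJ
  obtain ⟨φ', rfl⟩ := exists_val J' hJ'
  rw [sub_mem_ker] at hx hx' hy hy' hxy hxy'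
  have h0 : PChar δ (fun g => (R₀ g).val.trace) := PChar.of_rep R₀ δ hU.det
  have h1 := PChar.unique hgen (h0.map φ) (h0.map φ') (hx.trans hx'.symm) (hy.trans hy'.symm)
    (hxy.trans hxy'.symm)
  have h2 : φ = φ' := by
    apply AlgHom.ext_of_adjoin_eq_top hU.gen
    rintro _ ⟨g, rfl⟩
    exact congrFun h1 g
  rw [h2]

end uniq

section count

variable {p : ℕ} [Fact p.Prime] {A B : Type} [CommRing A] [Algebra (ZMod p) A]
    [CommRing B] [Algebra (ZMod p) B]
    {ev : ∀ J : {J : Ideal A // Finite (A ⧸ J)}, B →ₐ[ZMod p] A ⧸ J.1}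

/-- `B/ker ev_J = A/J` -/
theorem card_quot_ker (hB : IsTR p A B ev) (J : {J : Ideal A // Finite (A ⧸ J)}) :
    Nat.card (B ⧸ RingHom.ker (ev J)) = Nat.card (A ⧸ J.1) :=
  Nat.card_congr (Ideal.quotientKerAlgEquivOfSurjective (hB.surj J)).toEquiv

/-- the rational points of the component `B/P` -/
abbrev Pts (ev : ∀ J : {J : Ideal A // Finite (A ⧸ J)}, B →ₐ[ZMod p] A ⧸ J.1) (P : Ideal B) :
    Type :=
  {J : {J : Ideal A // Finite (A ⧸ J)} // Nat.card (A ⧸ J.1) = p ∧ P ≤ RingHom.ker (ev J)}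

theorem card_comap (P : Ideal B) (I : Ideal (B ⧸ P)) :
    Nat.card (B ⧸ Ideal.comap (Ideal.Quotient.mk P) I) = Nat.card ((B ⧸ P) ⧸ I) := by
  have e1 := RingHom.quotientKerEquivOfSurjective
    (f := (Ideal.Quotient.mk I).comp (Ideal.Quotient.mk P))
    (Ideal.Quotient.mk_surjective.comp Ideal.Quotient.mk_surjective)
  refine Nat.card_congr (RingEquiv.toEquiv ((Ideal.quotEquivOfEq ?_).trans e1))
  ext b
  rw [Ideal.mem_comap, RingHom.mem_ker, RingHom.comp_apply, Ideal.Quotient.eq_zero_iff_mem]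

/-- the number of rational points of the component is the number of ideals of index `p` -/
theorem card_pts (hB : IsTR p A B ev) (P : Ideal B) :
    Nat.card (Pts ev P) = Nat.card {I : Ideal (B ⧸ P) // Nat.card ((B ⧸ P) ⧸ I) = p ^ 1} := by
  have hp := (Fact.out : p.Prime)
  have h1 : ∀ I : {I : Ideal (B ⧸ P) // Nat.card ((B ⧸ P) ⧸ I) = p ^ 1}, ∃ J : Pts ev P,
      Ideal.comap (Ideal.Quotient.mk P) I.1 = RingHom.ker (ev J.1) := by
    rintro ⟨I, hI⟩
    have hc := card_comap P I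
    rw [hI, pow_one] at hc
    have : Finite (B ⧸ Ideal.comap (Ideal.Quotient.mk P) I) :=
      Nat.finite_of_card_ne_zero (by rw [hc]; exact hp.ne_zero)
    obtain ⟨J, hJ⟩ := hB.fin _ this
    refine ⟨⟨J, ?_, ?_⟩, hJ⟩
    · rw [← card_quot_ker hB, ← hJ, hc]
    · rw [← hJ]
      intro b hb
      rw [Ideal.mem_comap, Ideal.Quotient.eq_zero_iff_mem.2 hb]
      exact zero_mem _
  choose g hg using h1
  symm
  refine Nat.card_congr (Equiv.ofBijective g ⟨?_, ?_⟩)
  · intro I I' h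
    have h2 := (hg I).trans ((congrArg (fun J : Pts ev P => RingHom.ker (ev J.1)) h).trans
      (hg I').symm)
    exact Subtype.ext (Ideal.comap_injective_of_surjective _ Ideal.Quotient.mk_surjective h2)
  · rintro ⟨J, hJ, hPJ⟩
    have h2 : Ideal.comap (Ideal.Quotient.mk P) (Ideal.map (Ideal.Quotient.mk P)
        (RingHom.ker (ev J))) = RingHom.ker (ev J) := by
      rw [Ideal.comap_map_of_surjective _ Ideal.Quotient.mk_surjective, ← RingHom.ker_eq_comap_bot,
        Ideal.mk_ker, sup_eq_left.2 hPJ]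
    refine ⟨⟨Ideal.map (Ideal.Quotient.mk P) (RingHom.ker (ev J)), ?_⟩, ?_⟩
    · rw [← card_comap, h2, card_quot_ker hB, hJ, pow_one]
    · apply Subtype.ext
      apply hB.inj
      rw [← hg]
      exact h2

theorem dvd_card_pts (hB : IsTR p A B ev) (P : Ideal B) (hPz : zet p (B ⧸ P) = 1) :
    p ∣ Nat.card (Pts ev P) := by
  have h1 := congrArg (PowerSeries.coeff 1) hPz
  unfold zet at h1
  rw [PowerSeries.coeff_mk, PowerSeries.coeff_one, if_neg one_ne_zero,
    ZMod.natCast_eq_zero_iff] at h1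
  rw [card_pts hB P]
  exact h1

end count

section joint

variable {Γ Λ : Type} [Group Γ] [Group Λ] (Φ : NatBij Γ Λ)

theorem toFun_prod {P Q : Type} [Group P] [Finite P] [Group Q] [Finite Q]
    (α : Γ →* P) (β : Γ →* Q) :
    Φ.toFun (P × Q) (α.prod β) = (Φ.toFun P α).prod (Φ.toFun Q β) := by
  have h1 : Φ.toFun P α = (MonoidHom.fst P Q).comp (Φ.toFun (P × Q) (α.prod β)) := by
    rw [← Φ.nat, MonoidHom.fst_comp_prod]
  have h2 : Φ.toFun Q β = (MonoidHom.snd P Q).comp (Φ.toFun (P × Q) (α.prod β)) := by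
    rw [← Φ.nat, MonoidHom.snd_comp_prod]
  ext l
  · rw [h1]; rfl
  · rw [h2]; rfl

/-- joint values of transported homomorphisms are joint values of the homomorphisms -/
theorem joint {P Q : Type} [Group P] [Finite P] [Group Q] [Finite Q]
    (α : Γ →* P) (β : Γ →* Q) (l : Λ) :
    ∃ g : Γ, α g = Φ.toFun P α l ∧ β g = Φ.toFun Q β l := by
  have h2 := Φ.range_eq (α.prod β)
  have h3 : Φ.toFun (P × Q) (α.prod β) l ∈ (α.prod β).range := by
    rw [← h2]; exact ⟨l, rfl⟩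
  obtain ⟨g, hg⟩ := h3
  rw [toFun_prod] at hg
  exact ⟨g, congrArg Prod.fst hg, congrArg Prod.snd hg⟩

end joint

section values

variable {p : ℕ} [Fact p.Prime] {Γ Λ : Type} [Group Γ] [Group Λ] (Φ : NatBij Γ Λ)
    {A B : Type} [CommRing A] [Algebra (ZMod p) A] (R₀ : Γ →* GL (Fin 2) A)
    [CommRing B] [Algebra (ZMod p) B]
    {ev : ∀ J : {J : Ideal A // Finite (A ⧸ J)}, B →ₐ[ZMod p] A ⧸ J.1}

theorem trace_map {R : Type} [CommRing R] (f : A →+* R) (M : GL (Fin 2) A) :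
    (Matrix.GeneralLinearGroup.map f M).val.trace = f M.val.trace := by
  rw [Matrix.trace_fin_two, Matrix.trace_fin_two, map_add]
  rfl

theorem trace_conj {R : Type} [CommRing R] (M N : GL (Fin 2) R) :
    (M * N * M⁻¹).val.trace = N.val.trace := by
  rw [Units.val_mul, Units.val_mul, Matrix.trace_mul_comm, ← mul_assoc, ← Units.val_mul,
    inv_mul_cancel, Units.val_one, one_mul]

/-- the value of the trace of `z` at two points of the component agree -/
theorem common_value (T : Λ → B) (hT : ∀ J g, ev J (T g) = (rep' Φ R₀ J g).val.trace)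
    (P : Ideal B) (J J' : {J : Ideal A // Finite (A ⧸ J)}) (hJ : P ≤ RingHom.ker (ev J))
    (hJ' : P ≤ RingHom.ker (ev J')) {V : Type} [MulAction Λ V]
    (hV : ∀ (g : Λ) (v : V), g • v = v → ∃ c : ZMod p, T g - algebraMap (ZMod p) B c ∈ P)
    (z : Γ) (v : V)
    (hv : ∀ (Q : Type) [Group Q] [Finite Q] (π : Γ →* Q), ∃ h l : Λ, l • v = v ∧
      π z = Φ.toFun Q π h * Φ.toFun Q π l * (Φ.toFun Q π h)⁻¹) :
    ∃ c : ZMod p, (R₀ z).val.trace - algebraMap (ZMod p) A c ∈ J.1 ∧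
      (R₀ z).val.trace - algebraMap (ZMod p) A c ∈ J'.1 := by
  have : Finite (A ⧸ J.1) := J.2
  have : Finite (A ⧸ J'.1) := J'.2
  have i1 : Finite (GL (Fin 2) (A ⧸ J.1)) := inferInstance
  have i2 : Finite (GL (Fin 2) (A ⧸ J'.1)) := inferInstance
  obtain ⟨h, l, hl, hz⟩ := hv (GL (Fin 2) (A ⧸ J.1) × GL (Fin 2) (A ⧸ J'.1))
    (((Matrix.GeneralLinearGroup.map (Ideal.Quotient.mk J.1)).comp R₀).prod
      ((Matrix.GeneralLinearGroup.map (Ideal.Quotient.mk J'.1)).comp R₀))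
  rw [toFun_prod] at hz
  obtain ⟨c, hc⟩ := hV l v hl
  have key : ∀ K : {J : Ideal A // Finite (A ⧸ J)}, P ≤ RingHom.ker (ev K) →
      (Matrix.GeneralLinearGroup.map (Ideal.Quotient.mk K.1) (R₀ z) =
        rep' Φ R₀ K h * rep' Φ R₀ K l * (rep' Φ R₀ K h)⁻¹) →
      (R₀ z).val.trace - algebraMap (ZMod p) A c ∈ K.1 := by
    intro K hK hzK
    have h1 := congrArg (fun M : GL (Fin 2) (A ⧸ K.1) => M.val.trace) hzK
    rw [trace_map, trace_conj, ← hT] at h1
    have h2 := hK hc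
    rw [RingHom.mem_ker, map_sub, AlgHom.commutes, sub_eq_zero, ← h1] at h2
    rw [← Ideal.Quotient.eq]
    exact h2
  exact ⟨c, key J hJ (congrArg Prod.fst hz), key J' hJ' (congrArg Prod.snd hz)⟩

theorem const_unique (J : Ideal A) (hJ : Nat.card (A ⧸ J) = p) (a : A) (c c' : ZMod p)
    (h : a - algebraMap (ZMod p) A c ∈ J) (h' : a - algebraMap (ZMod p) A c' ∈ J) : c = c' := by
  obtain ⟨φ, rfl⟩ := exists_val J hJ
  rw [sub_mem_ker] at h h'
  exact h.symm.trans h'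

end values

end Points

theorem points (D : Dat) {Γ Λ : Type} [Group Γ] [Group Λ] {x y : Γ}
    (h : IsCaCb D.a D.b Γ x y) (Φ : NatBij Γ Λ) {A : Type}
    [CommRing A] [Algebra (ZMod D.p) A] (R₀ : Γ →* GL (Fin 2) A) (hU : IsUniv (del D h) R₀)
    {B : Type} [CommRing B] [Algebra (ZMod D.p) B]
    {ev : ∀ J : {J : Ideal A // Finite (A ⧸ J)}, B →ₐ[ZMod D.p] A ⧸ J.1}
    (hB : IsTR D.p A B ev) (T : Λ → B) (hT : ∀ J g, ev J (T g) = (rep' Φ R₀ J g).val.trace)
    (P : Ideal B) (hPz : zet D.p (B ⧸ P) = 1)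
    -- the base point
    (J₀ : {J : Ideal A // Finite (A ⧸ J)}) (hJ₀ : Nat.card (A ⧸ J₀.1) = D.p)
    (hPJ₀ : P ≤ RingHom.ker (ev J₀))
    (hx₀ : (R₀ x).val.trace - algebraMap (ZMod D.p) A (1 + (D.μ : ZMod D.p)) ∈ J₀.1)
    (hy₀ : (R₀ y).val.trace - algebraMap (ZMod D.p) A (1 + (D.ν : ZMod D.p)) ∈ J₀.1)
    -- `x^`, `y^` are conjugate to elements of vertex groups, which have constant trace
    {V : Type} [MulAction Λ V]
    (hV : ∀ (g : Λ) (v : V), g • v = v → ∃ c : ZMod D.p, T g - algebraMap (ZMod D.p) B c ∈ P)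
    (vx vy : V)
    (hvx : ∀ (Q : Type) [Group Q] [Finite Q] (π : Γ →* Q), ∃ h l : Λ, l • vx = vx ∧
      π x = Φ.toFun Q π h * Φ.toFun Q π l * (Φ.toFun Q π h)⁻¹)
    (hvy : ∀ (Q : Type) [Group Q] [Finite Q] (π : Γ →* Q), ∃ h l : Λ, l • vy = vy ∧
      π y = Φ.toFun Q π h * Φ.toFun Q π l * (Φ.toFun Q π h)⁻¹) :
    -- all rational points with these traces of `x`, `y` are on the component
    ∀ J : {J : Ideal A // Finite (A ⧸ J)}, Nat.card (A ⧸ J.1) = D.p →
      (R₀ x).val.trace - algebraMap (ZMod D.p) A (1 + (D.μ : ZMod D.p)) ∈ J.1 →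
      (R₀ y).val.trace - algebraMap (ZMod D.p) A (1 + (D.ν : ZMod D.p)) ∈ J.1 →
      P ≤ RingHom.ker (ev J) := by
  intro J hJ hxJ hyJ
  have hp := (Fact.out : D.p.Prime)
  -- the traces of `x`, `y` at the points of the component
  have htr : ∀ K : Points.Pts ev P,
      (R₀ x).val.trace - algebraMap (ZMod D.p) A (1 + (D.μ : ZMod D.p)) ∈ K.1.1 ∧
      (R₀ y).val.trace - algebraMap (ZMod D.p) A (1 + (D.ν : ZMod D.p)) ∈ K.1.1 := by
    rintro ⟨K, hK, hPK⟩
    constructor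
    · obtain ⟨c, h1, h2⟩ := Points.common_value Φ R₀ T hT P K J₀ hPK hPJ₀ hV x vx hvx
      rw [Points.const_unique J₀.1 hJ₀ _ _ _ hx₀ h2]
      exact h1
    · obtain ⟨c, h1, h2⟩ := Points.common_value Φ R₀ T hT P K J₀ hPK hPJ₀ hV y vy hvy
      rw [Points.const_unique J₀.1 hJ₀ _ _ _ hy₀ h2]
      exact h1
  have hval : ∀ K : {J : Ideal A // Finite (A ⧸ J)}, Nat.card (A ⧸ K.1) = D.p →
      ∃ s : ZMod D.p, (R₀ (x * y)).val.trace - algebraMap (ZMod D.p) A s ∈ K.1 := by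
    rintro ⟨K, hK⟩ hcK
    obtain ⟨φ, rfl⟩ := Points.exists_val K hcK
    exact ⟨_, (Points.sub_mem_ker φ _ _).2 rfl⟩
  choose s hs using fun K : Points.Pts ev P => hval K.1 K.2.1
  have hinj : Function.Injective s := by
    intro K K' hKK
    apply Subtype.ext
    apply Subtype.ext
    refine Points.eq_of_traces h.gen hU K.1.1 K'.1.1 K.2.1 K'.2.1 _ _ (s K) (htr K).1 (htr K').1
      (htr K).2 (htr K').2 (hs K) ?_
    rw [hKK]
    exact hs K'
  have hfin : Finite (Points.Pts ev P) := Finite.of_injective s hinj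
  have hle : Nat.card (Points.Pts ev P) ≤ D.p := by
    have := Nat.card_le_card_of_injective s hinj
    rwa [Nat.card_zmod] at this
  have hpos : 0 < Nat.card (Points.Pts ev P) := by
    have : Nonempty (Points.Pts ev P) := ⟨⟨J₀, hJ₀, hPJ₀⟩⟩
    exact Nat.card_pos
  have hcard : Nat.card (Points.Pts ev P) = D.p :=
    le_antisymm hle (Nat.le_of_dvd hpos (Points.dvd_card_pts hB P hPz))
  have hbij : Function.Bijective s := by
    rw [Nat.bijective_iff_injective_and_card]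
    exact ⟨hinj, by rw [hcard, Nat.card_zmod]⟩
  obtain ⟨t, ht⟩ := hval J hJ
  obtain ⟨K, hK⟩ := hbij.2 t
  have h1 : J.1 = K.1.1 := by
    refine Points.eq_of_traces h.gen hU J.1 K.1.1 hJ K.2.1 _ _ t hxJ (htr K).1
      hyJ (htr K).2 ht ?_
    rw [← hK]
    exact hs K
  rw [Subtype.ext h1]
  exact K.2.2

namespace Points

/-- sums of two characters are pseudo-characters -/
theorem pchar_add {F : Type} [Field F] {G : Type} [Group G] {δ : G →* Fˣ} (α β : G →* Fˣ)
    (h : ∀ g, δ g = α g * β g) : PChar δ (R := F) (fun g => (α g : F) + (β g : F)) := by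
  constructor
  · rw [map_one, map_one, Units.val_one]
    norm_num
  · intro g k
    rw [map_mul, map_mul, map_mul, map_mul, mul_comm (α g), mul_comm (β g)]
  · intro g k
    rw [Algebra.algebraMap_self_apply, h k, map_mul, map_mul, map_mul, map_mul, map_inv, map_inv,
      Units.val_mul, Units.val_mul, Units.val_mul, Units.val_mul, Units.val_mul]
    have h1 : (α k : F) * ((α k)⁻¹ : Fˣ) = 1 := by
      rw [← Units.val_mul, mul_inv_cancel, Units.val_one]
    have h2 : (β k : F) * ((β k)⁻¹ : Fˣ) = 1 := by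
      rw [← Units.val_mul, mul_inv_cancel, Units.val_one]
    linear_combination ((α g : F) * (β k : F)) * h1 + ((β g : F) * (α k : F)) * h2

variable (D : Dat) {Γ : Type} [Group Γ] {x y : Γ} (h : IsCaCb D.a D.b Γ x y)

theorem del_x : del D h x = D.μ := toHom_x h _ _ _ _
theorem del_y : del D h y = D.ν := toHom_y h _ _ _ _
theorem psi1_x : psi1 D h x = 1 := toHom_x h _ _ _ _
theorem psi1_y : psi1 D h y = D.ν := toHom_y h _ _ _ _
theorem psi2_x : psi2 D h x = D.μ := toHom_x h _ _ _ _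
theorem psi2_y : psi2 D h y = 1 := toHom_y h _ _ _ _

theorem del_eq : del D h = psi1 D h * psi2 D h := by
  apply hom_ext h
  · rw [MonoidHom.mul_apply, del_x, psi1_x, psi2_x, one_mul]
  · rw [MonoidHom.mul_apply, del_y, psi1_y, psi2_y, mul_one]

/-- the trace of `Λ` at a rational point whose trace is a sum of two characters -/
theorem trace_point {p : ℕ} [Fact p.Prime] {Λ : Type} [Group Λ] (Φ : NatBij Γ Λ)
    {A : Type} [CommRing A] [Algebra (ZMod p) A] (R₀ : Γ →* GL (Fin 2) A)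
    (φ : A →ₐ[ZMod p] ZMod p) (α β : Γ →* (ZMod p)ˣ)
    (hφ : ∀ g, φ (R₀ g).val.trace = (α g : ZMod p) + (β g : ZMod p))
    (hfin : Finite (A ⧸ RingHom.ker φ)) (l : Λ) :
    (rep' Φ R₀ ⟨RingHom.ker φ, hfin⟩ l).val.trace =
      algebraMap (ZMod p) _ ((Φ.toFun _ α l : ZMod p) + (Φ.toFun _ β l : ZMod p)) := by
  have i1 : Finite (GL (Fin 2) (A ⧸ RingHom.ker φ)) := inferInstance
  obtain ⟨g, h1, h2⟩ := joint Φ ((Matrix.GeneralLinearGroup.map
    (Ideal.Quotient.mk (RingHom.ker φ))).comp R₀) (α.prod β) l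
  rw [toFun_prod] at h2
  have h3 : α g = Φ.toFun _ α l := congrArg Prod.fst h2
  have h4 : β g = Φ.toFun _ β l := congrArg Prod.snd h2
  have h5 : rep' Φ R₀ ⟨RingHom.ker φ, hfin⟩ l = (Matrix.GeneralLinearGroup.map
    (Ideal.Quotient.mk (RingHom.ker φ))) (R₀ g) := h1.symm
  rw [h5, ← h3, ← h4, ← hφ, trace_map, mk_ker]

end Points

/-- consequently a fixed element of a vertex is killed by `ψ₁` or by `ψ₂` -/
theorem psi_mul (D : Dat) {Γ Λ : Type} [Group Γ] [Group Λ] {x y : Γ}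
    (h : IsCaCb D.a D.b Γ x y) (Φ : NatBij Γ Λ) {A : Type}
    [CommRing A] [Algebra (ZMod D.p) A] (R₀ : Γ →* GL (Fin 2) A) (hU : IsUniv (del D h) R₀)
    {B : Type} [CommRing B] [Algebra (ZMod D.p) B]
    {ev : ∀ J : {J : Ideal A // Finite (A ⧸ J)}, B →ₐ[ZMod D.p] A ⧸ J.1}
    (T : Λ → B) (hT : ∀ J g, ev J (T g) = (rep' Φ R₀ J g).val.trace) (P : Ideal B)
    (hP : ∀ J : {J : Ideal A // Finite (A ⧸ J)}, Nat.card (A ⧸ J.1) = D.p →
      (R₀ x).val.trace - algebraMap (ZMod D.p) A (1 + (D.μ : ZMod D.p)) ∈ J.1 →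
      (R₀ y).val.trace - algebraMap (ZMod D.p) A (1 + (D.ν : ZMod D.p)) ∈ J.1 →
      P ≤ RingHom.ker (ev J))
    (g : Λ) (hg : ∃ c : ZMod D.p, T g - algebraMap (ZMod D.p) B c ∈ P) :
    Φ.toFun _ (psi1 D h) g = 1 ∨ Φ.toFun _ (psi2 D h) g = 1 := by
  have hp := (Fact.out : D.p.Prime)
  obtain ⟨c, hc⟩ := hg
  -- a rational point with trace `α + β`
  have key : ∀ α β : Γ →* (ZMod D.p)ˣ, (∀ g, del D h g = α g * β g) →
      (α x : ZMod D.p) + (β x : ZMod D.p) = 1 + (D.μ : ZMod D.p) →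
      (α y : ZMod D.p) + (β y : ZMod D.p) = 1 + (D.ν : ZMod D.p) →
      c = (Φ.toFun _ α g : ZMod D.p) + (Φ.toFun _ β g : ZMod D.p) := by
    intro α β hαβ hx hy
    obtain ⟨φ, hφ⟩ := hU.univ (ZMod D.p) _ (Points.pchar_add α β hαβ)
    have hcard := Points.card_ker φ
    have hfin : Finite (A ⧸ RingHom.ker φ) :=
      Nat.finite_of_card_ne_zero (by rw [hcard]; exact hp.ne_zero)
    have h1 := hP ⟨RingHom.ker φ, hfin⟩ hcard
      ((Points.sub_mem_ker φ _ _).2 ((hφ x).trans hx))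
      ((Points.sub_mem_ker φ _ _).2 ((hφ y).trans hy))
    have h2 := h1 hc
    rw [RingHom.mem_ker, map_sub, AlgHom.commutes, sub_eq_zero, hT,
      Points.trace_point Φ R₀ φ α β hφ hfin g] at h2
    exact ((Points.bij_of_card hcard).1 h2).symm
  have h1 := key 1 (del D h) (fun g => by rw [MonoidHom.one_apply, one_mul])
    (by rw [MonoidHom.one_apply, Points.del_x, Units.val_one])
    (by rw [MonoidHom.one_apply, Points.del_y, Units.val_one])
  have h2 := key (psi1 D h) (psi2 D h) (fun g => by rw [Points.del_eq, MonoidHom.mul_apply])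
    (by rw [Points.psi1_x, Points.psi2_x, Units.val_one])
    (by rw [Points.psi1_y, Points.psi2_y, Units.val_one, add_comm])
  rw [Φ.one, MonoidHom.one_apply, Units.val_one] at h1
  have h3 : (Φ.toFun _ (del D h) g : ZMod D.p) =
      (Φ.toFun _ (psi1 D h) g : ZMod D.p) * (Φ.toFun _ (psi2 D h) g : ZMod D.p) := by
    obtain ⟨k, h4, h5⟩ := Points.joint Φ (del D h) ((psi1 D h).prod (psi2 D h)) g
    rw [Points.toFun_prod] at h5
    have h6 : psi1 D h k = Φ.toFun _ (psi1 D h) g := congrArg Prod.fst h5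
    have h7 : psi2 D h k = Φ.toFun _ (psi2 D h) g := congrArg Prod.snd h5
    rw [← h4, ← h6, ← h7, Points.del_eq, MonoidHom.mul_apply, Units.val_mul]
  have h4 : ((Φ.toFun _ (psi1 D h) g : ZMod D.p) - 1) *
      ((Φ.toFun _ (psi2 D h) g : ZMod D.p) - 1) = 0 := by
    linear_combination h2 - h1 - h3
  rcases mul_eq_zero.1 h4 with h5 | h5
  · left
    exact Units.ext (sub_eq_zero.1 h5)
  · right
    exact Units.ext (sub_eq_zero.1 h5)

end Pool.Agent.CC
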