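import Pool.Agent.Lib.MP_305fdd_al.CC.Defs

/-!
# MP_305fdd_al: fixed points of elements of finite order on profinite trees (Smith theory)
-/

set_option autoImplicit false

namespace Pool.Agent.CC

namespace Smith

/-- the norm of a function for the iterates of `w` -/
def nm {S : Type} (q : ℕ) (w : S → S) (f : S → ZMod q) (s : S) : ZMod q :=
  ∑ i ∈ Finset.range q, f (w^[i] s)

section norm

variable {S : Type} {q : ℕ} {w : S → S}

theorem nm_map (hw : w^[q] = id) (f : S → ZMod q) (s : S) :
    nm q w f (w s) = nm q w f s := by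
  unfold nm
  have h1 : ∑ i ∈ Finset.range q, f (w^[i] (w s)) = ∑ i ∈ Finset.range q, f (w^[i + 1] s) := by
    simp only [Function.iterate_succ_apply]
  have h2 := Finset.sum_range_succ (fun i => f (w^[i] s)) q
  have h3 := Finset.sum_range_succ' (fun i => f (w^[i] s)) q
  have h4 : f (w^[q] s) = f (w^[0] s) := by rw [hw]; rfl
  rw [h1]
  rw [h2] at h3
  rw [h4] at h3
  exact (add_right_cancel h3).symm

theorem nm_comp (hw : w^[q] = id) (f : S → ZMod q) (s : S) :
    nm q w (fun x => f (w x)) s = nm q w f s := by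
  rw [← nm_map hw f s]
  unfold nm
  refine Finset.sum_congr rfl fun i _ => ?_
  simp only
  rw [← Function.iterate_succ_apply, ← Function.iterate_succ_apply' w i s]

theorem nm_fixed (f : S → ZMod q) (s : S) (hs : w s = s) : nm q w f s = 0 := by
  unfold nm
  have h : ∀ i, w^[i] s = s := fun i => Function.iterate_fixed hs i
  simp only [h, Finset.sum_const, Finset.card_range, nsmul_eq_mul, ZMod.natCast_self, zero_mul]

theorem nm_mul_inv (f g : S → ZMod q) (hg : ∀ s, g (w s) = g s) (s : S) :
    nm q w (fun x => g x * f x) s = g s * nm q w f s := by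
  unfold nm
  have h : ∀ i, g (w^[i] s) = g s := by
    intro i
    induction i with
    | zero => rfl
    | succ n ih => rw [Function.iterate_succ_apply', hg, ih]
  simp only [h, Finset.mul_sum]

theorem nm_add (f g : S → ZMod q) (s : S) :
    nm q w (fun x => f x + g x) s = nm q w f s + nm q w g s := Finset.sum_add_distrib

theorem nm_sub (f g : S → ZMod q) (s : S) :
    nm q w (fun x => f x - g x) s = nm q w f s - nm q w g s := Finset.sum_sub_distrib ..

theorem nm_const (c : ZMod q) (s : S) : nm q w (fun _ => c) s = 0 := by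
  unfold nm
  simp

end norm

section lc

variable {S : Type} [TopologicalSpace S] {q : ℕ}

theorem lc_sum {ι : Type} (A : Finset ι) (f : ι → S → ZMod q)
    (hf : ∀ i ∈ A, IsLocallyConstant (f i)) :
    IsLocallyConstant (fun s => ∑ i ∈ A, f i s) := by
  classical
  induction A using Finset.induction_on with
  | empty =>
    simp only [Finset.sum_empty]
    exact IsLocallyConstant.const 0
  | insert a B ha ih =>
    simp only [Finset.sum_insert ha]
    exact (hf a (Finset.mem_insert_self a B)).add
      (ih fun i hi => hf i (Finset.mem_insert_of_mem hi))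

theorem lc_ind {U : Set S} (hU : IsClopen U) (a : ZMod q) :
    IsLocallyConstant (U.indicator (fun _ => a)) := by
  classical
  rw [IsLocallyConstant.iff_eventually_eq]
  intro x
  by_cases hx : x ∈ U
  · filter_upwards [hU.isOpen.mem_nhds hx] with y hy
    rw [Set.indicator_of_mem hy, Set.indicator_of_mem hx]
  · filter_upwards [hU.compl.isOpen.mem_nhds hx] with y hy
    rw [Set.indicator_of_notMem hy, Set.indicator_of_notMem hx]

theorem lc_iter {w : S → S} (hw : Continuous w) {f : S → ZMod q} (hf : IsLocallyConstant f)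
    (i : ℕ) : IsLocallyConstant (fun s => f (w^[i] s)) :=
  hf.comp_continuous (hw.iterate i)

theorem lc_nm {w : S → S} (hw : Continuous w) {f : S → ZMod q} (hf : IsLocallyConstant f) :
    IsLocallyConstant (nm q w f) :=
  lc_sum _ _ fun i _ => lc_iter hw hf i

/-- locally constant functions extend from closed subspaces -/
theorem lc_extend [CompactSpace S] [T2Space S] [TotallyDisconnectedSpace S] [NeZero q]
    {C : Set S} (hC : IsClosed C) (f : C → ZMod q) (hf : IsLocallyConstant f) :
    ∃ F : S → ZMod q, IsLocallyConstant F ∧ ∀ x : C, F x = f x := by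
  classical
  have key : ∀ a : ZMod q, ∃ U : Set S, IsClopen U ∧ (∀ x : C, (x : S) ∈ U ↔ f x = a) := by
    intro a
    have h1 : IsClosed ((↑) '' {x : C | f x = a} : Set S) :=
      (hC.isClosedEmbedding_subtypeVal.isClosed_iff_image_isClosed).1 (hf.isClosed_fiber a)
    have h2 : IsClosed ((↑) '' {x : C | f x ≠ a} : Set S) :=
      (hC.isClosedEmbedding_subtypeVal.isClosed_iff_image_isClosed).1
        (hf.isOpen_fiber a).isClosed_compl
    obtain ⟨U, hU, hU1, hU2⟩ := exists_clopen_of_closed_subset_open h1 h2.isOpen_compl (by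
      rintro _ ⟨x, hx, rfl⟩ ⟨y, hy, hxy⟩
      rw [Subtype.ext hxy] at hy
      exact hy hx)
    refine ⟨U, hU, fun x => ⟨fun hx => ?_, fun hx => hU1 ⟨x, hx, rfl⟩⟩⟩
    by_contra hne
    exact hU2 hx ⟨x, hne, rfl⟩
  choose U hU hU' using key
  refine ⟨fun s => ∑ a : ZMod q, (U a).indicator (fun _ => a) s, lc_sum _ _ fun a _ =>
    lc_ind (hU a) a, fun x => ?_⟩
  change ∑ a : ZMod q, (U a).indicator (fun _ => a) (x : S) = f x
  rw [Finset.sum_eq_single (f x)]
  · rw [Set.indicator_of_mem ((hU' _ x).2 rfl)]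
  · intro b _ hb
    rw [Set.indicator_of_notMem]
    intro h
    exact hb ((hU' b x).1 h).symm
  · intro h
    exact absurd (Finset.mem_univ _) h

end lc

section free

variable {S : Type} [TopologicalSpace S] [CompactSpace S] [T2Space S]
  [TotallyDisconnectedSpace S] {q : ℕ} [hq : Fact q.Prime] {w : S → S}

omit [TopologicalSpace S] [CompactSpace S] [T2Space S] [TotallyDisconnectedSpace S] in
theorem iter_ne (hw : w^[q] = id) {s : S} (hs : w s ≠ s) {k : ℕ} (hk : 0 < k) (hkq : k < q) :
    w^[k] s ≠ s := by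
  intro h
  have h1 : Function.IsPeriodicPt w k s := h
  have h2 : Function.IsPeriodicPt w q s := by
    change w^[q] s = s
    rw [hw]; rfl
  have h3 : Function.IsPeriodicPt w (Nat.gcd k q) s := h1.gcd h2
  have h4 : Nat.gcd k q = 1 := by
    have := (Nat.Prime.coprime_iff_not_dvd hq.out).2 (Nat.not_dvd_of_pos_of_lt hk hkq)
    exact Nat.Coprime.symm this
  rw [h4] at h3
  exact hs h3

/-- a clopen invariant subset without fixed points has a function of norm one -/
theorem exists_norm_one (hwc : Continuous w) (hw : w^[q] = id) {C : Set S} (hC : IsClopen C)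
    (hCw : ∀ s, w s ∈ C ↔ s ∈ C) (hfix : ∀ s ∈ C, w s ≠ s) :
    ∃ c : S → ZMod q, IsLocallyConstant c ∧ ∀ s, nm q w c s = C.indicator (fun _ => 1) s := by
  classical
  have hiter : ∀ (D : Set S), (∀ s, w s ∈ D ↔ s ∈ D) → ∀ (i : ℕ) (s : S), w^[i] s ∈ D ↔ s ∈ D := by
    intro D hD i
    induction i with
    | zero => intro s; rfl
    | succ n ih => intro s; rw [Function.iterate_succ_apply', hD, ih]
  -- the predicate for compactness
  have main : ∃ D : Set S, C ⊆ D ∧ D ⊆ C ∧ IsClopen D ∧ (∀ s, w s ∈ D ↔ s ∈ D) ∧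
      ∃ c : S → ZMod q, IsLocallyConstant c ∧ ∀ s, nm q w c s = D.indicator (fun _ => 1) s := by
    refine hC.isClosed.isCompact.induction_on (p := fun A => ∃ D : Set S, A ⊆ D ∧ D ⊆ C ∧
      IsClopen D ∧ (∀ s, w s ∈ D ↔ s ∈ D) ∧
      ∃ c : S → ZMod q, IsLocallyConstant c ∧ ∀ s, nm q w c s = D.indicator (fun _ => 1) s)
      ?_ ?_ ?_ ?_
    · refine ⟨∅, subset_rfl, Set.empty_subset _, isClopen_empty, fun s => Iff.rfl, fun _ => 0,
        IsLocallyConstant.const 0, fun s => ?_⟩
      rw [nm_const]; simp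
    · rintro A B hAB ⟨D, h1, h2⟩
      exact ⟨D, hAB.trans h1, h2⟩
    · rintro A B ⟨D, h1, h2, h3, h4, c, h5, h6⟩ ⟨D', h1', h2', h3', h4', c', h5', h6'⟩
      refine ⟨D ∪ D', Set.union_subset_union h1 h1', Set.union_subset h2 h2', h3.union h3', ?_,
        fun s => c s + Dᶜ.indicator (fun _ => 1) s * c' s, h5.add ((lc_ind h3.compl 1).mul h5'),
        ?_⟩
      · intro s
        simp only [Set.mem_union, h4, h4']
      · intro s
        rw [nm_add, nm_mul_inv, h6, h6']
        · by_cases hs : s ∈ D
          · simp [hs]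
          · by_cases hs' : s ∈ D'
            · simp [hs, hs']
            · simp [hs, hs']
        · intro s
          by_cases hs : s ∈ D
          · have := (h4 s).2 hs
            simp [hs, this]
          · have : w s ∉ D := fun h => hs ((h4 s).1 h)
            simp [hs, this]
    · intro s hs
      -- a clopen neighbourhood missing the other points of the orbit
      have hfin : IsOpen ((((Finset.Ioo 0 q).image fun k => w^[k] s) : Finset S) : Set S)ᶜ :=
        (Finset.finite_toSet _).isClosed.isOpen_compl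
      have hmem : s ∈ ((((Finset.Ioo 0 q).image fun k => w^[k] s) : Finset S) : Set S)ᶜ := by
        intro h
        rw [Finset.mem_coe, Finset.mem_image] at h
        obtain ⟨k, hk, hks⟩ := h
        rw [Finset.mem_Ioo] at hk
        exact iter_ne hw (hfix s hs) hk.1 hk.2 hks
      obtain ⟨A, hA, hsA, hAsub⟩ := compact_exists_isClopen_in_isOpen hfin hmem
      set W : Set S := (C ∩ A) ∩ ⋂ k ∈ Finset.Ioo 0 q, (w^[k] ⁻¹' A)ᶜ with hW
      have hWclopen : IsClopen W := by
        refine (hC.inter hA).inter ?_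
        exact isClopen_biInter_finset fun k _ => (hA.preimage (hwc.iterate k)).compl
      have hsW : s ∈ W := by
        refine ⟨⟨hs, hsA⟩, ?_⟩
        simp only [Set.mem_iInter]
        intro k hk h
        exact hAsub h (by
          rw [Finset.mem_coe, Finset.mem_image]
          exact ⟨k, hk, rfl⟩)
      have hWk : ∀ y ∈ W, ∀ k, 0 < k → k < q → w^[k] y ∉ W := by
        intro y hy k hk hkq h
        have h1 := hy.2
        simp only [Set.mem_iInter] at h1
        exact h1 k (Finset.mem_Ioo.2 ⟨hk, hkq⟩) h.1.2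
      set D : Set S := ⋃ i ∈ Finset.range q, w^[i] ⁻¹' W with hD
      have hDclopen : IsClopen D :=
        isClopen_biUnion_finset fun i _ => hWclopen.preimage (hwc.iterate i)
      have hmemD : ∀ y, y ∈ D ↔ ∃ i < q, w^[i] y ∈ W := by
        intro y
        simp only [hD, Set.mem_iUnion, Finset.mem_range, Set.mem_preimage, exists_prop]
      have hqpos : 0 < q := hq.out.pos
      have hDw : ∀ y, w y ∈ D ↔ y ∈ D := by
        intro y
        rw [hmemD, hmemD]
        constructor
        · rintro ⟨i, hi, h⟩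
          rw [← Function.iterate_succ_apply] at h
          rcases Nat.lt_or_ge (i + 1) q with h' | h'
          · exact ⟨i + 1, h', h⟩
          · have : i + 1 = q := le_antisymm hi h'
            rw [Nat.succ_eq_add_one, this, hw] at h
            exact ⟨0, hqpos, h⟩
        · rintro ⟨i, hi, h⟩
          rcases Nat.eq_zero_or_pos i with h0 | h0
          · subst h0
            refine ⟨q - 1, by omega, ?_⟩
            rw [← Function.iterate_succ_apply, Nat.succ_eq_add_one, Nat.sub_add_cancel hqpos, hw]
            exact h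
          · refine ⟨i - 1, by omega, ?_⟩
            rw [← Function.iterate_succ_apply, Nat.succ_eq_add_one, Nat.sub_add_cancel h0]
            exact h
      refine ⟨W, mem_nhdsWithin_of_mem_nhds (hWclopen.isOpen.mem_nhds hsW), D, ?_, ?_, hDclopen,
        hDw, W.indicator (fun _ => 1), lc_ind hWclopen 1, ?_⟩
      · intro y hy
        exact (hmemD y).2 ⟨0, hqpos, hy⟩
      · intro y hy
        obtain ⟨i, _, h⟩ := (hmemD y).1 hy
        exact (hiter C hCw i y).1 h.1.1
      · intro y
        by_cases hy : y ∈ D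
        · obtain ⟨i, hi, h⟩ := (hmemD y).1 hy
          unfold nm
          rw [Set.indicator_of_mem hy, Finset.sum_eq_single i]
          · rw [Set.indicator_of_mem h]
          · intro j hj hji
            rw [Finset.mem_range] at hj
            rw [Set.indicator_of_notMem]
            intro h'
            rcases lt_or_gt_of_ne hji with hlt | hlt
            · refine hWk _ h' (i - j) (by omega) (by omega) ?_
              rw [← Function.iterate_add_apply, Nat.sub_add_cancel hlt.le]
              exact h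
            · refine hWk _ h (j - i) (by omega) (by omega) ?_
              rw [← Function.iterate_add_apply, Nat.sub_add_cancel hlt.le]
              exact h'
          · intro h'
            exact absurd (Finset.mem_range.2 hi) h'
        · unfold nm
          rw [Set.indicator_of_notMem hy]
          refine Finset.sum_eq_zero fun i hi => ?_
          rw [Set.indicator_of_notMem]
          intro h
          exact hy ((hmemD y).2 ⟨i, Finset.mem_range.1 hi, h⟩)
  obtain ⟨D, h1, h2, _, _, h⟩ := main
  have : D = C := Set.Subset.antisymm h2 h1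
  rw [this] at h
  exact h

end free

section smith

variable {S₀ S₁ : Type} [TopologicalSpace S₀] [TopologicalSpace S₁] {o t : S₁ → S₀}

theorem const_of_d (hS : PTree o t) {q : ℕ} {v : S₀ → ZMod q} (hv : IsLocallyConstant v)
    (h : ∀ e, v (o e) = v (t e)) (s s' : S₀) : v s = v s' := by
  have hU : IsClopen {x | v x = v s} := ⟨hv.isClosed_fiber _, hv.isOpen_fiber _⟩
  rcases hS.conn {x | v x = v s} hU (fun e => by simp only [Set.mem_ofPred_eq, h e]) with h1 | h1
  · have h2 : s ∈ {x | v x = v s} := rfl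
    rw [h1] at h2
    exact h2.elim
  · have h2 : s' ∈ {x | v x = v s} := by rw [h1]; trivial
    exact h2.symm

variable {w₀ : S₀ → S₀} {w₁ : S₁ → S₁} {q : ℕ}

omit [TopologicalSpace S₀] [TopologicalSpace S₁] in
theorem iter_o {p : S₁ → S₀} (hp : ∀ e, p (w₁ e) = w₀ (p e)) (i : ℕ) (e : S₁) :
    p (w₁^[i] e) = w₀^[i] (p e) := by
  induction i with
  | zero => rfl
  | succ n ih => rw [Function.iterate_succ_apply', Function.iterate_succ_apply', hp, ih]

omit [TopologicalSpace S₀] [TopologicalSpace S₁] in
theorem nm_o {p : S₁ → S₀} (hp : ∀ e, p (w₁ e) = w₀ (p e)) (f : S₀ → ZMod q) (e : S₁) :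
    nm q w₁ (fun e => f (p e)) e = nm q w₀ f (p e) := by
  unfold nm
  refine Finset.sum_congr rfl fun i _ => ?_
  change f (p (w₁^[i] e)) = f (w₀^[i] (p e))
  rw [iter_o hp]

variable [CompactSpace S₀] [T2Space S₀] [TotallyDisconnectedSpace S₀]
  [CompactSpace S₁] [T2Space S₁] [TotallyDisconnectedSpace S₁] [hq : Fact q.Prime]

theorem fixed_nonempty (ho : Continuous o) (ht : Continuous t)
    (hS : PTree o t) (hw₀ : Continuous w₀) (hw₁ : Continuous w₁)
    (how : ∀ e, o (w₁ e) = w₀ (o e)) (htw : ∀ e, t (w₁ e) = w₀ (t e))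
    (hq₀ : w₀^[q] = id) (hq₁ : w₁^[q] = id) : ∃ s, w₀ s = s := by
  by_contra hne
  push Not at hne
  obtain ⟨u, hu, hNu⟩ := exists_norm_one (q := q) hw₀ hq₀ isClopen_univ
    (fun s => by simp) (fun s _ => hne s)
  have hNu' : ∀ s, nm q w₀ u s = 1 := fun s => by rw [hNu, Set.indicator_of_mem (Set.mem_univ s)]
  set f : S₁ → ZMod q := fun e => u (o e) - u (t e) with hf
  set c : S₁ → ZMod q := fun e => u (o e) with hc
  have hflc : IsLocallyConstant f := (hu.comp_continuous ho).sub (hu.comp_continuous ht)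
  have hclc : IsLocallyConstant c := hu.comp_continuous ho
  have hNf : ∀ e, nm q w₁ f e = 0 := by
    intro e
    rw [hf, nm_sub, nm_o how, nm_o htw, hNu', hNu', sub_self]
  have hNc : ∀ e, nm q w₁ c e = 1 := by
    intro e
    rw [hc, nm_o how, hNu']
  set F : ℕ → S₁ → ZMod q := fun k e => ∑ j ∈ Finset.range k, f (w₁^[j] e) with hF
  set g : S₁ → ZMod q := fun e => ∑ k ∈ Finset.range q, F k e * c (w₁^[k] e) with hg
  have hglc : IsLocallyConstant g :=
    lc_sum _ _ fun k _ => (lc_sum _ _ fun j _ => lc_iter hw₁ hflc j).mul (lc_iter hw₁ hclc k)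
  have hFs : ∀ k e, F k (w₁ e) = F (k + 1) e - f e := by
    intro k e
    have h1 := Finset.sum_range_succ' (fun j => f (w₁^[j] e)) k
    simp only [Function.iterate_succ_apply, Function.iterate_zero, id_eq] at h1
    simp only [hF]
    rw [eq_sub_iff_add_eq]
    rw [← h1]
  have hgw : ∀ e, g (w₁ e) = g e - f e := by
    intro e
    have h1 : g (w₁ e) = ∑ k ∈ Finset.range q, F (k + 1) e * c (w₁^[k + 1] e) -
        f e * ∑ k ∈ Finset.range q, c (w₁^[k + 1] e) := by
      simp only [hg]
      rw [Finset.mul_sum, ← Finset.sum_sub_distrib]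
      refine Finset.sum_congr rfl fun k _ => ?_
      rw [hFs, Function.iterate_succ_apply]
      ring
    have h2 : ∑ k ∈ Finset.range q, c (w₁^[k + 1] e) = 1 := by
      rw [← hNc (w₁ e)]
      unfold nm
      refine Finset.sum_congr rfl fun k _ => ?_
      rw [Function.iterate_succ_apply]
    have h3 : ∑ k ∈ Finset.range q, F (k + 1) e * c (w₁^[k + 1] e) = g e := by
      have h4 := Finset.sum_range_succ (fun k => F k e * c (w₁^[k] e)) q
      have h5 := Finset.sum_range_succ' (fun k => F k e * c (w₁^[k] e)) q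
      have h6 : F q e = 0 := hNf e
      have h7 : F 0 e = 0 := by simp [hF]
      rw [h4, h6, h7] at h5
      simp only [zero_mul, add_zero] at h5
      exact h5.symm
    rw [h1, h2, h3, mul_one]
  obtain ⟨h, hh, hgh⟩ := hS.acyc q g hglc
  have hvlc : IsLocallyConstant (fun s => u s - h s + h (w₀ s)) :=
    (hu.sub hh).add (hh.comp_continuous hw₀)
  have hconst := const_of_d hS hvlc (fun e => by
    have h1 := hgh e
    have h2 := hgh (w₁ e)
    rw [hgw, how, htw] at h2
    have h3 : f e = u (o e) - u (t e) := rfl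
    rw [h1, h3] at h2
    linear_combination -h2)
  obtain ⟨s₀⟩ := hS.nonempty
  have h1 : nm q w₀ (fun s => u s - h s + h (w₀ s)) s₀ = 0 := by
    have : (fun s => u s - h s + h (w₀ s)) = fun _ => u s₀ - h s₀ + h (w₀ s₀) := by
      funext s
      exact hconst s s₀
    rw [this, nm_const]
  rw [nm_add, nm_sub, nm_comp hq₀, hNu', sub_add_cancel] at h1
  exact one_ne_zero h1

theorem fixed_conn (ho : Continuous o) (ht : Continuous t)
    (hS : PTree o t) (hw₀ : Continuous w₀) (hw₁ : Continuous w₁)
    (how : ∀ e, o (w₁ e) = w₀ (o e)) (htw : ∀ e, t (w₁ e) = w₀ (t e))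
    (hq₀ : w₀^[q] = id) (hq₁ : w₁^[q] = id) (U : Set {s // w₀ s = s}) (hU : IsClopen U)
    (hUe : ∀ e, w₁ e = e → ∀ (h₁ : w₀ (o e) = o e) (h₂ : w₀ (t e) = t e),
      ((⟨o e, h₁⟩ : {s // w₀ s = s}) ∈ U ↔ (⟨t e, h₂⟩ : {s // w₀ s = s}) ∈ U)) :
    U = ∅ ∨ U = Set.univ := by
  classical
  have hcl : IsClosed {s | w₀ s = s} := isClosed_eq hw₀ continuous_id
  -- a clopen set restricting to `U`
  obtain ⟨G, hG, hGU⟩ := lc_extend (q := q) hcl (U.indicator fun _ => 1) (lc_ind hU 1)
  set V : Set S₀ := {s | G s = 1} with hV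
  have hVc : IsClopen V := ⟨hG.isClosed_fiber _, hG.isOpen_fiber _⟩
  have hVU : ∀ s : {s // w₀ s = s}, (s : S₀) ∈ V ↔ s ∈ U := by
    intro s
    have h1 := hGU s
    simp only [hV, Set.mem_ofPred_eq]
    rw [h1]
    by_cases hs : s ∈ U
    · simp [hs]
    · simp [hs]
  -- make it invariant
  set W : Set S₀ := ⋂ i ∈ Finset.range q, w₀^[i] ⁻¹' V with hW
  have hWc : IsClopen W := isClopen_biInter_finset fun i _ => hVc.preimage (hw₀.iterate i)
  have hmemW : ∀ s, s ∈ W ↔ ∀ i < q, w₀^[i] s ∈ V := by
    intro s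
    simp only [hW, Set.mem_iInter, Finset.mem_range, Set.mem_preimage]
  have hqpos : 0 < q := hq.out.pos
  have hWw : ∀ s, w₀ s ∈ W ↔ s ∈ W := by
    intro s
    rw [hmemW, hmemW]
    constructor
    · intro h i hi
      rcases Nat.eq_zero_or_pos i with h0 | h0
      · subst h0
        have h1 := h (q - 1) (by omega)
        rw [← Function.iterate_succ_apply, Nat.succ_eq_add_one, Nat.sub_add_cancel hqpos,
          hq₀] at h1
        exact h1
      · have h1 := h (i - 1) (by omega)
        rw [← Function.iterate_succ_apply, Nat.succ_eq_add_one, Nat.sub_add_cancel h0] at h1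
        exact h1
    · intro h i hi
      rw [← Function.iterate_succ_apply]
      rcases Nat.lt_or_ge (i + 1) q with h' | h'
      · exact h (i + 1) h'
      · have h1 : i + 1 = q := le_antisymm hi h'
        rw [Nat.succ_eq_add_one, h1, hq₀]
        exact h 0 hqpos
  have hWU : ∀ s : {s // w₀ s = s}, (s : S₀) ∈ W ↔ s ∈ U := by
    intro s
    rw [hmemW, ← hVU]
    constructor
    · intro h
      exact h 0 hqpos
    · intro h i _
      rw [Function.iterate_fixed s.2]
      exact h
  set f : S₀ → ZMod q := W.indicator (fun _ => 1) with hf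
  have hflc : IsLocallyConstant f := lc_ind hWc 1
  have hfw : ∀ s, f (w₀ s) = f s := by
    intro s
    by_cases hs : s ∈ W
    · rw [hf, Set.indicator_of_mem hs, Set.indicator_of_mem ((hWw s).2 hs)]
    · rw [hf, Set.indicator_of_notMem hs, Set.indicator_of_notMem (fun h => hs ((hWw s).1 h))]
  set df : S₁ → ZMod q := fun e => f (o e) - f (t e) with hdf
  have hdflc : IsLocallyConstant df := (hflc.comp_continuous ho).sub (hflc.comp_continuous ht)
  have hdfw : ∀ e, df (w₁ e) = df e := by
    intro e
    simp only [hdf, how, htw, hfw]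
  set C : Set S₁ := {e | df e = 0}ᶜ with hC
  have hCc : IsClopen C := IsClopen.compl ⟨hdflc.isClosed_fiber _, hdflc.isOpen_fiber _⟩
  have hCw : ∀ e, w₁ e ∈ C ↔ e ∈ C := by
    intro e
    simp only [hC, Set.mem_compl_iff, Set.mem_ofPred_eq, hdfw]
  have hCfix : ∀ e ∈ C, w₁ e ≠ e := by
    intro e he hfix
    apply he
    have h₁ : w₀ (o e) = o e := by rw [← how, hfix]
    have h₂ : w₀ (t e) = t e := by rw [← htw, hfix]
    have h3 := hUe e hfix h₁ h₂
    rw [← hWU, ← hWU] at h3
    simp only at h3
    simp only [Set.mem_ofPred_eq, hdf, hf]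
    by_cases h4 : o e ∈ W
    · rw [Set.indicator_of_mem h4, Set.indicator_of_mem (h3.1 h4), sub_self]
    · rw [Set.indicator_of_notMem h4, Set.indicator_of_notMem (fun h => h4 (h3.2 h)), sub_self]
  obtain ⟨c, hc, hNc⟩ := exists_norm_one (q := q) hw₁ hq₁ hCc hCw hCfix
  obtain ⟨h, hh, hdh⟩ := hS.acyc q (fun e => df e * c e) (hdflc.mul hc)
  have hvlc : IsLocallyConstant (fun s => f s - nm q w₀ h s) := hflc.sub (lc_nm hw₀ hh)
  have hconst := const_of_d hS hvlc (fun e => by
    have h1 : nm q w₁ (fun e => df e * c e) e = df e := by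
      rw [nm_mul_inv _ _ hdfw, hNc]
      by_cases he : e ∈ C
      · rw [Set.indicator_of_mem he, mul_one]
      · rw [Set.indicator_of_notMem he, mul_zero]
        have : df e = 0 := by
          by_contra h0
          exact he h0
        exact this.symm
    have h2 : nm q w₁ (fun e => df e * c e) e = nm q w₀ h (o e) - nm q w₀ h (t e) := by
      have : (fun e => df e * c e) = fun e => h (o e) - h (t e) := funext hdh
      rw [this, nm_sub, nm_o how, nm_o htw]
    rw [h1] at h2
    have h3 : df e = f (o e) - f (t e) := rfl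
    rw [h3] at h2
    linear_combination h2)
  have hfc : ∀ s s' : {s // w₀ s = s}, f s = f s' := by
    intro s s'
    have h1 := hconst s s'
    rw [nm_fixed h _ s.2, nm_fixed h _ s'.2, sub_zero, sub_zero] at h1
    exact h1
  rcases Set.eq_empty_or_nonempty U with h0 | ⟨s, hs⟩
  · exact Or.inl h0
  · right
    refine Set.eq_univ_of_forall fun s' => ?_
    have h1 := hfc s s'
    rw [← hWU] at hs
    rw [← hWU]
    by_contra h2
    rw [hf, Set.indicator_of_mem hs, Set.indicator_of_notMem h2] at h1
    exact one_ne_zero h1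

/-- the fixed points of an element of prime order on a profinite tree form a profinite tree -/
theorem smith (ho : Continuous o) (ht : Continuous t)
    (hS : PTree o t) (hw₀ : Continuous w₀) (hw₁ : Continuous w₁)
    (how : ∀ e, o (w₁ e) = w₀ (o e)) (htw : ∀ e, t (w₁ e) = w₀ (t e))
    (hq₀ : w₀^[q] = id) (hq₁ : w₁^[q] = id) :
    PTree (S₀ := {s // w₀ s = s}) (S₁ := {e // w₁ e = e})
      (fun e => ⟨o e.1, by rw [← how, e.2]⟩) (fun e => ⟨t e.1, by rw [← htw, e.2]⟩) where
  nonempty := by
    obtain ⟨s, hs⟩ := fixed_nonempty (q := q) ho ht hS hw₀ hw₁ how htw hq₀ hq₁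
    exact ⟨⟨s, hs⟩⟩
  conn := by
    intro U hU hUe
    refine fixed_conn (q := q) ho ht hS hw₀ hw₁ how htw hq₀ hq₁ U hU ?_
    intro e he _ _
    exact hUe ⟨e, he⟩
  acyc := by
    intro q' _ f hf
    have hcl : IsClosed {e | w₁ e = e} := isClosed_eq hw₁ continuous_id
    obtain ⟨F, hF, hFf⟩ := lc_extend (q := q') hcl f hf
    obtain ⟨u, hu, huF⟩ := hS.acyc q' F hF
    refine ⟨fun s => u s.1, hu.comp_continuous continuous_subtype_val, fun e => ?_⟩
    rw [← huF e.1]
    exact (hFf e).symm

end smith

theorem iter_restrict {S : Type} {P : S → Prop} {z : S → S} (hz : ∀ s, P s → P (z s)) (k : ℕ)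
    (s : {s // P s}) :
    ((fun s : {s // P s} => (⟨z s.1, hz s.1 s.2⟩ : {s // P s}))^[k] s : S) = z^[k] s.1 := by
  induction k with
  | zero => rfl
  | succ n ih =>
    rw [Function.iterate_succ_apply', Function.iterate_succ_apply']
    exact congrArg z ih

theorem exists_fixed_aux (n : ℕ) : ∀ (S₀ S₁ : Type) [TopologicalSpace S₀] [CompactSpace S₀]
    [T2Space S₀] [TotallyDisconnectedSpace S₀] [TopologicalSpace S₁] [CompactSpace S₁]
    [T2Space S₁] [TotallyDisconnectedSpace S₁] (o t : S₁ → S₀) (_ : Continuous o)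
    (_ : Continuous t) (_ : PTree o t) (z₀ : S₀ → S₀) (z₁ : S₁ → S₁) (_ : Continuous z₀)
    (_ : Continuous z₁) (_ : ∀ e, o (z₁ e) = z₀ (o e)) (_ : ∀ e, t (z₁ e) = z₀ (t e))
    (_ : 0 < n) (_ : z₀^[n] = id) (_ : z₁^[n] = id), ∃ s, z₀ s = s := by
  induction n using Nat.strong_induction_on with
  | _ n ih =>
    intro S₀ S₁ _ _ _ _ _ _ _ _ o t ho ht hS z₀ z₁ hz₀ hz₁ hoz htz hn hn₀ hn₁
    rcases eq_or_ne n 1 with h1 | h1
    · subst h1
      obtain ⟨s⟩ := hS.nonempty
      exact ⟨s, congrFun hn₀ s⟩
    · have hqp : (Nat.minFac n).Prime := Nat.minFac_prime h1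
      haveI : Fact (Nat.minFac n).Prime := ⟨hqp⟩
      obtain ⟨m, hm⟩ : Nat.minFac n ∣ n := Nat.minFac_dvd n
      have hm0 : 0 < m := by
        rcases Nat.eq_zero_or_pos m with h | h
        · rw [h, mul_zero] at hm
          omega
        · exact h
      have hmn : m < n := by
        have h2 := hqp.two_le
        calc m < 2 * m := by omega
          _ ≤ Nat.minFac n * m := Nat.mul_le_mul_right m h2
          _ = n := hm.symm
      have hT := smith (q := Nat.minFac n) ho ht hS (hz₀.iterate m) (hz₁.iterate m)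
        (iter_o hoz m) (iter_o htz m)
        (by rw [← Function.iterate_mul, mul_comm, ← hm, hn₀])
        (by rw [← Function.iterate_mul, mul_comm, ← hm, hn₁])
      have hP₀ : ∀ s, z₀^[m] s = s → z₀^[m] (z₀ s) = z₀ s := by
        intro s hs
        rw [← Function.iterate_succ_apply, Function.iterate_succ_apply', hs]
      have hP₁ : ∀ s, z₁^[m] s = s → z₁^[m] (z₁ s) = z₁ s := by
        intro s hs
        rw [← Function.iterate_succ_apply, Function.iterate_succ_apply', hs]
      haveI : CompactSpace {s // z₀^[m] s = s} := isCompact_iff_compactSpace.1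
        (isClosed_eq (hz₀.iterate m) continuous_id).isCompact
      haveI : CompactSpace {s // z₁^[m] s = s} := isCompact_iff_compactSpace.1
        (isClosed_eq (hz₁.iterate m) continuous_id).isCompact
      obtain ⟨s, hs⟩ := ih m hmn {s // z₀^[m] s = s} {e // z₁^[m] e = e} _ _
        (Continuous.subtype_mk (ho.comp continuous_subtype_val) _)
        (Continuous.subtype_mk (ht.comp continuous_subtype_val) _) hT
        (fun s => ⟨z₀ s.1, hP₀ s.1 s.2⟩) (fun s => ⟨z₁ s.1, hP₁ s.1 s.2⟩)
        (Continuous.subtype_mk (hz₀.comp continuous_subtype_val) _)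
        (Continuous.subtype_mk (hz₁.comp continuous_subtype_val) _)
        (fun e => Subtype.ext (hoz e.1)) (fun e => Subtype.ext (htz e.1)) hm0
        (by
          funext s
          exact Subtype.ext ((iter_restrict (P := fun s => z₀^[m] s = s) hP₀ m s).trans s.2))
        (by
          funext s
          exact Subtype.ext ((iter_restrict (P := fun s => z₁^[m] s = s) hP₁ m s).trans s.2))
      exact ⟨s.1, congrArg Subtype.val hs⟩

end Smith

theorem exists_fixed {S₀ S₁ : Type} [TopologicalSpace S₀] [CompactSpace S₀] [T2Space S₀]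
    [TotallyDisconnectedSpace S₀] [TopologicalSpace S₁] [CompactSpace S₁] [T2Space S₁]
    [TotallyDisconnectedSpace S₁] {o t : S₁ → S₀} (ho : Continuous o) (ht : Continuous t)
    (hS : PTree o t) (z₀ : S₀ → S₀) (z₁ : S₁ → S₁) (hz₀ : Continuous z₀) (hz₁ : Continuous z₁)
    (hoz : ∀ e, o (z₁ e) = z₀ (o e)) (htz : ∀ e, t (z₁ e) = z₀ (t e)) (n : ℕ) (hn : 0 < n)
    (hn₀ : z₀^[n] = id) (hn₁ : z₁^[n] = id) : ∃ s, z₀ s = s :=
  Smith.exists_fixed_aux n S₀ S₁ o t ho ht hS z₀ z₁ hz₀ hz₁ hoz htz hn hn₀ hn₁

end Pool.Agent.CC
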