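import Pool.Agent.Lib.MP_305fdd_al.CC.ProTreeCore
import Pool.Agent.Lib.MP_305fdd_al.CC.Smith

/-!
# MP_305fdd_al, piece Q13: torsion elements of the profinite completion fix vertices
-/

set_option autoImplicit false

namespace Pool.Agent.CC

open Pool.Agent.Lib.MP_305fdd_al
open Pool.Agent.PSL2Z (TreeAct)

theorem fixed_vertex {Λ V : Type} [Group Λ] [MulAction Λ V] {X : SimpleGraph V} {ty : V → Bool}
    (hX : TreeAct Λ V X ty) [Nonempty V] (Y : Finset V) (hY : Fund (Λ := Λ) X Y)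
    (z : FIN Λ → Λ) (hz : ∀ K K' : FIN Λ, K.1 ≤ K'.1 → (z K)⁻¹ * z K' ∈ K'.1) (n : ℕ)
    (hn : 0 < n) (hzn : ∀ K, z K ^ n ∈ K.1) :
    ∃ y ∈ Y, ∀ K : FIN Λ, ∃ h l : Λ, l • y = y ∧ (z K)⁻¹ * (h * l * h⁻¹) ∈ K.1 := by
  have hc0 : CompactSpace (SP Λ V) := compact_SP ⟨Y, hY.cover⟩
  have hc1 : CompactSpace (SP Λ (Edge hX)) := compact_SP (cover_edge hX Y hY)
  obtain ⟨s, hs⟩ := exists_fixed (o := oo hX) (t := tt hX) (SP.continuous_map _ _)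
    (SP.continuous_map _ _) (ptree hX) (SP.act z hz) (SP.act z hz) (SP.continuous_act z hz)
    (SP.continuous_act z hz) (fun e => SP.act_map z hz _ _ e) (fun e => SP.act_map z hz _ _ e)
    n hn (SP.act_iterate z hz n hzn) (SP.act_iterate z hz n hzn)
  obtain ⟨v₁, hv₁⟩ := OQ.exists_rep (s.1 FIN.top)
  obtain ⟨y, hy, g₁, hg₁⟩ := hY.cover v₁
  refine ⟨y, hy, fun K => ?_⟩
  obtain ⟨v, h1, h2⟩ := SP.exists_rep₂ s FIN.top K
  -- `v` is in the orbit of `y`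
  obtain ⟨g, hg⟩ : ∃ g : Λ, g • y = v := by
    rw [← hv₁, OQ.eq_iff] at h1
    obtain ⟨k, _, hk⟩ := h1
    exact ⟨k * g₁, by rw [mul_smul, hg₁, hk]⟩
  have h3 : (SP.act z hz s).1 K = s.1 K := by rw [hs]
  rw [SP.act_coord, h2, OQ.act_mk, OQ.eq_iff] at h3
  obtain ⟨k, hk, hkv⟩ := h3
  refine ⟨g, g⁻¹ * (k * z K) * g, ?_, ?_⟩
  · rw [mul_smul, mul_smul, mul_smul, hg, hkv, ← hg, inv_smul_smul]
  · have h4 := K.2.1.conj_mem k hk (z K)⁻¹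
    rw [inv_inv] at h4
    have h5 : (z K)⁻¹ * (g * (g⁻¹ * (k * z K) * g) * g⁻¹) = (z K)⁻¹ * k * z K := by group
    rw [h5]
    exact h4

theorem torsion {Γ Λ V : Type} [Group Γ] [Group Λ] (Φ : NatBij Γ Λ) [MulAction Λ V]
    {X : SimpleGraph V} {ty : V → Bool} (hX : TreeAct Λ V X ty) [Nonempty V] (Y : Finset V)
    (hY : Fund (Λ := Λ) X Y) (x : Γ) (n : ℕ) (hn : 0 < n) (hx : x ^ n = 1) :
    ∃ y ∈ Y, ∀ (Q : Type) [Group Q] [Finite Q] (π : Γ →* Q), ∃ h l : Λ, l • y = y ∧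
      π x = Φ.toFun Q π h * Φ.toFun Q π l * (Φ.toFun Q π h)⁻¹ := by
  have hN : ∀ K : FIN Λ, ∃ g : Λ, ∀ (Q : Type) [Group Q] [Finite Q] (θ : Λ →* Q),
      K.1 ≤ θ.ker → Φ.invFun Q θ x = θ g := by
    intro K
    have h1 := K.2.1
    have h2 := K.2.2
    have h3 : Finite (Λ ⧸ K.1) := inferInstance
    obtain ⟨g, hg⟩ := QuotientGroup.mk'_surjective K.1
      (Φ.invFun (Λ ⧸ K.1) (QuotientGroup.mk' K.1) x)
    refine ⟨g, ?_⟩
    intro Q _ _ θ hθ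
    have h4 : θ = (QuotientGroup.lift K.1 θ hθ).comp (QuotientGroup.mk' K.1) := by
      ext l
      rfl
    have h5 := Φ.symm.nat (QuotientGroup.lift K.1 θ hθ) (QuotientGroup.mk' K.1)
    rw [← h4] at h5
    have h6 : Φ.invFun Q θ = (QuotientGroup.lift K.1 θ hθ).comp
      (Φ.invFun (Λ ⧸ K.1) (QuotientGroup.mk' K.1)) := h5
    rw [h6, MonoidHom.comp_apply, ← hg]
    rfl
  choose z hz using hN
  have hmk : ∀ K : FIN Λ, ∃ (_ : K.1.Normal) (_ : Finite (Λ ⧸ K.1)), True := by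
    intro K
    have h1 := K.2.1
    have h2 := K.2.2
    exact ⟨h1, inferInstance, trivial⟩
  obtain ⟨y, hy, hyK⟩ := fixed_vertex hX Y hY z (by
    intro K K' hKK'
    obtain ⟨h1, h2, -⟩ := hmk K'
    have h3 : K'.1 = (QuotientGroup.mk' K'.1).ker := (QuotientGroup.ker_mk' K'.1).symm
    have h4 := hz K (Λ ⧸ K'.1) (QuotientGroup.mk' K'.1) (hKK'.trans h3.le)
    have h5 := hz K' (Λ ⧸ K'.1) (QuotientGroup.mk' K'.1) h3.le
    rw [h3, MonoidHom.mem_ker, map_mul, map_inv, ← h4, ← h5, inv_mul_cancel]) n hn (by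
    intro K
    obtain ⟨h1, h2, -⟩ := hmk K
    have h3 : K.1 = (QuotientGroup.mk' K.1).ker := (QuotientGroup.ker_mk' K.1).symm
    have h5 := hz K (Λ ⧸ K.1) (QuotientGroup.mk' K.1) h3.le
    rw [h3, MonoidHom.mem_ker, map_pow, ← h5, ← map_pow, hx, map_one])
  refine ⟨y, hy, ?_⟩
  intro Q _ _ π
  let θ : Λ →* Q := Φ.toFun Q π
  let K : FIN Λ := ⟨θ.ker, inferInstance, inferInstance⟩
  obtain ⟨h, l, hl, hK⟩ := hyK K
  refine ⟨h, l, hl, ?_⟩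
  have h1 : π x = θ (z K) := by
    have := hz K Q θ le_rfl
    rw [← this]
    show π x = Φ.invFun Q (Φ.toFun Q π) x
    rw [Φ.left_inv]
  have h2 : θ ((z K)⁻¹ * (h * l * h⁻¹)) = 1 := hK
  rw [map_mul, map_inv, inv_mul_eq_one] at h2
  rw [h1, h2, map_mul, map_mul, map_inv]

end Pool.Agent.CC
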