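import Pool.Agent.Lib.MP_305fdd_al.CC.Univ
import Pool.Agent.Lib.MP_305fdd_al.CC.Ideals
import Pool.Agent.Lib.MP_305fdd_al.CC.Line
import Pool.Agent.Lib.MP_305fdd_al.CC.Model
import Pool.Agent.Lib.MP_305fdd_al.CC.Place
import Pool.Agent.Lib.MP_305fdd_al.CC.Fund
import Pool.Agent.Lib.MP_305fdd_al.CC.HomExt
import Pool.Agent.Lib.MP_305fdd_al.CC.ProTree
import Pool.Agent.Lib.MP_305fdd_al.CC.Points

/-!
# MP_305fdd_al: the free products `C_a * C_b` are profinitely rigid
-/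

set_option autoImplicit false

namespace Pool.Agent.CC

open Polynomial Pool.Agent.Lib.MP_305fdd_al Pool.Agent.MP_305fdd_al
open Pool.Agent.PSL2Z (TreeAct zet)
open scoped WithZero

/-- an element of given order in a finite cyclic group of units -/
theorem exists_unit_order (p : ℕ) [Fact p.Prime] (n : ℕ) (hn : n ∣ p - 1) :
    ∃ u : (ZMod p)ˣ, orderOf u = n := by
  obtain ⟨g, hg⟩ := IsCyclic.exists_generator (α := (ZMod p)ˣ)
  have hp : 2 ≤ p := (Fact.out : p.Prime).two_le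
  have h1 : orderOf g = p - 1 := by
    rw [orderOf_eq_card_of_forall_mem_zpowers hg, Nat.card_eq_fintype_card, ZMod.card_units]
  obtain ⟨k, hk⟩ := hn
  have hk0 : k ≠ 0 := by
    rintro rfl
    rw [mul_zero] at hk
    omega
  refine ⟨g ^ k, ?_⟩
  rw [orderOf_pow_of_dvd hk0 (by rw [h1, hk]; exact dvd_mul_left _ _), h1, hk,
    Nat.mul_div_cancel _ (Nat.pos_of_ne_zero hk0)]

theorem exists_dat (a b : ℕ) (ha : 2 ≤ a) (hb : 2 ≤ b) : ∃ D : Dat, D.a = a ∧ D.b = b := by
  have hab : a * b ≠ 0 := by positivity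
  obtain ⟨p, hp, hp5, hmod⟩ := Nat.exists_prime_gt_modEq_one (k := a * b) 5 hab
  have : Fact p.Prime := ⟨hp⟩
  have hdvd : a * b ∣ p - 1 := (Nat.modEq_iff_dvd' hp.one_le).1 hmod.symm
  obtain ⟨μ, hμ⟩ := exists_unit_order p a ((dvd_mul_right a b).trans hdvd)
  obtain ⟨ν, hν⟩ := exists_unit_order p b ((dvd_mul_left b a).trans hdvd)
  exact ⟨⟨a, b, p, ⟨hp⟩, μ, ν, ha, hb, hμ, hν, hp5.le⟩, rfl, rfl⟩

section

variable {Γ Λ : Type} [Group Γ] [Group Λ] (Φ : NatBij Γ Λ)

/-- a property of all values of a homomorphism to a finite group is transferred -/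
theorem transfer_val {Q : Type} [Group Q] [Finite Q] (θ : Γ →* Q) (P : Q → Prop)
    (hP : ∀ g, P (θ g)) (l : Λ) : P (Φ.toFun Q θ l) := by
  have h1 : Φ.toFun Q θ l ∈ (Φ.toFun Q θ).range := ⟨l, rfl⟩
  rw [Φ.range_eq] at h1
  obtain ⟨g, hg⟩ := h1
  rw [← hg]
  exact hP g

include Φ in
/-- no homomorphism to `Z/r` -/
theorem no_hom {a b : ℕ} {x y : Γ} (h : IsCaCb a b Γ x y) (r : ℕ) [Fact r.Prime]
    (hra : ¬ r ∣ a) (hrb : ¬ r ∣ b) (f : Λ →* Multiplicative (ZMod r)) : f = 1 := by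
  obtain ⟨θ, rfl⟩ := Φ.surjective (Multiplicative (ZMod r)) f
  have key : ∀ (n : ℕ), ¬ r ∣ n → ∀ u : Multiplicative (ZMod r), u ^ n = 1 → u = 1 := by
    intro n hn u hu
    have h1 : orderOf u ∣ n := orderOf_dvd_of_pow_eq_one hu
    have h2 : orderOf u ∣ r := by
      have := orderOf_dvd_natCard u
      rwa [Nat.card_eq_fintype_card, Fintype.card_multiplicative, ZMod.card] at this
    rcases (Nat.dvd_prime (Fact.out : r.Prime)).1 h2 with h3 | h3
    · exact orderOf_eq_one_iff.1 h3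
    · rw [h3] at h1
      exact absurd h1 hn
  have : θ = 1 := by
    apply hom_ext h
    · exact key a hra _ (by rw [← map_pow, h.pa, map_one])
    · exact key b hrb _ (by rw [← map_pow, h.pb, map_one])
  rw [this, Φ.one]

end

/-- the homomorphism `⟨u⟩ → G`, `u ↦ g`, composed with a homomorphism with values in `⟨u⟩` -/
theorem exists_pow_hom {Λ G U : Type} [Group Λ] [Group G] [CommGroup U] (u : U) (g : G)
    (hg : g ^ orderOf u = 1) (ψ : Λ →* U) (hψ : ∀ l, ψ l ∈ Subgroup.zpowers u) :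
    ∃ φ : Λ →* G, (∀ l, ψ l = 1 → φ l = 1) ∧ ∀ l, ψ l = u → φ l = g := by
  have hdvd : orderOf g ∣ orderOf u := orderOf_dvd_of_pow_eq_one hg
  choose k hk using fun l => Subgroup.mem_zpowers_iff.1 (hψ l)
  have key : ∀ m n : ℤ, u ^ m = u ^ n → g ^ m = g ^ n := by
    intro m n hmn
    rw [zpow_eq_zpow_iff_modEq] at hmn ⊢
    exact hmn.of_dvd (by exact_mod_cast hdvd)
  refine ⟨MonoidHom.mk' (fun l => g ^ k l) ?_, ?_, ?_⟩
  · intro l l'
    rw [← zpow_add]
    apply key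
    rw [hk, map_mul, zpow_add, hk, hk]
  · intro l hl
    show g ^ k l = 1
    rw [← zpow_zero g]
    apply key
    rw [hk, hl, zpow_zero]
  · intro l hl
    show g ^ k l = g
    conv_rhs => rw [← zpow_one g]
    apply key
    rw [hk, hl, zpow_one]

/-- the assembly -/
theorem exists_surj (D : Dat) {Γ Λ : Type} [Group Γ] [Group Λ] [Group.FG Λ] {x y : Γ}
    (h : IsCaCb D.a D.b Γ x y) (Φ : NatBij Γ Λ) : ∃ f : Λ →* Γ, Function.Surjective f := by
  classical
  obtain ⟨A, _, _, R₀, hU, hA⟩ := exists_univ D h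
  obtain ⟨B, _, _, ev, T, hB, hT, hTgen, hTp⟩ := exists_TR Φ (del D h) R₀ hU
  obtain ⟨σ, hσ, hσx, hσy, hσc⟩ := exists_line D h R₀ hU
  have hp2 : D.p ≠ 2 := by have := D.hp2; omega
  obtain ⟨P, hPmin, hPf, hPJ, V, _, X, ty, hV, hX, hconst⟩ := exists_action hp2 Φ (del D h) R₀ hU
    hA hB T hT hTgen hTp σ hσ x y hσc
  obtain ⟨hz, -⟩ := place hA hB P hPmin hPf
  -- the base point
  let e₀ : A →ₐ[ZMod D.p] ZMod D.p := (Polynomial.aeval (0 : ZMod D.p)).comp σ
  have he₀ : ∀ f, e₀ f = (σ f).eval 0 := fun f => Polynomial.coe_aeval_eq_eval (0 : ZMod D.p) ▸ rfl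
  have he₀s : Function.Surjective e₀ := fun c => ⟨algebraMap _ A c, e₀.commutes c⟩
  have hcard₀ : Nat.card (A ⧸ RingHom.ker e₀) = D.p := by
    rw [Nat.card_congr (Ideal.quotientKerAlgEquivOfSurjective he₀s).toEquiv, Nat.card_zmod]
  have hfin₀ : Finite (A ⧸ RingHom.ker e₀) := Nat.finite_of_card_ne_zero (by
    rw [hcard₀]; have := D.hp2; omega)
  have hPJ₀ := hPJ ⟨RingHom.ker e₀, hfin₀⟩ fun f => by
    show f ∈ RingHom.ker e₀ ↔ _
    rw [RingHom.mem_ker, he₀]
  -- a cocompact action with a fundamental tree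
  obtain ⟨V', _, X', ty', j, Y₀, hV', hX', hj, hY₀⟩ := exists_cocompact_tree hX
  obtain ⟨r, hr, hrp⟩ := Nat.exists_infinite_primes (D.a + D.b + 1)
  have : Fact r.Prime := ⟨hrp⟩
  have hra : ¬ r ∣ D.a := fun h1 => by
    have := Nat.le_of_dvd (by have := D.ha; omega) h1
    omega
  have hrb : ¬ r ∣ D.b := fun h1 => by
    have := Nat.le_of_dvd (by have := D.hb; omega) h1
    omega
  obtain ⟨Y, hY⟩ := exists_fund hX' Y₀ hY₀ r (no_hom Φ h r hra hrb)
  have hconst' : ∀ (g : Λ) (v : V'), g • v = v →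
      ∃ c : ZMod D.p, T g - algebraMap (ZMod D.p) B c ∈ P := by
    intro g v hgv
    exact hconst g (j v) (by rw [← hj, hgv])
  -- torsion
  have ha0 : 0 < D.a := by have := D.ha; omega
  have hb0 : 0 < D.b := by have := D.hb; omega
  obtain ⟨vx, hvxY, hvx⟩ := torsion Φ hX' Y hY x D.a ha0 h.pa
  obtain ⟨vy, hvyY, hvy⟩ := torsion Φ hX' Y hY y D.b hb0 h.pb
  have hker : ∀ (f : A) (c : ZMod D.p), σ f = C c →
      f - algebraMap (ZMod D.p) A c ∈ RingHom.ker e₀ := by
    intro f c hf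
    rw [RingHom.mem_ker, map_sub, AlgHom.commutes, he₀, hf, eval_C]
    exact sub_self c
  have hpts := points D h Φ R₀ hU hB T hT P hz ⟨RingHom.ker e₀, hfin₀⟩ hcard₀ hPJ₀
    (hker _ _ hσx) (hker _ _ hσy) hconst' vx vy hvx hvy
  have hpsi : ∀ (g : Λ) (v : V'), g • v = v →
      Φ.toFun _ (psi1 D h) g = 1 ∨ Φ.toFun _ (psi2 D h) g = 1 := fun g v hgv =>
    psi_mul D h Φ R₀ hU T hT P hpts g (hconst' g v hgv)
  -- a vertex group is killed by one of the two characters
  have hkinds : ∀ v : V', (∀ g : Λ, g • v = v → Φ.toFun _ (psi1 D h) g = 1) ∨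
      (∀ g : Λ, g • v = v → Φ.toFun _ (psi2 D h) g = 1) := by
    intro v
    by_contra hno
    push Not at hno
    obtain ⟨⟨g₁, h1, h1'⟩, g₂, h2, h2'⟩ := hno
    have h3 : (g₁ * g₂) • v = v := by rw [mul_smul, h2, h1]
    have h4 : Φ.toFun _ (psi2 D h) g₁ = 1 := (hpsi g₁ v h1).resolve_left h1'
    have h5 : Φ.toFun _ (psi1 D h) g₂ = 1 := (hpsi g₂ v h2).resolve_right h2'
    rcases hpsi _ v h3 with h6 | h6
    · rw [map_mul, h5, mul_one] at h6
      exact h1' h6
    · rw [map_mul, h4, one_mul] at h6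
      exact h2' h6
  -- the values of the two characters
  have hval1 : ∀ l : Λ, Φ.toFun _ (psi1 D h) l ∈ Subgroup.zpowers D.ν := by
    refine transfer_val Φ _ (fun u => u ∈ Subgroup.zpowers D.ν) fun g => ?_
    have h1 : (⊤ : Subgroup Γ) ≤ (Subgroup.zpowers D.ν).comap (psi1 D h) := by
      rw [← h.gen, Subgroup.closure_le]
      rintro z (rfl | rfl)
      · show psi1 D h z ∈ Subgroup.zpowers D.ν
        unfold psi1
        rw [toHom_x]
        exact one_mem _
      · show psi1 D h z ∈ Subgroup.zpowers D.ν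
        unfold psi1
        rw [toHom_y]
        exact Subgroup.mem_zpowers _
    exact h1 (Subgroup.mem_top g)
  have hval2 : ∀ l : Λ, Φ.toFun _ (psi2 D h) l ∈ Subgroup.zpowers D.μ := by
    refine transfer_val Φ _ (fun u => u ∈ Subgroup.zpowers D.μ) fun g => ?_
    have h1 : (⊤ : Subgroup Γ) ≤ (Subgroup.zpowers D.μ).comap (psi2 D h) := by
      rw [← h.gen, Subgroup.closure_le]
      rintro z (rfl | rfl)
      · show psi2 D h z ∈ Subgroup.zpowers D.μ
        unfold psi2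
        rw [toHom_x]
        exact Subgroup.mem_zpowers _
      · show psi2 D h z ∈ Subgroup.zpowers D.μ
        unfold psi2
        rw [toHom_y]
        exact one_mem _
    exact h1 (Subgroup.mem_top g)
  obtain ⟨φx, hφx1, hφx⟩ := exists_pow_hom D.μ x (by rw [D.hμ]; exact h.pa)
    (Φ.toFun _ (psi2 D h)) hval2
  obtain ⟨φy, hφy1, hφy⟩ := exists_pow_hom D.ν y (by rw [D.hν]; exact h.pb)
    (Φ.toFun _ (psi1 D h)) hval1
  let φ : V' → Λ →* Γ := fun v =>
    if (∀ g : Λ, g • v = v → Φ.toFun _ (psi1 D h) g = 1) then φx else φy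
  obtain ⟨f, hf⟩ := exists_hom_ext hX' Y hY φ (by
    intro u _ v _ _ g hgu hgv
    have hc : (Φ.toFun _ (psi1 D h) g = 1 ∧ Φ.toFun _ (psi2 D h) g = 1) → φx g = φy g := by
      rintro ⟨h1, h2⟩
      rw [hφx1 g h2, hφy1 g h1]
    by_cases h1 : ∀ g : Λ, g • u = u → Φ.toFun _ (psi1 D h) g = 1
    · by_cases h2 : ∀ g : Λ, g • v = v → Φ.toFun _ (psi1 D h) g = 1
      · show (if _ then φx else φy) g = (if _ then φx else φy) g
        rw [if_pos h1, if_pos h2]
      · show (if _ then φx else φy) g = (if _ then φx else φy) g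
        rw [if_pos h1, if_neg h2]
        exact hc ⟨h1 g hgu, (hkinds v).resolve_left h2 g hgv⟩
    · by_cases h2 : ∀ g : Λ, g • v = v → Φ.toFun _ (psi1 D h) g = 1
      · show (if _ then φx else φy) g = (if _ then φx else φy) g
        rw [if_neg h1, if_pos h2]
        exact (hc ⟨h2 g hgv, (hkinds u).resolve_left h1 g hgu⟩).symm
      · show (if _ then φx else φy) g = (if _ then φx else φy) g
        rw [if_neg h1, if_neg h2])
  -- the elements which are mapped to `x` and `y`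
  have hμ1 : D.μ ≠ 1 := by
    intro h1
    have := D.hμ
    rw [h1, orderOf_one] at this
    have := D.ha
    omega
  have hν1 : D.ν ≠ 1 := by
    intro h1
    have := D.hν
    rw [h1, orderOf_one] at this
    have := D.hb
    omega
  have hgetx : ∃ l : Λ, l • vx = vx ∧ Φ.toFun _ (psi1 D h) l = 1 ∧
      Φ.toFun _ (psi2 D h) l = D.μ := by
    obtain ⟨k, l, hl, hπ⟩ := hvx _ ((psi1 D h).prod (psi2 D h))
    have e1 : Φ.toFun _ (psi1 D h) = (MonoidHom.fst _ _).comp
        (Φ.toFun _ ((psi1 D h).prod (psi2 D h))) := by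
      rw [← Φ.nat, MonoidHom.fst_comp_prod]
    have e2 : Φ.toFun _ (psi2 D h) = (MonoidHom.snd _ _).comp
        (Φ.toFun _ ((psi1 D h).prod (psi2 D h))) := by
      rw [← Φ.nat, MonoidHom.snd_comp_prod]
    rw [mul_comm (Φ.toFun _ ((psi1 D h).prod (psi2 D h)) k), mul_inv_cancel_right] at hπ
    refine ⟨l, hl, ?_, ?_⟩
    · rw [e1, MonoidHom.comp_apply, ← hπ]
      show psi1 D h x = 1
      unfold psi1
      rw [toHom_x]
    · rw [e2, MonoidHom.comp_apply, ← hπ]
      show psi2 D h x = D.μ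
      unfold psi2
      rw [toHom_x]
  have hgety : ∃ l : Λ, l • vy = vy ∧ Φ.toFun _ (psi1 D h) l = D.ν ∧
      Φ.toFun _ (psi2 D h) l = 1 := by
    obtain ⟨k, l, hl, hπ⟩ := hvy _ ((psi1 D h).prod (psi2 D h))
    have e1 : Φ.toFun _ (psi1 D h) = (MonoidHom.fst _ _).comp
        (Φ.toFun _ ((psi1 D h).prod (psi2 D h))) := by
      rw [← Φ.nat, MonoidHom.fst_comp_prod]
    have e2 : Φ.toFun _ (psi2 D h) = (MonoidHom.snd _ _).comp
        (Φ.toFun _ ((psi1 D h).prod (psi2 D h))) := by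
      rw [← Φ.nat, MonoidHom.snd_comp_prod]
    rw [mul_comm (Φ.toFun _ ((psi1 D h).prod (psi2 D h)) k), mul_inv_cancel_right] at hπ
    refine ⟨l, hl, ?_, ?_⟩
    · rw [e1, MonoidHom.comp_apply, ← hπ]
      show psi1 D h y = D.ν
      unfold psi1
      rw [toHom_y]
    · rw [e2, MonoidHom.comp_apply, ← hπ]
      show psi2 D h y = 1
      unfold psi2
      rw [toHom_y]
  obtain ⟨lx, hlx, hlx1, hlx2⟩ := hgetx
  obtain ⟨ly, hly, hly1, hly2⟩ := hgety
  have hfx : f lx = x := by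
    rw [hf vx hvxY lx hlx]
    show (if _ then φx else φy) lx = x
    by_cases h1 : ∀ g : Λ, g • vx = vx → Φ.toFun _ (psi1 D h) g = 1
    · rw [if_pos h1]
      exact hφx lx hlx2
    · exfalso
      have := (hkinds vx).resolve_left h1 lx hlx
      rw [hlx2] at this
      exact hμ1 this
  have hfy : f ly = y := by
    rw [hf vy hvyY ly hly]
    show (if _ then φx else φy) ly = y
    by_cases h1 : ∀ g : Λ, g • vy = vy → Φ.toFun _ (psi1 D h) g = 1
    · exfalso
      have := h1 ly hly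
      rw [hly1] at this
      exact hν1 this
    · rw [if_neg h1]
      exact hφy ly hly1
  refine ⟨f, ?_⟩
  rw [← MonoidHom.range_eq_top, eq_top_iff, ← h.gen, Subgroup.closure_le]
  rintro z (rfl | rfl)
  · exact ⟨lx, hfx⟩
  · exact ⟨ly, hfy⟩

/-- every finitely generated residually finite group with the finite quotients of `C_a * C_b` is
isomorphic to it -/
theorem rigid (a b : ℕ) (ha : 2 ≤ a) (hb : 2 ≤ b) (Γ : Type) [Group Γ] (x y : Γ)
    (h : IsCaCb a b Γ x y) : ProfinitelyRigid Γ := by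
  classical
  intro Λ _ hΛ
  obtain ⟨h1, h2, h3⟩ := hΛ
  have hFG : Group.FG Γ := by
    rw [Group.fg_def]
    exact ⟨{x, y}, by rw [Finset.coe_insert, Finset.coe_singleton]; exact h.gen⟩
  obtain ⟨D, rfl, rfl⟩ := exists_dat a b ha hb
  obtain ⟨Φ⟩ := exists_natBij h3.symm
  obtain ⟨f, hf⟩ := exists_surj D h Φ
  exact ⟨MulEquiv.ofBijective f ⟨injective_of_surj h3 f hf, hf⟩⟩

end Pool.Agent.CC
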