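import Pool.Agent.Lib.MP_305fdd_al.CC.Defs
import Pool.Agent.Lib.MP_305fdd_al.PSL.Zeta

/-!
# MP_305fdd_al: a finite product of copies of `F[X]` and of `F` is good (piece Q4a)
-/

set_option autoImplicit false

namespace Pool.Agent.CC

open Polynomial Pool.Agent.Lib.MP_305fdd_al
open Pool.Agent.PSL2Z (zet FinIdeals zet_pi zet_congr finite_ideals)

/-! ### the zeta function of `F[X]` and of `F` -/

section zeta

variable {p : ℕ} [hp : Fact p.Prime]

theorem card_quot_span {f : (ZMod p)[X]} (hf : f.Monic) :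
    Nat.card ((ZMod p)[X] ⧸ Ideal.span {f}) = p ^ f.natDegree := by
  have h1 : Module.finrank (ZMod p) (AdjoinRoot f) = f.natDegree := by
    rw [(AdjoinRoot.powerBasis' hf).finrank, AdjoinRoot.powerBasis'_dim]
  have : Module.Finite (ZMod p) (AdjoinRoot f) := (AdjoinRoot.powerBasis' hf).finite
  have h2 := Module.natCard_eq_pow_finrank (K := ZMod p) (V := AdjoinRoot f)
  rw [h1, Nat.card_zmod] at h2
  exact h2

/-- monic polynomials of degree `n` -/
noncomputable def monicEquiv (n : ℕ) :
    {f : (ZMod p)[X] // f.Monic ∧ f.natDegree = n} ≃ degreeLT (ZMod p) n := by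
  refine ⟨fun f => ⟨f.1 - X ^ n, ?_⟩, fun g => ⟨g.1 + X ^ n, ?_⟩, ?_, ?_⟩
  · rw [mem_degreeLT]
    have h1 : f.1.degree = (n : WithBot ℕ) := by
      rw [degree_eq_natDegree f.2.1.ne_zero, f.2.2]
    rw [← h1]
    apply degree_sub_lt_left
    · rw [h1, degree_X_pow]
    · exact f.2.1.ne_zero
    · rw [f.2.1.leadingCoeff, (monic_X_pow n).leadingCoeff]
  · have hg : g.1.degree < (n : WithBot ℕ) := mem_degreeLT.1 g.2
    have h1 : (g.1 + X ^ n).Monic := by
      rw [add_comm]
      exact (monic_X_pow n).add_of_left (by rw [degree_X_pow]; exact hg)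
    refine ⟨h1, ?_⟩
    rw [add_comm, natDegree_add_eq_left_of_degree_lt (by rw [degree_X_pow]; exact hg),
      natDegree_X_pow]
  · intro f
    apply Subtype.ext
    simp
  · intro g
    apply Subtype.ext
    simp

theorem card_monic (n : ℕ) :
    Nat.card {f : (ZMod p)[X] // f.Monic ∧ f.natDegree = n} = p ^ n := by
  rw [Nat.card_congr (monicEquiv n), Nat.card_congr (degreeLTEquiv (ZMod p) n).toEquiv,
    Nat.card_fun, Nat.card_zmod, Nat.card_fin]

theorem zet_poly : zet p (ZMod p)[X] = 1 := by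
  classical
  have e : ∀ n : ℕ, {f : (ZMod p)[X] // f.Monic ∧ f.natDegree = n} ≃
      {I : Ideal (ZMod p)[X] // Nat.card ((ZMod p)[X] ⧸ I) = p ^ n} := by
    intro n
    refine Equiv.ofBijective (fun f => ⟨Ideal.span {f.1}, ?_⟩) ⟨?_, ?_⟩
    · rw [card_quot_span f.2.1, f.2.2]
    · intro f g h
      have h1 : Ideal.span {f.1} = Ideal.span {g.1} := congrArg Subtype.val h
      have h2 : Associated f.1 g.1 := Ideal.span_singleton_eq_span_singleton.1 h1
      exact Subtype.ext (eq_of_monic_of_associated f.2.1 g.2.1 h2)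
    · rintro ⟨J, hI⟩
      obtain ⟨g, hg⟩ := (IsPrincipalIdealRing.principal J).principal
      have hg0 : g ≠ 0 := by
        rintro rfl
        have hJ : J = ⊥ := by rw [hg]; simp
        subst hJ
        have hfin : Finite ((ZMod p)[X] ⧸ (⊥ : Ideal (ZMod p)[X])) :=
          Nat.finite_of_card_ne_zero (by rw [hI]; exact (pow_pos hp.out.pos n).ne')
        have : Finite (ZMod p)[X] :=
          Finite.of_equiv _ (RingEquiv.quotientBot (ZMod p)[X]).toEquiv
        exact not_finite (ZMod p)[X]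
      have hJ : J = Ideal.span {normalize g} := by
        rw [hg]
        exact Ideal.span_singleton_eq_span_singleton.2 (associated_normalize g)
      have hmon : (normalize g).Monic := monic_normalize hg0
      have hdeg : (normalize g).natDegree = n := by
        have h1 := card_quot_span hmon
        rw [← hJ, hI] at h1
        exact (Nat.pow_right_injective hp.out.two_le h1).symm
      exact ⟨⟨normalize g, hmon, hdeg⟩, Subtype.ext hJ.symm⟩
  ext n
  rw [zet, PowerSeries.coeff_mk, ← Nat.card_congr (e n), card_monic, PowerSeries.coeff_one]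
  split_ifs with hn
  · subst hn
    simp
  · rw [Nat.cast_pow, ZMod.natCast_self, zero_pow hn]

theorem zet_field {K : Type} [CommRing K] (hK : IsField K) (hc : Nat.card K = p) :
    zet p K = 1 + PowerSeries.X := by
  classical
  let _ := hK.toField
  have hbot : Nat.card (K ⧸ (⊥ : Ideal K)) = p := by
    rw [Nat.card_congr (RingEquiv.quotientBot K).toEquiv, hc]
  have htop : Nat.card (K ⧸ (⊤ : Ideal K)) = 1 := by
    have : Subsingleton (K ⧸ (⊤ : Ideal K)) := Ideal.Quotient.subsingleton_iff.2 rfl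
    exact Nat.card_of_subsingleton 0
  have h1 := hp.out.one_lt
  ext n
  rw [zet, PowerSeries.coeff_mk, map_add, PowerSeries.coeff_one, PowerSeries.coeff_X]
  rcases n with _ | _ | n
  · have : ∀ I : Ideal K, Nat.card (K ⧸ I) = p ^ 0 ↔ I = ⊤ := by
      intro I
      rcases Ideal.eq_bot_or_top I with rfl | rfl
      · rw [hbot, pow_zero]
        exact ⟨fun h => by omega, fun h => absurd h bot_ne_top⟩
      · rw [htop, pow_zero]
        exact ⟨fun _ => rfl, fun _ => rfl⟩
    rw [Nat.card_congr (Equiv.subtypeEquivRight this), Nat.card_unique]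
    simp
  · have : ∀ I : Ideal K, Nat.card (K ⧸ I) = p ^ (0 + 1) ↔ I = ⊥ := by
      intro I
      rcases Ideal.eq_bot_or_top I with rfl | rfl
      · rw [hbot, zero_add, pow_one]
        exact ⟨fun _ => rfl, fun _ => rfl⟩
      · rw [htop, zero_add, pow_one]
        exact ⟨fun h => by omega, fun h => absurd h.symm bot_ne_top⟩
    rw [Nat.card_congr (Equiv.subtypeEquivRight this), Nat.card_unique]
    simp
  · have : IsEmpty {I : Ideal K // Nat.card (K ⧸ I) = p ^ (n + 1 + 1)} := by
      constructor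
      rintro ⟨I, hI⟩
      rcases Ideal.eq_bot_or_top I with rfl | rfl
      · rw [hbot] at hI
        have h2 : p ^ 1 = p ^ (n + 1 + 1) := by rw [← hI, pow_one]
        have := Nat.pow_right_injective hp.out.two_le h2
        omega
      · rw [htop] at hI
        have := Nat.one_lt_pow (by omega : n + 1 + 1 ≠ 0) h1
        omega
    rw [Nat.card_of_isEmpty]
    simp

end zeta

/-! ### products -/

theorem zet_pi' (p : ℕ) [Fact p.Prime] {I : Type} [Fintype I] (R : I → Type)
    [∀ i, CommRing (R i)] (hR : ∀ i, FinIdeals p (R i)) :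
    zet p (∀ i, R i) = ∏ i, zet p (R i) := by
  classical
  let e := (Fintype.equivFin I).symm
  rw [← zet_congr p (RingEquiv.piCongrLeft R e), (zet_pi p (fun i => R (e i)) fun i => hR _).2]
  exact Fintype.prod_equiv e _ _ fun i => rfl

section quot

variable {p : ℕ} [hp : Fact p.Prime]

theorem pow_eq_of_idem {R : Type} [CommRing R] (M : Ideal R) (h : M * M = M) :
    M ^ 1 = M ^ (1 + 1) := by
  rw [pow_succ M 1, pow_one, h]

theorem quot_pir (J : Ideal (ZMod p)[X]) : IsPrincipalIdealRing ((ZMod p)[X] ⧸ J) :=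
  IsPrincipalIdealRing.of_surjective (Ideal.Quotient.mk J) Ideal.Quotient.mk_surjective

theorem quot_field {J : Ideal (ZMod p)[X]} {c : ZMod p} (hJ : J = Ideal.span {X - C c}) :
    IsField ((ZMod p)[X] ⧸ J) ∧ Nat.card ((ZMod p)[X] ⧸ J) = p := by
  subst hJ
  constructor
  · rw [← Ideal.Quotient.maximal_ideal_iff_isField_quotient]
    exact PrincipalIdealRing.isMaximal_of_irreducible (irreducible_X_sub_C c)
  · rw [card_quot_span (monic_X_sub_C c), natDegree_X_sub_C, pow_one]

theorem quot_bot_pow {J : Ideal (ZMod p)[X]} (hJ : J = ⊥) (N : Ideal ((ZMod p)[X] ⧸ J))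
    (hN : N.IsMaximal) (k : ℕ) : N ^ k ≠ N ^ (k + 1) := by
  subst hJ
  have hdom : IsDomain ((ZMod p)[X] ⧸ (⊥ : Ideal (ZMod p)[X])) :=
    (Ideal.Quotient.isDomain_iff_prime _).2 Ideal.isPrime_bot
  have hN0 : N ≠ ⊥ := by
    rintro rfl
    have h1 := Ideal.Quotient.maximal_ideal_iff_isField_quotient
      (⊥ : Ideal ((ZMod p)[X] ⧸ (⊥ : Ideal (ZMod p)[X]))) |>.1 hN
    have h2 : IsField (ZMod p)[X] :=
      (MulEquiv.isField h1 (((RingEquiv.quotientBot _).trans
        (RingEquiv.quotientBot _)).symm.toMulEquiv))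
    exact Polynomial.not_isField _ h2
  have hpir := quot_pir (⊥ : Ideal (ZMod p)[X])
  obtain ⟨g, hg⟩ := (IsPrincipalIdealRing.principal N).principal
  have hg' : N = Ideal.span {g} := hg
  have hg0 : g ≠ 0 := by
    rintro rfl
    apply hN0
    rw [hg']
    simp
  intro h
  rw [hg', Ideal.span_singleton_pow, Ideal.span_singleton_pow,
    Ideal.span_singleton_eq_span_singleton] at h
  have h2 : g ^ (k + 1) ∣ g ^ k := h.symm.dvd
  have h3 : ¬ IsUnit g := by
    intro hu
    apply hN.ne_top
    rw [hg']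
    exact Ideal.span_singleton_eq_top.2 hu
  have h4 := (pow_dvd_pow_iff hg0 h3).1 h2
  omega

end quot

theorem good_pi {p : ℕ} [Fact p.Prime] {I : Type} [Fintype I] [DecidableEq I]
    (J : I → Ideal (ZMod p)[X]) (hJ : ∀ i, J i = ⊥ ∨ ∃ c : ZMod p, J i = Ideal.span {X - C c}) :
    Good p (∀ i, (ZMod p)[X] ⧸ J i) := by
  classical
  -- maximal ideals of the product
  have hmax : ∀ M : Ideal (∀ i, (ZMod p)[X] ⧸ J i), M.IsMaximal →
      ∃ i, ∃ N : Ideal ((ZMod p)[X] ⧸ J i), N.IsMaximal ∧
        M = N.comap (Pi.evalRingHom (fun i => (ZMod p)[X] ⧸ J i) i) := by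
    intro M hM
    obtain ⟨i, q, hq⟩ := PrimeSpectrum.exists_comap_evalRingHom_eq ⟨M, hM.isPrime⟩
    have hq' : M = q.asIdeal.comap (Pi.evalRingHom (fun i => (ZMod p)[X] ⧸ J i) i) :=
      (congrArg PrimeSpectrum.asIdeal hq).symm
    refine ⟨i, q.asIdeal, ?_, hq'⟩
    have hsurj : Function.Surjective (Pi.evalRingHom (fun i => (ZMod p)[X] ⧸ J i) i) :=
      Function.surjective_eval i
    have h1 : M.map (Pi.evalRingHom (fun i => (ZMod p)[X] ⧸ J i) i) = q.asIdeal := by
      rw [hq', Ideal.map_comap_of_surjective _ hsurj]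
    rw [← h1]
    rcases Ideal.map_eq_top_or_isMaximal_of_surjective _ hsurj hM with h | h
    · exact absurd (h1.symm.trans h) q.isPrime.ne_top
    · exact h
  -- the isolated ones
  have hisoM : ∀ i, J i ≠ ⊥ → (RingHom.ker (Pi.evalRingHom (fun i => (ZMod p)[X] ⧸ J i) i)).IsMaximal ∧
      RingHom.ker (Pi.evalRingHom (fun i => (ZMod p)[X] ⧸ J i) i) *
        RingHom.ker (Pi.evalRingHom (fun i => (ZMod p)[X] ⧸ J i) i) =
        RingHom.ker (Pi.evalRingHom (fun i => (ZMod p)[X] ⧸ J i) i) ∧
      Nat.card ((∀ i, (ZMod p)[X] ⧸ J i) ⧸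
        RingHom.ker (Pi.evalRingHom (fun i => (ZMod p)[X] ⧸ J i) i)) = p := by
    intro i hi
    obtain ⟨c, hc⟩ := (hJ i).resolve_left hi
    obtain ⟨hf, hcard⟩ := quot_field hc
    have hsurj : Function.Surjective (Pi.evalRingHom (fun i => (ZMod p)[X] ⧸ J i) i) :=
      Function.surjective_eval i
    have e := RingHom.quotientKerEquivOfSurjective hsurj
    refine ⟨?_, ?_, ?_⟩
    · rw [Ideal.Quotient.maximal_ideal_iff_isField_quotient]
      exact MulEquiv.isField hf e.toMulEquiv
    · apply le_antisymm Ideal.mul_le_right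
      intro f hf
      have h1 : f = f * (1 - Pi.single i 1) := by
        funext j
        rw [Pi.mul_apply, Pi.sub_apply]
        by_cases hj : j = i
        · subst hj
          have : f j = 0 := hf
          rw [this, zero_mul]
        · rw [Pi.single_eq_of_ne hj, sub_zero, Pi.one_apply, mul_one]
      rw [h1]
      apply Ideal.mul_mem_mul hf
      rw [RingHom.mem_ker]
      show (1 - Pi.single i 1 : ∀ i, (ZMod p)[X] ⧸ J i) i = 0
      rw [Pi.sub_apply, Pi.single_eq_same, Pi.one_apply, sub_self]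
    · rw [Nat.card_congr e.toEquiv, hcard]
  have hdich : ∀ M : Ideal (∀ i, (ZMod p)[X] ⧸ J i), M.IsMaximal →
      (∃ i, J i ≠ ⊥ ∧ M = RingHom.ker (Pi.evalRingHom (fun i => (ZMod p)[X] ⧸ J i) i)) ∨
      ∀ k : ℕ, M ^ k ≠ M ^ (k + 1) := by
    intro M hM
    obtain ⟨i, N, hN, hMN⟩ := hmax M hM
    by_cases hi : J i = ⊥
    · right
      intro k hk
      have hsurj : Function.Surjective (Pi.evalRingHom (fun i => (ZMod p)[X] ⧸ J i) i) :=
        Function.surjective_eval i
      have h1 : M.map (Pi.evalRingHom (fun i => (ZMod p)[X] ⧸ J i) i) = N := by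
        rw [hMN, Ideal.map_comap_of_surjective _ hsurj]
      have h2 := congrArg (Ideal.map (Pi.evalRingHom (fun i => (ZMod p)[X] ⧸ J i) i)) hk
      rw [Ideal.map_pow, Ideal.map_pow, h1] at h2
      exact quot_bot_pow hi N hN k h2
    · left
      refine ⟨i, hi, ?_⟩
      obtain ⟨c, hc⟩ := (hJ i).resolve_left hi
      obtain ⟨hf, hcard⟩ := quot_field hc
      let _ := hf.toField
      have hN0 : N = ⊥ := (Ideal.eq_bot_or_top N).resolve_right hN.ne_top
      rw [hMN, hN0]
      rfl
  have hnotidem : ∀ M : Ideal (∀ i, (ZMod p)[X] ⧸ J i), M * M = M →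
      ¬ ∀ k : ℕ, M ^ k ≠ M ^ (k + 1) := by
    intro M hM h
    exact h 1 (pow_eq_of_idem M hM)
  refine ⟨?_, ?_, ?_, ?_⟩
  · have h1 : Algebra.FiniteType (ZMod p) (ZMod p)[X] := inferInstance
    have h2 : Module.Finite (ZMod p)[X] (∀ i, (ZMod p)[X] ⧸ J i) := inferInstance
    have h3 : Algebra.FiniteType (ZMod p)[X] (∀ i, (ZMod p)[X] ⧸ J i) := inferInstance
    exact Algebra.FiniteType.trans h1 h3
  · have : ∀ i, IsPrincipalIdealRing ((ZMod p)[X] ⧸ J i) := fun i => quot_pir _
    infer_instance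
  · intro M hM
    rcases hdich M hM with ⟨i, hi, rfl⟩ | h
    · exact Or.inl (hisoM i hi).2
    · exact Or.inr h
  · -- the zeta function
    have hiso : iso (∀ i, (ZMod p)[X] ⧸ J i) = (Finset.univ.filter fun i => J i ≠ ⊥).card := by
      unfold iso
      rw [← Fintype.card_subtype, ← Nat.card_eq_fintype_card]
      symm
      refine Nat.card_congr (Equiv.ofBijective (fun i =>
        ⟨RingHom.ker (Pi.evalRingHom (fun i => (ZMod p)[X] ⧸ J i) i.1),
          (hisoM i.1 i.2).1, (hisoM i.1 i.2).2.1⟩) ⟨?_, ?_⟩)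
      · rintro ⟨i, hi⟩ ⟨j, hj⟩ hij
        have h1 : RingHom.ker (Pi.evalRingHom (fun i => (ZMod p)[X] ⧸ J i) i) =
          RingHom.ker (Pi.evalRingHom (fun i => (ZMod p)[X] ⧸ J i) j) :=
          congrArg Subtype.val hij
        apply Subtype.ext
        show i = j
        by_contra hne
        have h2 : (Pi.single i 1 : ∀ i, (ZMod p)[X] ⧸ J i) ∈
            RingHom.ker (Pi.evalRingHom (fun i => (ZMod p)[X] ⧸ J i) j) := by
          rw [RingHom.mem_ker]
          show (Pi.single i 1 : ∀ i, (ZMod p)[X] ⧸ J i) j = 0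
          exact Pi.single_eq_of_ne (Ne.symm hne) _
        rw [← h1, RingHom.mem_ker] at h2
        have h3 : (Pi.single i 1 : ∀ i, (ZMod p)[X] ⧸ J i) i = 0 := h2
        rw [Pi.single_eq_same] at h3
        obtain ⟨c, hc⟩ := (hJ i).resolve_left hi
        obtain ⟨hf, hcard⟩ := quot_field hc
        let _ := hf.toField
        exact one_ne_zero h3
      · rintro ⟨M, hM, hMM⟩
        rcases hdich M hM with ⟨i, hi, rfl⟩ | h
        · exact ⟨⟨i, hi⟩, rfl⟩
        · exact absurd h (hnotidem M hMM)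
    rw [zet_pi' p (fun i => (ZMod p)[X] ⧸ J i) fun i => finite_ideals p _, hiso]
    have h1 : ∀ i, zet p ((ZMod p)[X] ⧸ J i) = if J i ≠ ⊥ then 1 + PowerSeries.X else 1 := by
      intro i
      split_ifs with hi
      · obtain ⟨c, hc⟩ := (hJ i).resolve_left hi
        obtain ⟨hf, hcard⟩ := quot_field hc
        exact zet_field hf hcard
      · have hi' : J i = ⊥ := not_not.1 hi
        rw [hi', zet_congr p (RingEquiv.quotientBot (ZMod p)[X]), zet_poly]
    rw [Finset.prod_congr rfl fun i _ => h1 i, Finset.prod_ite, Finset.prod_const,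
      Finset.prod_const_one, mul_one]

end Pool.Agent.CC
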