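import Pool.Agent.Lib.MP_305fdd_al.CC.FundDef
import Pool.Agent.Lib.MP_305fdd_al.PSL.Cocycle

/-!
# MP_305fdd_al, piece Q13: the profinite tree of a group acting on a tree (construction)
-/

set_option autoImplicit false

namespace Pool.Agent.CC

open Pool.Agent.Lib.MP_305fdd_al
open Pool.Agent.PSL2Z (TreeAct exists_potential)

/-- finite index normal subgroups -/
abbrev FIN (Λ : Type) [Group Λ] : Type := {K : Subgroup Λ // K.Normal ∧ K.FiniteIndex}

section pro

variable {Λ : Type} [Group Λ] {P P' : Type} [MulAction Λ P] [MulAction Λ P']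

/-- being in the same `K`-orbit -/
def orbRel (K : FIN Λ) (P : Type) [MulAction Λ P] : Setoid P where
  r p p' := ∃ k ∈ K.1, k • p = p'
  iseqv := by
    refine ⟨fun p => ⟨1, K.1.one_mem, one_smul _ _⟩, ?_, ?_⟩
    · rintro p p' ⟨k, hk, rfl⟩
      exact ⟨k⁻¹, K.1.inv_mem hk, inv_smul_smul _ _⟩
    · rintro p p' p'' ⟨k, hk, rfl⟩ ⟨l, hl, rfl⟩
      exact ⟨l * k, K.1.mul_mem hl hk, mul_smul _ _ _⟩

/-- the set of `K`-orbits -/
def OQ (K : FIN Λ) (P : Type) [MulAction Λ P] : Type := Quotient (orbRel K P)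

instance (K : FIN Λ) : TopologicalSpace (OQ K P) := ⊥
instance (K : FIN Λ) : DiscreteTopology (OQ K P) := ⟨rfl⟩

/-- the orbit of `p` -/
def OQ.mk (K : FIN Λ) (p : P) : OQ K P := Quotient.mk (orbRel K P) p

theorem OQ.exists_rep {K : FIN Λ} (c : OQ K P) : ∃ p, OQ.mk K p = c := Quotient.exists_rep c

theorem OQ.eq_iff {K : FIN Λ} {p p' : P} : OQ.mk K p = OQ.mk K p' ↔ ∃ k ∈ K.1, k • p = p' :=
  ⟨fun h => Quotient.exact h, fun h => Quotient.sound h⟩

/-- the projection `K\P → K'\P` -/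
def OQ.proj {K K' : FIN Λ} (h : K.1 ≤ K'.1) : OQ K P → OQ K' P :=
  Quotient.lift (fun p => OQ.mk K' p) fun _ _ hp => by
    obtain ⟨k, hk, hkp⟩ := hp
    exact OQ.eq_iff.2 ⟨k, h hk, hkp⟩

theorem OQ.proj_mk {K K' : FIN Λ} (h : K.1 ≤ K'.1) (p : P) :
    OQ.proj h (OQ.mk K p) = OQ.mk K' p := rfl

/-- functoriality -/
def OQ.map (K : FIN Λ) (f : P → P') (hf : ∀ (g : Λ) p, f (g • p) = g • f p) : OQ K P → OQ K P' :=
  Quotient.lift (fun p => OQ.mk K (f p)) fun _ _ hp => by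
    obtain ⟨k, hk, hkp⟩ := hp
    exact OQ.eq_iff.2 ⟨k, hk, by rw [← hkp, hf]⟩

theorem OQ.map_mk (K : FIN Λ) (f : P → P') (hf : ∀ (g : Λ) p, f (g • p) = g • f p) (p : P) :
    OQ.map K f hf (OQ.mk K p) = OQ.mk K (f p) := rfl

/-- the action of `g` -/
def OQ.act (K : FIN Λ) (g : Λ) : OQ K P → OQ K P :=
  Quotient.lift (fun p => OQ.mk K (g • p)) fun _ _ hp => by
    obtain ⟨k, hk, hkp⟩ := hp
    refine OQ.eq_iff.2 ⟨g * k * g⁻¹, K.2.1.conj_mem k hk g, ?_⟩
    rw [← hkp, mul_smul, mul_smul, inv_smul_smul]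

theorem OQ.act_mk (K : FIN Λ) (g : Λ) (p : P) :
    OQ.act K g (OQ.mk K p) = OQ.mk K (g • p) := rfl

theorem finite_OQ (hP : ∃ Y : Finset P, ∀ p, ∃ y ∈ Y, ∃ g : Λ, g • y = p) (K : FIN Λ) :
    Finite (OQ K P) := by
  obtain ⟨Y, hY⟩ := hP
  have := K.2.2
  have : Finite (Λ ⧸ K.1) := inferInstance
  let f : Y × (Λ ⧸ K.1) → OQ K P := fun a => OQ.mk K (Quotient.out a.2 • a.1.1)
  apply Finite.of_surjective f
  intro c
  obtain ⟨p, rfl⟩ := OQ.exists_rep c
  obtain ⟨y, hy, g, rfl⟩ := hY p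
  refine ⟨(⟨y, hy⟩, (g : Λ ⧸ K.1)), ?_⟩
  obtain ⟨k, hk⟩ := QuotientGroup.mk_out_eq_mul K.1 g
  show OQ.mk K (Quotient.out (g : Λ ⧸ K.1) • y) = OQ.mk K (g • y)
  rw [OQ.eq_iff, hk]
  refine ⟨g * (k.1)⁻¹ * g⁻¹, K.2.1.conj_mem _ (K.1.inv_mem k.2) g, ?_⟩
  rw [← mul_smul]
  congr 1
  group

/-- intersection -/
def FIN.inf (K K' : FIN Λ) : FIN Λ := ⟨K.1 ⊓ K'.1, by
  have h1 := K.2.1
  have h2 := K'.2.1
  have h3 := K.2.2
  have h4 := K'.2.2
  exact ⟨inferInstance, inferInstance⟩⟩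

theorem FIN.inf_le_left (K K' : FIN Λ) : (FIN.inf K K').1 ≤ K.1 := _root_.inf_le_left

theorem FIN.inf_le_right (K K' : FIN Λ) : (FIN.inf K K').1 ≤ K'.1 := _root_.inf_le_right

/-- the whole group -/
def FIN.top : FIN Λ := ⟨⊤, ⟨inferInstance, inferInstance⟩⟩

theorem exists_lower (I : Finset (FIN Λ)) : ∃ K : FIN Λ, ∀ K' ∈ I, K.1 ≤ K'.1 := by
  classical
  induction I using Finset.induction_on with
  | empty => exact ⟨FIN.top, by simp⟩
  | insert a s _ ih =>
    obtain ⟨K, hK⟩ := ih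
    refine ⟨FIN.inf K a, ?_⟩
    intro K' hK'
    rw [Finset.mem_insert] at hK'
    rcases hK' with rfl | h
    · exact inf_le_right
    · exact inf_le_left.trans (hK K' h)

variable (Λ P) in
/-- the profinite completion of the `Λ`-set `P` -/
abbrev SP : Type := {s : ∀ K : FIN Λ, OQ K P //
  ∀ (K K' : FIN Λ) (h : K.1 ≤ K'.1), OQ.proj h (s K) = s K'}

theorem continuous_coord (K : FIN Λ) : Continuous fun s : SP Λ P => s.1 K :=
  (continuous_apply K).comp continuous_subtype_val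

theorem compact_SP (hP : ∃ Y : Finset P, ∀ p, ∃ y ∈ Y, ∃ g : Λ, g • y = p) :
    CompactSpace (SP Λ P) := by
  have h1 : ∀ K : FIN Λ, Finite (OQ K P) := finite_OQ hP
  have h2 : ∀ K : FIN Λ, CompactSpace (OQ K P) := fun K => inferInstance
  have h3 : IsClosed {s : ∀ K : FIN Λ, OQ K P |
      ∀ (K K' : FIN Λ) (h : K.1 ≤ K'.1), OQ.proj h (s K) = s K'} := by
    simp only [Set.ofPred_forall]
    refine isClosed_iInter fun K => isClosed_iInter fun K' => isClosed_iInter fun h => ?_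
    exact isClosed_eq ((continuous_of_discreteTopology (f := OQ.proj h)).comp
      (continuous_apply K)) (continuous_apply K')
  exact isCompact_iff_compactSpace.1 h3.isCompact

/-- the canonical map -/
def SP.of (p : P) : SP Λ P := ⟨fun K => OQ.mk K p, fun _ _ _ => rfl⟩

theorem SP.of_coord (p : P) (K : FIN Λ) : (SP.of p : SP Λ P).1 K = OQ.mk K p := rfl

/-- two coordinates can be represented by one point -/
theorem SP.exists_rep₂ (s : SP Λ P) (K K' : FIN Λ) :
    ∃ p, s.1 K = OQ.mk K p ∧ s.1 K' = OQ.mk K' p := by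
  obtain ⟨p, hp⟩ := OQ.exists_rep (s.1 (FIN.inf K K'))
  refine ⟨p, ?_, ?_⟩
  · rw [← s.2 (FIN.inf K K') K (FIN.inf_le_left K K'), ← hp, OQ.proj_mk]
  · rw [← s.2 (FIN.inf K K') K' (FIN.inf_le_right K K'), ← hp, OQ.proj_mk]

theorem SP.eq_of_le (s s' : SP Λ P) {K K' : FIN Λ} (h : K.1 ≤ K'.1) (hs : s.1 K = s'.1 K) :
    s.1 K' = s'.1 K' := by
  rw [← s.2 K K' h, ← s'.2 K K' h, hs]

/-- open sets contain basic neighbourhoods -/
theorem SP.exists_nhd (U : Set (SP Λ P)) (hU : IsOpen U) (s : SP Λ P) (hs : s ∈ U) :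
    ∃ K : FIN Λ, ∀ s' : SP Λ P, s'.1 K = s.1 K → s' ∈ U := by
  obtain ⟨U', hU', rfl⟩ := isOpen_induced_iff.1 hU
  rw [isOpen_pi_iff] at hU'
  obtain ⟨I, u, hu, hI⟩ := hU' s.1 hs
  obtain ⟨K, hK⟩ := exists_lower I
  refine ⟨K, fun s' hs' => hI ?_⟩
  intro K' hK'
  rw [SP.eq_of_le s' s (hK K' hK') hs']
  exact (hu K' hK').2

/-- a locally constant function depends on one coordinate only -/
theorem SP.factor [CompactSpace (SP Λ P)] {α : Type} (f : SP Λ P → α)
    (hf : IsLocallyConstant f) :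
    ∃ K : FIN Λ, ∀ s s' : SP Λ P, s.1 K = s'.1 K → f s = f s' := by
  classical
  have h1 : ∀ s : SP Λ P, ∃ K : FIN Λ, ∀ s' : SP Λ P, s'.1 K = s.1 K → f s' = f s := by
    intro s
    obtain ⟨K, hK⟩ := SP.exists_nhd (f ⁻¹' {f s}) (hf.isOpen_fiber (f s)) s rfl
    exact ⟨K, fun s' hs' => hK s' hs'⟩
  choose K hK using h1
  obtain ⟨T, hT⟩ := isCompact_univ.elim_finite_subcover
    (fun s : SP Λ P => {s' : SP Λ P | s'.1 (K s) = s.1 (K s)})
    (fun s => (isOpen_discrete {s.1 (K s)}).preimage (continuous_coord (K s)))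
    (fun s _ => Set.mem_iUnion.2 ⟨s, rfl⟩)
  obtain ⟨L, hL⟩ := exists_lower (T.image K)
  refine ⟨L, fun s s' hs => ?_⟩
  have h2 := hT (Set.mem_univ s)
  simp only [Set.mem_iUnion] at h2
  obtain ⟨r, hr, hsr⟩ := h2
  have h3 : L.1 ≤ (K r).1 := hL (K r) (Finset.mem_image_of_mem K hr)
  have h4 : s.1 (K r) = s'.1 (K r) := SP.eq_of_le s s' h3 hs
  rw [hK r s hsr, hK r s' (h4.symm.trans hsr)]

theorem SP.dense (U : Set (SP Λ P)) (hU : IsClosed U) (h : ∀ p, SP.of p ∈ U) : U = Set.univ := by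
  by_contra hne
  obtain ⟨s, hs⟩ := (Set.ne_univ_iff_exists_notMem U).1 hne
  obtain ⟨K, hK⟩ := SP.exists_nhd Uᶜ hU.isOpen_compl s hs
  obtain ⟨p, hp⟩ := OQ.exists_rep (s.1 K)
  exact hK (SP.of p) hp (h p)

/-- functoriality -/
def SP.map (f : P → P') (hf : ∀ (g : Λ) p, f (g • p) = g • f p) (s : SP Λ P) : SP Λ P' :=
  ⟨fun K => OQ.map K f hf (s.1 K), by
    intro K K' h
    obtain ⟨p, h1, h2⟩ := SP.exists_rep₂ s K K'
    show OQ.proj h (OQ.map K f hf (s.1 K)) = OQ.map K' f hf (s.1 K')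
    rw [h1, h2]
    rfl⟩

theorem SP.map_coord (f : P → P') (hf : ∀ (g : Λ) p, f (g • p) = g • f p) (s : SP Λ P)
    (K : FIN Λ) : (SP.map f hf s).1 K = OQ.map K f hf (s.1 K) := rfl

theorem SP.map_of (f : P → P') (hf : ∀ (g : Λ) p, f (g • p) = g • f p) (p : P) :
    SP.map f hf (SP.of p) = SP.of (f p) := rfl

theorem continuous_of_coord {Z : Type} [TopologicalSpace Z] (F : Z → SP Λ P)
    (h : ∀ K : FIN Λ, Continuous fun z => (F z).1 K) : Continuous F :=
  Continuous.subtype_mk (continuous_pi h) _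

theorem SP.continuous_map (f : P → P') (hf : ∀ (g : Λ) p, f (g • p) = g • f p) :
    Continuous (SP.map f hf) := by
  apply continuous_of_coord
  intro K
  exact (continuous_of_discreteTopology (f := OQ.map K f hf)).comp (continuous_coord K)

section act

variable (z : FIN Λ → Λ) (hz : ∀ K K' : FIN Λ, K.1 ≤ K'.1 → (z K)⁻¹ * z K' ∈ K'.1)

/-- the action of the element `z` of the profinite completion -/
def SP.act (s : SP Λ P) : SP Λ P :=
  ⟨fun K => OQ.act K (z K) (s.1 K), by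
    intro K K' h
    obtain ⟨p, h1, h2⟩ := SP.exists_rep₂ s K K'
    show OQ.proj h (OQ.act K (z K) (s.1 K)) = OQ.act K' (z K') (s.1 K')
    rw [h1, h2]
    show OQ.mk K' (z K • p) = OQ.mk K' (z K' • p)
    rw [OQ.eq_iff]
    refine ⟨z K * ((z K)⁻¹ * z K') * (z K)⁻¹, K'.2.1.conj_mem _ (hz K K' h) _, ?_⟩
    rw [← mul_smul]
    congr 1
    group⟩

theorem SP.act_coord (s : SP Λ P) (K : FIN Λ) :
    (SP.act z hz s).1 K = OQ.act K (z K) (s.1 K) := rfl

theorem SP.continuous_act : Continuous (SP.act z hz : SP Λ P → SP Λ P) := by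
  apply continuous_of_coord
  intro K
  exact (continuous_of_discreteTopology (f := OQ.act K (z K))).comp (continuous_coord K)

theorem SP.act_iterate (n : ℕ) (hzn : ∀ K, z K ^ n ∈ K.1) :
    (SP.act z hz : SP Λ P → SP Λ P)^[n] = id := by
  have h1 : ∀ (m : ℕ) (s : SP Λ P) (K : FIN Λ),
      ((SP.act z hz)^[m] s).1 K = OQ.act K (z K ^ m) (s.1 K) := by
    intro m
    induction m with
    | zero =>
      intro s K
      obtain ⟨p, hp⟩ := OQ.exists_rep (s.1 K)
      rw [← hp, OQ.act_mk, pow_zero, one_smul, hp]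
      rfl
    | succ m ih =>
      intro s K
      rw [Function.iterate_succ_apply', SP.act_coord, ih]
      obtain ⟨p, hp⟩ := OQ.exists_rep (s.1 K)
      rw [← hp, OQ.act_mk, OQ.act_mk, OQ.act_mk, ← mul_smul, pow_succ']
  funext s
  apply Subtype.ext
  funext K
  rw [h1]
  obtain ⟨p, hp⟩ := OQ.exists_rep (s.1 K)
  show _ = s.1 K
  rw [← hp, OQ.act_mk, OQ.eq_iff]
  exact ⟨(z K ^ n)⁻¹, K.1.inv_mem (hzn K), inv_smul_smul _ _⟩

theorem SP.act_map (f : P → P') (hf : ∀ (g : Λ) p, f (g • p) = g • f p) (s : SP Λ P) :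
    SP.map f hf (SP.act z hz s) = SP.act z hz (SP.map f hf s) := by
  apply Subtype.ext
  funext K
  rw [SP.map_coord, SP.act_coord, SP.act_coord, SP.map_coord]
  obtain ⟨p, hp⟩ := OQ.exists_rep (s.1 K)
  rw [← hp, OQ.act_mk, OQ.map_mk, OQ.map_mk, OQ.act_mk, hf]

end act

end pro

section tree

variable {Λ V : Type} [Group Λ] [MulAction Λ V] {X : SimpleGraph V} {ty : V → Bool}

/-- the oriented edges -/
structure Edge (_ : TreeAct Λ V X ty) : Type where
  /-- origin -/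
  src : V
  /-- terminus -/
  tgt : V
  adj : X.Adj src tgt
  tys : ty src = true

theorem Edge.ext' {hX : TreeAct Λ V X ty} {e e' : Edge hX} (h : e.src = e'.src)
    (h' : e.tgt = e'.tgt) : e = e' := by
  obtain ⟨a, b, _, _⟩ := e
  obtain ⟨c, d, _, _⟩ := e'
  simp only at h h'
  subst h h'
  rfl

instance (hX : TreeAct Λ V X ty) : MulAction Λ (Edge hX) where
  smul g e := ⟨g • e.src, g • e.tgt, hX.adj g _ _ e.adj, by rw [hX.ty_smul]; exact e.tys⟩
  one_smul e := Edge.ext' (one_smul Λ e.src) (one_smul Λ e.tgt)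
  mul_smul g h e := Edge.ext' (mul_smul g h e.src) (mul_smul g h e.tgt)

theorem Edge.smul_mk {hX : TreeAct Λ V X ty} (g : Λ) (a b : V) (h1 : X.Adj a b)
    (h2 : ty a = true) : g • (⟨a, b, h1, h2⟩ : Edge hX) =
    ⟨g • a, g • b, hX.adj g _ _ h1, by rw [hX.ty_smul]; exact h2⟩ := rfl

theorem cover_edge (hX : TreeAct Λ V X ty) (Y : Finset V) (hY : Fund (Λ := Λ) X Y) :
    ∃ Y' : Finset (Edge hX), ∀ e, ∃ y ∈ Y', ∃ g : Λ, g • y = e := by
  classical
  have hfin : Set.Finite {e : Edge hX | e.src ∈ Y ∧ e.tgt ∈ Y} := by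
    have h1 : Set.Finite {e : V × V | e.1 ∈ Y ∧ e.2 ∈ Y} := by
      apply (Y ×ˢ Y).finite_toSet.subset
      rintro e ⟨h1, h2⟩
      simp [h1, h2]
    refine Set.Finite.preimage (f := fun e : Edge hX => (e.src, e.tgt)) ?_ h1
    intro e _ e' _ h
    exact Edge.ext' (congrArg Prod.fst h) (congrArg Prod.snd h)
  refine ⟨hfin.toFinset, ?_⟩
  rintro ⟨u, v, huv, hu⟩
  obtain ⟨y, hy, z, hz, hyz, g, rfl, rfl⟩ := hY.edge u v huv
  have hty : ty y = true := by
    rw [← hX.ty_smul g y]; exact hu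
  refine ⟨⟨y, z, hyz, hty⟩, ?_, g, rfl⟩
  rw [Set.Finite.mem_toFinset]
  exact ⟨hy, hz⟩

/-- origin -/
def oo (hX : TreeAct Λ V X ty) : SP Λ (Edge hX) → SP Λ V :=
  SP.map (fun e => e.src) fun _ _ => rfl

/-- terminus -/
def tt (hX : TreeAct Λ V X ty) : SP Λ (Edge hX) → SP Λ V :=
  SP.map (fun e => e.tgt) fun _ _ => rfl

theorem ptree (hX : TreeAct Λ V X ty) [CompactSpace (SP Λ (Edge hX))] : PTree (oo hX) (tt hX) := by
  classical
  obtain ⟨v₀⟩ := hX.tree.connected.nonempty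
  refine ⟨⟨SP.of v₀⟩, ?_, ?_⟩
  · intro U hU hUe
    have h1 : ∀ v w, X.Adj v w → (SP.of v ∈ U ↔ SP.of w ∈ U) := by
      intro v w hvw
      by_cases hv : ty v = true
      · exact hUe (SP.of ⟨v, w, hvw, hv⟩)
      · have hw : ty w = true := by
          have := hX.ty_adj v w hvw
          revert hv this
          cases ty v <;> cases ty w <;> simp
        exact (hUe (SP.of ⟨w, v, hvw.symm, hw⟩)).symm
    have h2 : ∀ v, (SP.of v₀ ∈ U ↔ SP.of v ∈ U) := by
      intro v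
      obtain ⟨p⟩ := hX.tree.connected.preconnected v₀ v
      induction p with
      | nil => rfl
      | @cons u v w h p ih => exact (h1 u v h).trans ih
    by_cases h0 : SP.of v₀ ∈ U
    · right
      exact SP.dense U hU.isClosed fun v => (h2 v).1 h0
    · left
      have h3 : Uᶜ = Set.univ := by
        apply SP.dense Uᶜ hU.compl.isClosed
        intro v hv
        exact h0 ((h2 v).2 hv)
      rw [← compl_compl U, h3, Set.compl_univ]
  · intro q hq f hf
    obtain ⟨K, hK⟩ := SP.factor f hf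
    let d : V → V → ZMod q := fun v w =>
      if h : X.Adj v w ∧ ty v = true then f (SP.of ⟨v, w, h.1, h.2⟩)
      else if h : X.Adj w v ∧ ty w = true then - f (SP.of ⟨w, v, h.1, h.2⟩) else 0
    have hd1 : ∀ v w (h : X.Adj v w ∧ ty v = true), d v w = f (SP.of ⟨v, w, h.1, h.2⟩) :=
      fun v w h => dif_pos h
    have hd2 : ∀ v w (h : X.Adj v w ∧ ty v = true), d w v = - f (SP.of ⟨v, w, h.1, h.2⟩) := by
      intro v w h
      have h' : ¬ (X.Adj w v ∧ ty w = true) := by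
        rintro ⟨_, hw⟩
        exact hX.ty_adj v w h.1 (h.2.trans hw.symm)
      show (if h : X.Adj w v ∧ ty w = true then f (SP.of ⟨w, v, h.1, h.2⟩)
        else if h : X.Adj v w ∧ ty v = true then - f (SP.of ⟨v, w, h.1, h.2⟩) else 0) = _
      rw [dif_neg h', dif_pos h]
    have hd : ∀ v w, d w v = - d v w := by
      intro v w
      by_cases h : X.Adj v w ∧ ty v = true
      · rw [hd1 v w h, hd2 v w h]
      · by_cases h' : X.Adj w v ∧ ty w = true
        · rw [hd1 w v h', hd2 w v h', neg_neg]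
        · show (if h : X.Adj w v ∧ ty w = true then f (SP.of ⟨w, v, h.1, h.2⟩)
            else if h : X.Adj v w ∧ ty v = true then - f (SP.of ⟨v, w, h.1, h.2⟩) else 0) =
            - (if h : X.Adj v w ∧ ty v = true then f (SP.of ⟨v, w, h.1, h.2⟩)
            else if h : X.Adj w v ∧ ty w = true then - f (SP.of ⟨w, v, h.1, h.2⟩) else 0)
          rw [dif_neg h', dif_neg h, dif_neg h, dif_neg h', neg_zero]
    obtain ⟨u₀, hu₀⟩ := exists_potential hX.tree d hd
    -- `d` is `K`-invariant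
    have hdK : ∀ k ∈ K.1, ∀ v w, X.Adj v w → d (k • v) (k • w) = d v w := by
      intro k hk
      have key : ∀ v w, X.Adj v w → ty v = true → d (k • v) (k • w) = d v w := by
        intro v w hvw hv
        have h2 : X.Adj (k • v) (k • w) ∧ ty (k • v) = true :=
          ⟨hX.adj k v w hvw, by rw [hX.ty_smul]; exact hv⟩
        rw [hd1 v w ⟨hvw, hv⟩, hd1 _ _ h2]
        apply hK
        rw [SP.of_coord, SP.of_coord, OQ.eq_iff]
        refine ⟨k⁻¹, K.1.inv_mem hk, ?_⟩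
        exact Edge.ext' (inv_smul_smul k v) (inv_smul_smul k w)
      intro v w hvw
      by_cases hv : ty v = true
      · exact key v w hvw hv
      · have hw : ty w = true := by
          have := hX.ty_adj v w hvw
          revert hv this
          cases ty v <;> cases ty w <;> simp
        rw [hd (k • w) (k • v), hd w v, key w v hvw.symm hw]
    have hconst : ∀ k ∈ K.1, ∀ v, u₀ (k • v) - u₀ v = u₀ (k • v₀) - u₀ v₀ := by
      intro k hk v
      obtain ⟨p⟩ := hX.tree.connected.preconnected v v₀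
      induction p with
      | nil => rfl
      | @cons u v w h p ih =>
        rw [← ih]
        have h1 := hu₀ _ _ (hX.adj k _ _ h)
        have h2 := hu₀ _ _ h
        rw [hdK k hk _ _ h, ← h2] at h1
        linear_combination h1
    let c : K.1 →* Multiplicative (ZMod q) :=
      { toFun := fun k => Multiplicative.ofAdd (u₀ (k.1 • v₀) - u₀ v₀)
        map_one' := by
          show Multiplicative.ofAdd (u₀ ((1 : Λ) • v₀) - u₀ v₀) = 1
          rw [one_smul, sub_self]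
          rfl
        map_mul' := by
          intro k l
          show Multiplicative.ofAdd (u₀ ((k.1 * l.1) • v₀) - u₀ v₀) =
            Multiplicative.ofAdd (u₀ (k.1 • v₀) - u₀ v₀) *
            Multiplicative.ofAdd (u₀ (l.1 • v₀) - u₀ v₀)
          rw [← ofAdd_add]
          congr 1
          have h1 := hconst k.1 k.2 (l.1 • v₀)
          rw [mul_smul]
          linear_combination h1 }
    let K₁ : Subgroup Λ := c.ker.map K.1.subtype
    have hK₁ : K₁.FiniteIndex := by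
      have h1 : c.ker.FiniteIndex := inferInstance
      have h2 := K.2.2
      refine ⟨?_⟩
      show (c.ker.map K.1.subtype).index ≠ 0
      rw [Subgroup.index_map_subtype]
      exact mul_ne_zero h1.index_ne_zero h2.index_ne_zero
    let K₂ : FIN Λ := ⟨K₁.normalCore, inferInstance, inferInstance⟩
    have hK₂ : ∀ k ∈ K₂.1, ∀ v, u₀ (k • v) = u₀ v := by
      intro k hk v
      obtain ⟨l, hl, rfl⟩ := Subgroup.normalCore_le K₁ hk
      have h1 : u₀ (l.1 • v₀) - u₀ v₀ = 0 := by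
        have : c l = 1 := hl
        exact this
      have h2 := hconst l.1 l.2 v
      rw [h1] at h2
      exact sub_eq_zero.1 h2
    let u₁ : OQ K₂ V → ZMod q := Quotient.lift u₀ fun a b hab => by
      obtain ⟨k, hk, rfl⟩ := hab
      exact (hK₂ k hk a).symm
    refine ⟨fun s => u₁ (s.1 K₂), (IsLocallyConstant.of_discrete u₁).comp_continuous
      (continuous_coord K₂), ?_⟩
    intro e
    obtain ⟨p, h1, h2⟩ := SP.exists_rep₂ e K K₂
    have h3 : f e = f (SP.of p) := hK e (SP.of p) h1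
    have h4 : (oo hX e).1 K₂ = OQ.mk K₂ p.src := by
      show OQ.map K₂ (fun e : Edge hX => e.src) (fun _ _ => rfl) (e.1 K₂) = _
      rw [h2]
      rfl
    have h5 : (tt hX e).1 K₂ = OQ.mk K₂ p.tgt := by
      show OQ.map K₂ (fun e : Edge hX => e.tgt) (fun _ _ => rfl) (e.1 K₂) = _
      rw [h2]
      rfl
    show f e = u₁ ((oo hX e).1 K₂) - u₁ ((tt hX e).1 K₂)
    rw [h4, h5, h3]
    show f (SP.of p) = u₀ p.src - u₀ p.tgt
    rw [hu₀ _ _ p.adj, hd1 _ _ ⟨p.adj, p.tys⟩]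

end tree

end Pool.Agent.CC
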