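import Pool.Agent.Lib.MP_305fdd_al.CC.PChar
import Pool.Agent.Lib.MP_305fdd_al.CC.Cyclic
import Pool.Agent.Lib.MP_305fdd_al.CC.GoodPi

/-!
# MP_305fdd_al, Q4b: the universal pseudo-character ring of `C_a * C_b`
-/

set_option autoImplicit false

namespace Pool.Agent.CC

open Polynomial Pool.Agent.Lib.MP_305fdd_al Pool.Agent.MP_305fdd_al
open Pool.Agent.PSL2Z (TreeAct zet Z1 Fix edges Gw)
open scoped WithZero nonZeroDivisors

namespace Univ

/-- representatives of the pairs `{k, 1 - k}` in `ZMod a` -/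
abbrev IX (a : ℕ) : Type := {k : ZMod a // k.val ≤ (1 - k).val}

theorem sum_IX {a : ℕ} [NeZero a] {R : Type} [CommRing R] (g : ZMod a → R) :
    ∑ k, g k = ∑ k : IX a, (if k.1 = 1 - k.1 then g k.1 else g k.1 + g (1 - k.1)) := by
  classical
  have h1 : ∑ k : IX a, (if k.1 = 1 - k.1 then g k.1 else g k.1 + g (1 - k.1)) =
      ∑ k : ZMod a, (if k.val ≤ (1 - k).val then
        (if k = 1 - k then g k else g k + g (1 - k)) else 0) := by
    rw [← Finset.sum_filter]
    exact (Finset.sum_subtype (Finset.univ.filter fun k : ZMod a => k.val ≤ (1 - k).val)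
      (p := fun k : ZMod a => k.val ≤ (1 - k).val) (fun k => by simp)
      (fun k => if k = 1 - k then g k else g k + g (1 - k))).symm
  have h2 : ∑ k : ZMod a, (if k.val ≤ (1 - k).val then
        (if k = 1 - k then g k else g k + g (1 - k)) else 0) =
      ∑ k : ZMod a, (if k.val ≤ (1 - k).val then g k else 0) +
      ∑ k : ZMod a, (if k.val < (1 - k).val then g (1 - k) else 0) := by
    rw [← Finset.sum_add_distrib]
    refine Finset.sum_congr rfl fun k _ => ?_
    by_cases hk : k = 1 - k
    · have h3 : ¬ (k.val < (1 - k).val) := by rw [← hk]; exact lt_irrefl _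
      rw [if_neg h3, if_pos hk, add_zero]
    · have h3 : k.val ≤ (1 - k).val ↔ k.val < (1 - k).val := by
        constructor
        · intro h
          exact lt_of_le_of_ne h (fun h' => hk (ZMod.val_injective a h'))
        · exact le_of_lt
      by_cases h4 : k.val < (1 - k).val
      · rw [if_pos (h3.2 h4), if_neg hk, if_pos (h3.2 h4), if_pos h4]
      · rw [if_neg (fun h => h4 (h3.1 h)), if_neg (fun h => h4 (h3.1 h)), if_neg h4, add_zero]
  have h3 : ∑ k : ZMod a, (if k.val < (1 - k).val then g (1 - k) else 0) =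
      ∑ k : ZMod a, (if (1 - k).val < k.val then g k else 0) := by
    refine Fintype.sum_equiv (Equiv.subLeft (1 : ZMod a)) _ _ fun k => ?_
    simp only [Equiv.subLeft_apply, sub_sub_cancel]
  rw [h1, h2, h3, ← Finset.sum_add_distrib]
  refine Finset.sum_congr rfl fun k _ => ?_
  by_cases hk : k.val ≤ (1 - k).val
  · rw [if_pos hk, if_neg (not_lt.2 hk), add_zero]
  · rw [if_neg hk, if_pos (not_le.1 hk), zero_add]

theorem sum_zmod {a : ℕ} [NeZero a] {R : Type} [CommRing R] (g : ℕ → R) :
    ∑ k ∈ Finset.range a, g k = ∑ k : ZMod a, g k.val := by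
  symm
  refine Finset.sum_nbij (fun k => k.val) ?_ ?_ ?_ ?_
  · intro k _
    exact Finset.mem_range.2 (ZMod.val_lt k)
  · intro k _ l _ hkl
    exact ZMod.val_injective a hkl
  · intro n hn
    refine ⟨(n : ZMod a), Finset.mem_coe.2 (Finset.mem_univ _), ?_⟩
    exact ZMod.val_cast_of_lt (Finset.mem_range.1 (Finset.mem_coe.1 hn))
  · intro k _
    rfl

/-- the sum of the two eigenvalues -/
noncomputable def cc {F : Type} [Field F] {a : ℕ} (μ : Fˣ) (k : ZMod a) : F :=
  ((μ ^ k.val : Fˣ) : F) + ((μ ^ (1 - k).val : Fˣ) : F)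

theorem al_mul {F : Type} [Field F] {a : ℕ} [NeZero a] {μ : Fˣ} (hμ : orderOf μ = a)
    (k : ZMod a) : μ ^ k.val * μ ^ (1 - k).val = μ := by
  rw [← pow_add]
  conv_rhs => rw [← pow_one μ]
  rw [pow_eq_pow_iff_modEq, hμ, ← ZMod.natCast_eq_natCast_iff, Nat.cast_add,
    ZMod.natCast_zmod_val, ZMod.natCast_zmod_val, Nat.cast_one, add_sub_cancel]

theorem cc_inj {F : Type} [Field F] {a : ℕ} [NeZero a] {μ : Fˣ} (hμ : orderOf μ = a)
    {k l : IX a} (h : cc μ k.1 = cc μ l.1) : k = l := by
  have h1 := congrArg (fun u : Fˣ => (u : F)) (al_mul hμ k.1)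
  have h2 := congrArg (fun u : Fˣ => (u : F)) (al_mul hμ l.1)
  simp only [Units.val_mul] at h1 h2
  unfold cc at h
  set A : F := ((μ ^ k.1.val : Fˣ) : F) with hA
  set A' : F := ((μ ^ (1 - k.1).val : Fˣ) : F) with hA'
  set B : F := ((μ ^ l.1.val : Fˣ) : F) with hB
  set B' : F := ((μ ^ (1 - l.1).val : Fˣ) : F) with hB'
  have h3 : (A - B) * (A - B') = 0 := by
    linear_combination A * h - h1 + h2
  have key : ∀ s t : ZMod a, ((μ ^ s.val : Fˣ) : F) = ((μ ^ t.val : Fˣ) : F) → s = t := by
    intro s t hst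
    have h4 : μ ^ s.val = μ ^ t.val := Units.ext hst
    rw [pow_eq_pow_iff_modEq, hμ, ← ZMod.natCast_eq_natCast_iff, ZMod.natCast_zmod_val,
      ZMod.natCast_zmod_val] at h4
    exact h4
  rcases mul_eq_zero.1 h3 with h4 | h4
  · exact Subtype.ext (key _ _ (sub_eq_zero.1 h4))
  · have h5 : k.1 = 1 - l.1 := key _ _ (sub_eq_zero.1 h4)
    have h6 := k.2
    have h7 := l.2
    rw [h5, sub_sub_cancel] at h6
    have h8 := ZMod.val_injective a (le_antisymm h7 h6)
    exact Subtype.ext (h5.trans h8.symm)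

section idem

variable {F : Type} [Field F] {G : Type} [Group G] {δ : G →* Fˣ} {R : Type} [CommRing R]
  [Algebra F R] {T : G → R}

/-- the orthogonal idempotents -/
theorem exists_idem (hT : PChar δ T) {a : ℕ} [NeZero a] (ha : (a : F) ≠ 0) (h2 : (2 : F) ≠ 0)
    {μ : Fˣ} (hμ : orderOf μ = a) {x : G} (hx : x ^ a = 1) (hδ : δ x = μ) :
    ∃ e : IX a → R, (∀ k l, e k * e l = if k = l then e k else 0) ∧ ∑ k, e k = 1 ∧
      T x = ∑ k, algebraMap F R (cc μ k.1) * e k := by
  classical
  set n : ZMod a → R := fun k => nk a μ T x k.val with hn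
  have hnn : ∀ k l : ZMod a, n k * n l = (if k = l then n k else 0) +
      (if k + l = 1 then n k else 0) := by
    intro k l
    have h3 : (k.val ≡ l.val [MOD a]) ↔ k = l := by
      rw [← ZMod.natCast_eq_natCast_iff, ZMod.natCast_zmod_val, ZMod.natCast_zmod_val]
    have h4 : (k.val + l.val ≡ 1 [MOD a]) ↔ k + l = 1 := by
      rw [← ZMod.natCast_eq_natCast_iff, Nat.cast_add, ZMod.natCast_zmod_val,
        ZMod.natCast_zmod_val, Nat.cast_one]
    have h5 := nk_mul hT ha hμ hx hδ k.val l.val
    simp only [h3, h4] at h5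
    exact h5
  have hsym : ∀ k : ZMod a, n (1 - k) = n k := by
    intro k
    by_cases hk : k = 1 - k
    · rw [← hk]
    · have h3 := hnn k (1 - k)
      have h4 := hnn (1 - k) k
      rw [if_neg hk, if_pos (add_sub_cancel _ _), zero_add] at h3
      rw [if_neg (fun h => hk h.symm), if_pos (sub_add_cancel _ _), zero_add] at h4
      rw [← h4, mul_comm, h3]
  have hhalf : algebraMap F R (2⁻¹) * 2 = 1 := by
    have : (2 : R) = algebraMap F R 2 := by rw [map_ofNat]
    rw [this, ← map_mul, inv_mul_cancel₀ h2, map_one]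
  set e : IX a → R := fun k => if k.1 = 1 - k.1 then algebraMap F R (2⁻¹) * n k.1 else n k.1
    with he
  have he2 : ∀ k : IX a, (if k.1 = 1 - k.1 then n k.1 else n k.1 + n (1 - k.1)) = 2 * e k := by
    intro k
    simp only [he, hsym]
    split_ifs
    · linear_combination (- n k.1) * hhalf
    · ring
  refine ⟨e, ?_, ?_, ?_⟩
  · intro k l
    by_cases hkl : k = l
    · subst hkl
      rw [if_pos rfl]
      have h3 := hnn k.1 k.1
      rw [if_pos rfl] at h3
      simp only [he]
      by_cases hk : k.1 = 1 - k.1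
      · rw [if_pos hk]
        have h4 : k.1 + k.1 = 1 := by
          nth_rewrite 2 [hk]
          exact add_sub_cancel _ _
        rw [if_pos h4] at h3
        linear_combination (algebraMap F R (2⁻¹)) ^ 2 * h3 +
          (algebraMap F R (2⁻¹)) * n k.1 * hhalf
      · rw [if_neg hk]
        have h4 : ¬ (k.1 + k.1 = 1) := by
          intro h
          exact hk (eq_sub_of_add_eq h)
        rw [if_neg h4, add_zero] at h3
        exact h3
    · rw [if_neg hkl]
      have h3 := hnn k.1 l.1
      rw [if_neg (fun h => hkl (Subtype.ext h))] at h3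
      have h4 : ¬ (k.1 + l.1 = 1) := by
        intro h
        have h5 : k.1 = 1 - l.1 := eq_sub_of_add_eq h
        have h6 := k.2
        have h7 := l.2
        rw [h5, sub_sub_cancel] at h6
        have h8 := ZMod.val_injective a (le_antisymm h7 h6)
        exact hkl (Subtype.ext (h5.trans h8.symm))
      rw [if_neg h4, add_zero] at h3
      simp only [he]
      split_ifs
      · linear_combination (algebraMap F R (2⁻¹)) ^ 2 * h3
      · linear_combination (algebraMap F R (2⁻¹)) * h3
      · linear_combination (algebraMap F R (2⁻¹)) * h3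
      · exact h3
  · have h3 := nk_sum hT ha hμ hx hδ
    rw [sum_zmod, sum_IX (fun k => n k), Finset.sum_congr rfl (fun k _ => he2 k),
      ← Finset.mul_sum] at h3
    linear_combination (algebraMap F R (2⁻¹)) * h3 - (∑ k, e k - 1) * hhalf
  · have h3 := nk_fourier hT ha hμ hx hδ 1
    rw [pow_one, sum_zmod, sum_IX (fun k => algebraMap F R ((μ ^ (k.val * 1) : Fˣ) : F) *
      nk a μ T x k.val)] at h3
    rw [h3]
    refine Finset.sum_congr rfl fun k _ => ?_
    simp only [mul_one]
    change (if k.1 = 1 - k.1 then algebraMap F R ((μ ^ (k.1.val) : Fˣ) : F) * n k.1 else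
      algebraMap F R ((μ ^ (k.1.val) : Fˣ) : F) * n k.1 +
      algebraMap F R ((μ ^ ((1 - k.1).val) : Fˣ) : F) * n (1 - k.1)) = _
    rw [hsym]
    simp only [he, cc, map_add]
    by_cases hk : k.1 = 1 - k.1
    · rw [if_pos hk, if_pos hk, ← hk]
      linear_combination (- algebraMap F R ((μ ^ (k.1.val) : Fˣ) : F) * n k.1) * hhalf
    · rw [if_neg hk, if_neg hk]
      ring

end idem

/-- the homomorphism out of `∏ F[X]/J_i` -/
theorem exists_lift {F : Type} [Field F] {I : Type} [Fintype I] [DecidableEq I]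
    (J : I → Ideal F[X]) {R : Type} [CommRing R] [Algebra F R] (e : I → R)
    (he : ∀ i j, e i * e j = if i = j then e i else 0) (hs : ∑ i, e i = 1) (t : R)
    (hJ : ∀ i, ∀ q ∈ J i, e i * aeval t q = 0) :
    ∃ f : (∀ i, F[X] ⧸ J i) →ₐ[F] R, ∀ q : I → F[X],
      f (fun i => Ideal.Quotient.mk (J i) (q i)) = ∑ i, e i * aeval t (q i) := by
  classical
  have hsur : ∀ a : (∀ i, F[X] ⧸ J i), ∃ q : I → F[X],
      a = fun i => Ideal.Quotient.mk (J i) (q i) := by
    intro a
    have h1 : ∀ i, ∃ q : F[X], Ideal.Quotient.mk (J i) q = a i := fun i =>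
      Ideal.Quotient.mk_surjective (a i)
    choose q hq using h1
    exact ⟨q, funext fun i => (hq i).symm⟩
  choose s hs' using hsur
  set f₀ : (∀ i, F[X] ⧸ J i) → R := fun a => ∑ i, e i * aeval t (s a i) with hf₀
  have key : ∀ q : I → F[X], f₀ (fun i => Ideal.Quotient.mk (J i) (q i)) =
      ∑ i, e i * aeval t (q i) := by
    intro q
    refine Finset.sum_congr rfl fun i _ => ?_
    have h1 := congrFun (hs' (fun i => Ideal.Quotient.mk (J i) (q i))) i
    have h2 := hJ i _ ((Ideal.Quotient.mk_eq_mk_iff_sub_mem _ _).1 h1)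
    rw [map_sub, mul_sub, sub_eq_zero] at h2
    exact h2.symm
  refine ⟨{ toFun := f₀, map_one' := ?_, map_mul' := ?_, map_zero' := ?_, map_add' := ?_,
            commutes' := ?_ }, key⟩
  · have h1 : (1 : ∀ i, F[X] ⧸ J i) = fun i => Ideal.Quotient.mk (J i) (1 : F[X]) := by
      funext i; rw [map_one]; rfl
    rw [h1, key (fun _ => 1)]
    simp only [map_one, mul_one, hs]
  · intro a b
    have h1 : a * b = fun i => Ideal.Quotient.mk (J i) (s a i * s b i) := by
      funext i
      rw [map_mul, ← congrFun (hs' a) i, ← congrFun (hs' b) i]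
      rfl
    rw [h1, key (fun i => s a i * s b i)]
    change _ = (∑ i, e i * aeval t (s a i)) * ∑ i, e i * aeval t (s b i)
    rw [Finset.sum_mul_sum]
    refine Finset.sum_congr rfl fun i _ => ?_
    rw [Finset.sum_eq_single i]
    · rw [map_mul]
      have h2 := he i i
      rw [if_pos rfl] at h2
      linear_combination (- aeval t (s a i) * aeval t (s b i)) * h2
    · intro j _ hj
      have h2 := he i j
      rw [if_neg (fun h => hj h.symm)] at h2
      linear_combination (aeval t (s a i) * aeval t (s b j)) * h2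
    · intro h
      exact absurd (Finset.mem_univ i) h
  · have h1 : (0 : ∀ i, F[X] ⧸ J i) = fun i => Ideal.Quotient.mk (J i) (0 : F[X]) := by
      funext i; rw [map_zero]; rfl
    rw [h1, key (fun _ => 0)]
    simp only [map_zero, mul_zero, Finset.sum_const_zero]
  · intro a b
    have h1 : a + b = fun i => Ideal.Quotient.mk (J i) (s a i + s b i) := by
      funext i
      rw [map_add, ← congrFun (hs' a) i, ← congrFun (hs' b) i]
      rfl
    rw [h1, key (fun i => s a i + s b i)]
    change _ = (∑ i, e i * aeval t (s a i)) + ∑ i, e i * aeval t (s b i)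
    rw [← Finset.sum_add_distrib]
    refine Finset.sum_congr rfl fun i _ => ?_
    rw [map_add, mul_add]
  · intro r
    have h1 : (algebraMap F (∀ i, F[X] ⧸ J i) r) =
        fun i => Ideal.Quotient.mk (J i) (C r : F[X]) := by
      funext i; rfl
    change f₀ _ = _
    rw [h1, key (fun _ => C r)]
    simp only [aeval_C]
    rw [← Finset.sum_mul, hs, one_mul]

/-- the quotient by the complement of an idempotent: `e (T(xy) - t) = 0` -/
theorem scalar_kill {F : Type} [Field F] {G : Type} [Group G] {δ : G →* Fˣ} {R : Type}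
    [CommRing R] [Algebra F R] {T : G → R} (hT : PChar δ T) {a : ℕ} [NeZero a]
    (ha : (a : F) ≠ 0) {μ : Fˣ} (hμ : orderOf μ = a) {x : G} (hx : x ^ a = 1) (hδ : δ x = μ)
    (e : R) (he : e * e = e) (k : ZMod a) (hk : k = 1 - k)
    (hex : e * T x = e * algebraMap F R (cc μ k)) (g : G) :
    e * T (x * g) = e * algebraMap F R ((μ ^ k.val : Fˣ) : F) * T g := by
  set I : Ideal R := Ideal.span {1 - e} with hI
  set π := Ideal.Quotient.mkₐ F I with hπ
  have hπe : π e = 1 := by
    have h1 : π (1 - e) = 0 := by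
      change Ideal.Quotient.mk I (1 - e) = 0
      exact Ideal.Quotient.eq_zero_iff_mem.2 (Ideal.subset_span rfl)
    rw [map_sub, map_one, sub_eq_zero] at h1
    exact h1.symm
  have hT' := hT.map π
  have h1 : π (T x) = algebraMap F (R ⧸ I) (2 * ((μ ^ k.val : Fˣ) : F)) := by
    have h2 := congrArg π hex
    rw [map_mul, map_mul, hπe, one_mul, one_mul, AlgHom.commutes] at h2
    rw [h2]
    congr 1
    unfold cc
    rw [← hk]
    ring
  have h3 : (μ ^ k.val) ^ 2 = μ := by
    have h4 := al_mul hμ k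
    rw [← hk] at h4
    rw [pow_two]
    exact h4
  have h5 : (μ ^ k.val) ^ a = 1 := by
    have h8 : μ ^ a = 1 := by rw [← orderOf_dvd_iff_pow_eq_one, hμ]
    rw [← pow_mul, mul_comm, pow_mul, h8, one_pow]
  have h6 := scalar hT' ha hμ hx hδ (μ ^ k.val) h3 h5 h1 g
  have h7 : T (x * g) - algebraMap F R ((μ ^ k.val : Fˣ) : F) * T g ∈ I := by
    rw [← Ideal.Quotient.eq_zero_iff_mem]
    change π (T (x * g) - algebraMap F R ((μ ^ k.val : Fˣ) : F) * T g) = 0
    rw [map_sub, map_mul, AlgHom.commutes]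
    rw [h6, sub_self]
  obtain ⟨r, hr⟩ := Ideal.mem_span_singleton'.1 h7
  linear_combination (-e) * hr - r * he

/-- the matrices of finite order -/
theorem exists_mat {A : Type} [CommRing A] (a : ℕ) (ha : a ≠ 0) (α α' c : A) (h : α ^ a = 1)
    (h' : α' ^ a = 1) :
    (∃ g : GL (Fin 2) A, g ^ a = 1 ∧ g.val = !![α, (α - α') * c; 0, α']) ∧
    (∃ g : GL (Fin 2) A, g ^ a = 1 ∧ g.val = !![α, 0; (α - α') * c, α']) := by
  have hd : (Matrix.diagonal ![α, α'] : Matrix (Fin 2) (Fin 2) A) ^ a = 1 := by
    rw [Matrix.diagonal_pow, ← Matrix.diagonal_one]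
    congr 1
    funext i
    fin_cases i
    · simpa using h
    · simpa using h'
  have hdd : (Matrix.diagonal ![α, α'] : Matrix (Fin 2) (Fin 2) A) = !![α, 0; 0, α'] := by
    ext i j
    fin_cases i <;> fin_cases j <;> simp
  rw [hdd] at hd
  have main : ∀ (u : (Matrix (Fin 2) (Fin 2) A)ˣ) (M : Matrix (Fin 2) (Fin 2) A),
      M = u.val * !![α, 0; 0, α'] * u⁻¹.val → ∃ g : GL (Fin 2) A, g ^ a = 1 ∧
        g.val = M := by
    intro u M hM
    have hM' : M ^ a = 1 := by
      rw [hM, Units.conj_pow, hd, mul_one, Units.mul_inv]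
    exact ⟨Units.ofPowEqOne M a hM' ha, Units.ext hM', rfl⟩
  constructor
  · refine main ⟨!![1, -c; 0, 1], !![1, c; 0, 1], ?_, ?_⟩ _ ?_
    · ext i j
      fin_cases i <;> fin_cases j <;> simp
    · ext i j
      fin_cases i <;> fin_cases j <;> simp
    · ext i j
      fin_cases i <;> fin_cases j <;> (simp [Matrix.mul_apply, Fin.sum_univ_two]; try ring)
  · refine main ⟨!![1, 0; c, 1], !![1, 0; -c, 1], ?_, ?_⟩ _ ?_
    · ext i j
      fin_cases i <;> fin_cases j <;> simp
    · ext i j
      fin_cases i <;> fin_cases j <;> simp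
    · ext i j
      fin_cases i <;> fin_cases j <;> (simp [Matrix.mul_apply, Fin.sum_univ_two]; try ring)

theorem order_ne_zero {p : ℕ} [Fact p.Prime] (μ : (ZMod p)ˣ) : ((orderOf μ : ℕ) : ZMod p) ≠ 0 := by
  intro h
  rw [ZMod.natCast_eq_zero_iff] at h
  have h1 : orderOf μ ∣ p - 1 := by
    have h2 := orderOf_dvd_card (x := μ)
    rwa [ZMod.card_units] at h2
  have hp : p.Prime := Fact.out
  have h3 := Nat.le_of_dvd (by have := hp.two_le; omega) (h.trans h1)
  have := hp.two_le
  omega

/-- the product `∏ F[X]/J_i` is generated by separating scalars and `X` -/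
theorem adjoin_eq_top {F : Type} [Field F] {K L : Type} [Fintype K] [Fintype L] [DecidableEq K]
    [DecidableEq L] (J : K × L → Ideal F[X]) (c : K → F) (hc : Function.Injective c) (d : L → F)
    (hd : Function.Injective d) (S : Subalgebra F (∀ i, F[X] ⧸ J i))
    (hx : (fun i : K × L => Ideal.Quotient.mk (J i) (C (c i.1))) ∈ S)
    (hy : (fun i : K × L => Ideal.Quotient.mk (J i) (C (d i.2))) ∈ S)
    (hX : (fun i : K × L => Ideal.Quotient.mk (J i) (X : F[X])) ∈ S) : S = ⊤ := by
  classical
  have hev : ∀ (z : ∀ i, F[X] ⧸ J i) (q : F[X]) (i : K × L), (aeval z q) i = aeval (z i) q := by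
    intro z q i
    exact (Polynomial.aeval_algHom_apply (Pi.evalAlgHom F (fun i => F[X] ⧸ J i) i) z q).symm
  have hmem : ∀ z ∈ S, ∀ q : F[X], aeval z q ∈ S := by
    intro z hz q
    exact Algebra.adjoin_le (Set.singleton_subset_iff.2 hz) (aeval_mem_adjoin_singleton F z)
  have hc1 : ∀ k : K, (fun i : K × L => if i.1 = k then (1 : F[X] ⧸ J i) else 0) ∈ S := by
    intro k
    have h1 := hmem _ hx (Lagrange.basis Finset.univ c k)
    convert h1 using 1
    funext i
    rw [hev]
    change _ = aeval (algebraMap F (F[X] ⧸ J i) (c i.1)) _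
    rw [aeval_algebraMap_apply, coe_aeval_eq_eval]
    split_ifs with hi
    · rw [hi, Lagrange.eval_basis_self (hc.injOn) (Finset.mem_univ _), map_one]
    · rw [Lagrange.eval_basis_of_ne (fun h => hi h.symm) (Finset.mem_univ _), map_zero]
  have hd1 : ∀ l : L, (fun i : K × L => if i.2 = l then (1 : F[X] ⧸ J i) else 0) ∈ S := by
    intro l
    have h1 := hmem _ hy (Lagrange.basis Finset.univ d l)
    convert h1 using 1
    funext i
    rw [hev]
    change _ = aeval (algebraMap F (F[X] ⧸ J i) (d i.2)) _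
    rw [aeval_algebraMap_apply, coe_aeval_eq_eval]
    split_ifs with hi
    · rw [hi, Lagrange.eval_basis_self (hd.injOn) (Finset.mem_univ _), map_one]
    · rw [Lagrange.eval_basis_of_ne (fun h => hi h.symm) (Finset.mem_univ _), map_zero]
  rw [eq_top_iff]
  intro a _
  have h1 : ∀ i, ∃ q : F[X], Ideal.Quotient.mk (J i) q = a i := fun i =>
      Ideal.Quotient.mk_surjective (a i)
  choose q hq using h1
  have h2 : a = ∑ j : K × L, ((fun i : K × L => if i.1 = j.1 then (1 : F[X] ⧸ J i) else 0) *
      (fun i : K × L => if i.2 = j.2 then (1 : F[X] ⧸ J i) else 0) *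
      aeval (fun i : K × L => Ideal.Quotient.mk (J i) (X : F[X])) (q j)) := by
    funext i
    rw [Finset.sum_apply, Finset.sum_eq_single i]
    · simp only [Pi.mul_apply, if_true, one_mul]
      rw [hev, ← hq i]
      have h3 := Polynomial.aeval_algHom_apply (Ideal.Quotient.mkₐ F (J i)) X (q i)
      rw [aeval_X_left_apply] at h3
      exact h3.symm
    · intro j _ hj
      simp only [Pi.mul_apply]
      by_cases h3 : i.1 = j.1
      · have h4 : ¬ (i.2 = j.2) := fun h4 => hj (Prod.ext h3 h4).symm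
        rw [if_neg h4, mul_zero, zero_mul]
      · rw [if_neg h3, zero_mul, zero_mul]
    · intro h
      exact absurd (Finset.mem_univ i) h
  rw [h2]
  exact Subalgebra.sum_mem S fun j _ => S.mul_mem (S.mul_mem (hc1 j.1) (hd1 j.2))
    (hmem _ hX (q j))

end Univ

open Univ in
theorem exists_univ (D : Dat) {Γ : Type} [Group Γ] {x y : Γ} (h : IsCaCb D.a D.b Γ x y) :
    ∃ (A : Type) (_ : CommRing A) (_ : Algebra (ZMod D.p) A) (R₀ : Γ →* GL (Fin 2) A),
      IsUniv (del D h) R₀ ∧ Good D.p A := by
  classical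
  have ha0 : D.a ≠ 0 := by have := D.ha; omega
  have hb0 : D.b ≠ 0 := by have := D.hb; omega
  have : NeZero D.a := ⟨ha0⟩
  have : NeZero D.b := ⟨hb0⟩
  have haF : (D.a : ZMod D.p) ≠ 0 := by
    have h1 := order_ne_zero D.μ
    rwa [D.hμ] at h1
  have hbF : (D.b : ZMod D.p) ≠ 0 := by
    have h1 := order_ne_zero D.ν
    rwa [D.hν] at h1
  have h2F : (2 : ZMod D.p) ≠ 0 := by
    intro h1
    have h3 : ((2 : ℕ) : ZMod D.p) = 0 := by exact_mod_cast h1
    rw [ZMod.natCast_eq_zero_iff] at h3
    have h4 := Nat.le_of_dvd (by norm_num) h3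
    have := D.hp2
    omega
  -- eigenvalues
  set al : ZMod D.a → ZMod D.p := fun k => ((D.μ ^ k.val : (ZMod D.p)ˣ) : ZMod D.p) with hal
  set be : ZMod D.b → ZMod D.p := fun l => ((D.ν ^ l.val : (ZMod D.p)ˣ) : ZMod D.p) with hbe
  have hal1 : ∀ k, al k ^ D.a = 1 := by
    intro k
    simp only [hal]
    rw [← Units.val_pow_eq_pow_val, ← pow_mul, mul_comm, pow_mul, D.μ_pow, one_pow, Units.val_one]
  have hbe1 : ∀ l, be l ^ D.b = 1 := by
    intro l
    simp only [hbe]
    rw [← Units.val_pow_eq_pow_val, ← pow_mul, mul_comm, pow_mul, D.ν_pow, one_pow, Units.val_one]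
  have hal2 : ∀ k, al k * al (1 - k) = (D.μ : ZMod D.p) := by
    intro k
    have h1 := congrArg (fun u : (ZMod D.p)ˣ => (u : ZMod D.p)) (al_mul D.hμ k)
    simp only [Units.val_mul] at h1
    exact h1
  have hbe2 : ∀ l, be l * be (1 - l) = (D.ν : ZMod D.p) := by
    intro l
    have h1 := congrArg (fun u : (ZMod D.p)ˣ => (u : ZMod D.p)) (al_mul D.hν l)
    simp only [Units.val_mul] at h1
    exact h1
  have halne : ∀ k, ¬ (k = 1 - k) → al k - al (1 - k) ≠ 0 := by
    intro k hk h1
    have h3 : D.μ ^ k.val = D.μ ^ (1 - k).val := Units.ext (sub_eq_zero.1 h1)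
    rw [pow_eq_pow_iff_modEq, D.hμ, ← ZMod.natCast_eq_natCast_iff, ZMod.natCast_zmod_val,
      ZMod.natCast_zmod_val] at h3
    exact hk h3
  have hbene : ∀ l, ¬ (l = 1 - l) → be l - be (1 - l) ≠ 0 := by
    intro k hk h1
    have h3 : D.ν ^ k.val = D.ν ^ (1 - k).val := Units.ext (sub_eq_zero.1 h1)
    rw [pow_eq_pow_iff_modEq, D.hν, ← ZMod.natCast_eq_natCast_iff, ZMod.natCast_zmod_val,
      ZMod.natCast_zmod_val] at h3
    exact hk h3
  -- the ring
  set t : IX D.a × IX D.b → ZMod D.p := fun i =>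
    al i.1.1 * be i.2.1 + al (1 - i.1.1) * be (1 - i.2.1) with ht
  set J : IX D.a × IX D.b → Ideal (ZMod D.p)[X] := fun i =>
    if i.1.1 = 1 - i.1.1 ∨ i.2.1 = 1 - i.2.1 then Ideal.span {X - C (t i)} else ⊥ with hJ
  have hJ' : ∀ i, J i = ⊥ ∨ ∃ c : ZMod D.p, J i = Ideal.span {X - C c} := by
    intro i
    simp only [hJ]
    split_ifs
    · exact Or.inr ⟨_, rfl⟩
    · exact Or.inl rfl
  set A : Type := ∀ i, (ZMod D.p)[X] ⧸ J i with hA
  -- the matrices
  set mk : ((IX D.a × IX D.b) → (ZMod D.p)[X]) → A := fun q i => Ideal.Quotient.mk (J i) (q i)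
    with hmk
  set α : A := mk (fun i => C (al i.1.1)) with hα
  set α' : A := mk (fun i => C (al (1 - i.1.1))) with hα'
  set β : A := mk (fun i => C (be i.2.1)) with hβ
  set β' : A := mk (fun i => C (be (1 - i.2.1))) with hβ'
  set c : A := mk (fun i => C ((al i.1.1 - al (1 - i.1.1))⁻¹) * (X - C (t i))) with hc
  set d : A := mk (fun i => C ((be i.2.1 - be (1 - i.2.1))⁻¹)) with hd
  have hα1 : α ^ D.a = 1 := by
    funext i
    change (Ideal.Quotient.mk (J i) (C (al i.1.1))) ^ D.a = 1
    rw [← map_pow, ← C_pow, hal1, C_1, map_one]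
  have hα1' : α' ^ D.a = 1 := by
    funext i
    change (Ideal.Quotient.mk (J i) (C (al (1 - i.1.1)))) ^ D.a = 1
    rw [← map_pow, ← C_pow, hal1, C_1, map_one]
  have hβ1 : β ^ D.b = 1 := by
    funext i
    change (Ideal.Quotient.mk (J i) (C (be i.2.1))) ^ D.b = 1
    rw [← map_pow, ← C_pow, hbe1, C_1, map_one]
  have hβ1' : β' ^ D.b = 1 := by
    funext i
    change (Ideal.Quotient.mk (J i) (C (be (1 - i.2.1)))) ^ D.b = 1
    rw [← map_pow, ← C_pow, hbe1, C_1, map_one]
  obtain ⟨gx, hgx, hgx'⟩ := (exists_mat D.a ha0 α α' c hα1 hα1').1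
  obtain ⟨gy, hgy, hgy'⟩ := (exists_mat D.b hb0 β β' d hβ1 hβ1').2
  set R₀ : Γ →* GL (Fin 2) A := toHom h gx gy hgx hgy with hR₀
  have hRx : R₀ x = gx := toHom_x h gx gy hgx hgy
  have hRy : R₀ y = gy := toHom_y h gx gy hgx hgy
  have hdx : gx.val.det = algebraMap (ZMod D.p) A (D.μ : ZMod D.p) := by
    rw [hgx', Matrix.det_fin_two_of, mul_zero, sub_zero]
    funext i
    change Ideal.Quotient.mk (J i) (C (al i.1.1)) * Ideal.Quotient.mk (J i) (C (al (1 - i.1.1))) =
      Ideal.Quotient.mk (J i) (C (D.μ : ZMod D.p))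
    rw [← map_mul, ← C_mul, hal2]
  have hdy : gy.val.det = algebraMap (ZMod D.p) A (D.ν : ZMod D.p) := by
    rw [hgy', Matrix.det_fin_two_of, zero_mul, sub_zero]
    funext i
    change Ideal.Quotient.mk (J i) (C (be i.2.1)) * Ideal.Quotient.mk (J i) (C (be (1 - i.2.1))) =
      Ideal.Quotient.mk (J i) (C (D.ν : ZMod D.p))
    rw [← map_mul, ← C_mul, hbe2]
  have hdet : ∀ g, (R₀ g).val.det = algebraMap (ZMod D.p) A (del D h g : ZMod D.p) := by
    have h1 : (Matrix.GeneralLinearGroup.det).comp R₀ =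
        (Units.map (algebraMap (ZMod D.p) A).toMonoidHom).comp (del D h) := by
      refine hom_ext h ?_ ?_
      · apply Units.ext
        rw [MonoidHom.comp_apply, MonoidHom.comp_apply, hRx]
        change gx.val.det = algebraMap (ZMod D.p) A (del D h x : ZMod D.p)
        rw [hdx, del, toHom_x]
      · apply Units.ext
        rw [MonoidHom.comp_apply, MonoidHom.comp_apply, hRy]
        change gy.val.det = algebraMap (ZMod D.p) A (del D h y : ZMod D.p)
        rw [hdy, del, toHom_y]
    intro g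
    have h2 := congrArg (fun u : Aˣ => (u : A)) (DFunLike.congr_fun h1 g)
    exact h2
  have htx : (R₀ x).val.trace = mk (fun i => C (cc D.μ i.1.1)) := by
    rw [hRx, hgx', Matrix.trace_fin_two_of]
    funext i
    change Ideal.Quotient.mk (J i) (C (al i.1.1)) + Ideal.Quotient.mk (J i) (C (al (1 - i.1.1))) =
      Ideal.Quotient.mk (J i) (C (cc D.μ i.1.1))
    rw [← map_add, ← C_add]
    rfl
  have hty : (R₀ y).val.trace = mk (fun i => C (cc D.ν i.2.1)) := by
    rw [hRy, hgy', Matrix.trace_fin_two_of]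
    funext i
    change Ideal.Quotient.mk (J i) (C (be i.2.1)) + Ideal.Quotient.mk (J i) (C (be (1 - i.2.1))) =
      Ideal.Quotient.mk (J i) (C (cc D.ν i.2.1))
    rw [← map_add, ← C_add]
    rfl
  have htxy : (R₀ (x * y)).val.trace = mk (fun _ => X) := by
    have h1 : (R₀ (x * y)).val.trace = α * β + (α - α') * c * ((β - β') * d) + α' * β' := by
      rw [map_mul, hRx, hRy, Units.val_mul, hgx', hgy', Matrix.trace_fin_two]
      simp [Matrix.mul_apply, Fin.sum_univ_two]
    rw [h1]
    funext i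
    change Ideal.Quotient.mk (J i) (C (al i.1.1)) * Ideal.Quotient.mk (J i) (C (be i.2.1)) +
      (Ideal.Quotient.mk (J i) (C (al i.1.1)) - Ideal.Quotient.mk (J i) (C (al (1 - i.1.1)))) *
      Ideal.Quotient.mk (J i) (C ((al i.1.1 - al (1 - i.1.1))⁻¹) * (X - C (t i))) *
      ((Ideal.Quotient.mk (J i) (C (be i.2.1)) - Ideal.Quotient.mk (J i) (C (be (1 - i.2.1)))) *
      Ideal.Quotient.mk (J i) (C ((be i.2.1 - be (1 - i.2.1))⁻¹))) +
      Ideal.Quotient.mk (J i) (C (al (1 - i.1.1))) * Ideal.Quotient.mk (J i) (C (be (1 - i.2.1))) =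
      Ideal.Quotient.mk (J i) X
    simp only [← map_mul, ← map_sub, ← map_add]
    rw [Ideal.Quotient.mk_eq_mk_iff_sub_mem]
    have h3 : al i.1.1 * be i.2.1 + al (1 - i.1.1) * be (1 - i.2.1) = t i := rfl
    have h4 : C (al i.1.1 * be i.2.1) + C (al i.1.1 - al (1 - i.1.1)) *
        (C ((al i.1.1 - al (1 - i.1.1))⁻¹) * (X - C (t i))) *
        C ((be i.2.1 - be (1 - i.2.1)) * (be i.2.1 - be (1 - i.2.1))⁻¹) +
        C (al (1 - i.1.1) * be (1 - i.2.1)) - X =
        (X - C (t i)) * (C ((al i.1.1 - al (1 - i.1.1)) * (al i.1.1 - al (1 - i.1.1))⁻¹) *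
        C ((be i.2.1 - be (1 - i.2.1)) * (be i.2.1 - be (1 - i.2.1))⁻¹) - 1) := by
      rw [← h3]
      simp only [C_mul, C_add]
      ring
    have h5 : ∀ (z : (ZMod D.p)[X]), z = (X - C (t i)) * (C ((al i.1.1 - al (1 - i.1.1)) *
        (al i.1.1 - al (1 - i.1.1))⁻¹) *
        C ((be i.2.1 - be (1 - i.2.1)) * (be i.2.1 - be (1 - i.2.1))⁻¹) - 1) → z ∈ J i := by
      intro z hz
      by_cases h6 : i.1.1 = 1 - i.1.1 ∨ i.2.1 = 1 - i.2.1
      · have h7 : J i = Ideal.span {X - C (t i)} := by
          simp only [hJ]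
          rw [if_pos h6]
        rw [h7, hz]
        exact Ideal.mul_mem_right _ _ (Ideal.subset_span rfl)
      · have h7 : J i = ⊥ := by
          simp only [hJ]
          rw [if_neg h6]
        push Not at h6
        rw [h7, hz, mul_inv_cancel₀ (halne _ h6.1), mul_inv_cancel₀ (hbene _ h6.2), C_1, one_mul,
          sub_self, mul_zero]
        exact Ideal.zero_mem _
    apply h5
    rw [← h4]
  refine ⟨A, inferInstance, inferInstance, R₀, ⟨hdet, ?_, ?_⟩, good_pi J hJ'⟩
  · refine adjoin_eq_top J (fun k : IX D.a => cc D.μ k.1) (fun k l hkl => cc_inj D.hμ hkl)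
      (fun k : IX D.b => cc D.ν k.1) (fun k l hkl => cc_inj D.hν hkl) _ ?_ ?_ ?_
    · exact Algebra.subset_adjoin ⟨x, htx⟩
    · exact Algebra.subset_adjoin ⟨y, hty⟩
    · exact Algebra.subset_adjoin ⟨x * y, htxy⟩
  · intro R _ _ T hT
    have hδx : del D h x = D.μ := toHom_x h _ _ _ _
    have hδy : del D h y = D.ν := toHom_y h _ _ _ _
    obtain ⟨e, he, he1, heT⟩ := exists_idem hT haF h2F D.hμ h.pa hδx
    obtain ⟨e', he', he1', heT'⟩ := exists_idem hT hbF h2F D.hν h.pb hδy
    have hex : ∀ k, e k * T x = e k * algebraMap (ZMod D.p) R (cc D.μ k.1) := by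
      intro k
      rw [heT, Finset.mul_sum, Finset.sum_eq_single k]
      · have h1 := he k k
        rw [if_pos rfl] at h1
        linear_combination algebraMap (ZMod D.p) R (cc D.μ k.1) * h1
      · intro l _ hl
        have h1 := he k l
        rw [if_neg (fun h => hl h.symm)] at h1
        linear_combination algebraMap (ZMod D.p) R (cc D.μ l.1) * h1
      · intro h1
        exact absurd (Finset.mem_univ k) h1
    have hey : ∀ k, e' k * T y = e' k * algebraMap (ZMod D.p) R (cc D.ν k.1) := by
      intro k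
      rw [heT', Finset.mul_sum, Finset.sum_eq_single k]
      · have h1 := he' k k
        rw [if_pos rfl] at h1
        linear_combination algebraMap (ZMod D.p) R (cc D.ν k.1) * h1
      · intro l _ hl
        have h1 := he' k l
        rw [if_neg (fun h => hl h.symm)] at h1
        linear_combination algebraMap (ZMod D.p) R (cc D.ν l.1) * h1
      · intro h1
        exact absurd (Finset.mem_univ k) h1
    set E : IX D.a × IX D.b → R := fun i => e i.1 * e' i.2 with hE
    have hEE : ∀ i j, E i * E j = if i = j then E i else 0 := by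
      intro i j
      have h1 := he i.1 j.1
      have h2 := he' i.2 j.2
      have h3 : E i * E j = (e i.1 * e j.1) * (e' i.2 * e' j.2) := by
        simp only [hE]
        ring
      rw [h3, h1, h2]
      by_cases hij : i = j
      · subst hij
        simp [hE]
      · rw [if_neg hij]
        by_cases h4 : i.1 = j.1
        · have h5 : ¬ (i.2 = j.2) := fun h5 => hij (Prod.ext h4 h5)
          rw [if_neg h5, mul_zero]
        · rw [if_neg h4, zero_mul]
    have hE1 : ∑ i, E i = 1 := by
      simp only [hE]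
      rw [Fintype.sum_prod_type]
      simp only [← Finset.mul_sum, he1', mul_one, he1]
    have hsumx : ∑ i, E i * algebraMap (ZMod D.p) R (cc D.μ i.1.1) = T x := by
      simp only [hE]
      rw [Fintype.sum_prod_type, heT]
      refine Finset.sum_congr rfl fun k _ => ?_
      have h1 : ∀ l, e k * e' l * algebraMap (ZMod D.p) R (cc D.μ k.1) =
          (algebraMap (ZMod D.p) R (cc D.μ k.1) * e k) * e' l := fun l => by ring
      simp only [h1]
      rw [← Finset.mul_sum, he1', mul_one]
    have hsumy : ∑ i, E i * algebraMap (ZMod D.p) R (cc D.ν i.2.1) = T y := by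
      simp only [hE]
      rw [Fintype.sum_prod_type_right, heT']
      refine Finset.sum_congr rfl fun k _ => ?_
      have h1 : ∀ l, e l * e' k * algebraMap (ZMod D.p) R (cc D.ν k.1) =
          (algebraMap (ZMod D.p) R (cc D.ν k.1) * e' k) * e l := fun l => by ring
      simp only [h1]
      rw [← Finset.mul_sum, he1, mul_one]
    have hEi : ∀ i, E i * E i = E i := by
      intro i
      have h1 := hEE i i
      rwa [if_pos rfl] at h1
    have hkill : ∀ i, (i.1.1 = 1 - i.1.1 ∨ i.2.1 = 1 - i.2.1) →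
        E i * T (x * y) = E i * algebraMap (ZMod D.p) R (t i) := by
      intro i hi
      have h1 : E i * T x = E i * algebraMap (ZMod D.p) R (cc D.μ i.1.1) := by
        simp only [hE]
        linear_combination e' i.2 * hex i.1
      have h2 : E i * T y = E i * algebraMap (ZMod D.p) R (cc D.ν i.2.1) := by
        simp only [hE]
        linear_combination e i.1 * hey i.2
      have h3 : algebraMap (ZMod D.p) R (t i) = algebraMap (ZMod D.p) R (al i.1.1) *
          algebraMap (ZMod D.p) R (be i.2.1) + algebraMap (ZMod D.p) R (al (1 - i.1.1)) *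
          algebraMap (ZMod D.p) R (be (1 - i.2.1)) := by
        simp only [ht, map_add, map_mul]
      rcases hi with hi | hi
      · have h4 := scalar_kill hT haF D.hμ h.pa hδx (E i) (hEi i) i.1.1 hi h1 y
        rw [h4, h3, ← hi]
        have h5 : algebraMap (ZMod D.p) R (cc D.ν i.2.1) = algebraMap (ZMod D.p) R (be i.2.1) +
            algebraMap (ZMod D.p) R (be (1 - i.2.1)) := by
          rw [← map_add]
          rfl
        rw [h5] at h2
        change E i * algebraMap (ZMod D.p) R (al i.1.1) * T y = _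
        linear_combination algebraMap (ZMod D.p) R (al i.1.1) * h2
      · have h4 := scalar_kill hT hbF D.hν h.pb hδy (E i) (hEi i) i.2.1 hi h2 x
        rw [hT.comm x y, h4, h3, ← hi]
        have h5 : algebraMap (ZMod D.p) R (cc D.μ i.1.1) = algebraMap (ZMod D.p) R (al i.1.1) +
            algebraMap (ZMod D.p) R (al (1 - i.1.1)) := by
          rw [← map_add]
          rfl
        rw [h5] at h1
        change E i * algebraMap (ZMod D.p) R (be i.2.1) * T x = _
        linear_combination algebraMap (ZMod D.p) R (be i.2.1) * h1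
    obtain ⟨f, hf⟩ := exists_lift J E hEE hE1 (T (x * y)) (by
      intro i q hq
      by_cases h6 : i.1.1 = 1 - i.1.1 ∨ i.2.1 = 1 - i.2.1
      · have h7 : J i = Ideal.span {X - C (t i)} := by
          simp only [hJ]
          rw [if_pos h6]
        rw [h7] at hq
        obtain ⟨r, rfl⟩ := Ideal.mem_span_singleton'.1 hq
        rw [map_mul, map_sub, aeval_X, aeval_C]
        linear_combination aeval (T (x * y)) r * hkill i h6
      · have h7 : J i = ⊥ := by
          simp only [hJ]
          rw [if_neg h6]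
        rw [h7, Ideal.mem_bot] at hq
        rw [hq, map_zero, mul_zero])
    refine ⟨f, ?_⟩
    have h8 : (fun g => f ((R₀ g).val.trace)) = T := by
      refine PChar.unique h.gen ((PChar.of_rep R₀ (del D h) hdet).map f) hT ?_ ?_ ?_
      · rw [htx, hf]
        simp only [aeval_C]
        exact hsumx
      · rw [hty, hf]
        simp only [aeval_C]
        exact hsumy
      · rw [htxy, hf]
        simp only [aeval_X]
        rw [← Finset.sum_mul, hE1, one_mul]
    exact fun g => congrFun h8 g


end Pool.Agent.CC
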